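import Mathlib

/-!
Unstable circulants of Type II: abstract group version.

`G` is a finite abelian group, `t` an element of order two, `E` a subgroup of odd exponent
with `G = E ∪ (E + t)`.  `S = -S` is the connection set of a Cayley graph.
-/

namespace Pool.Agent.R14.TII

open scoped Classical

variable {G : Type*} [AddCommGroup G]

/-- `(α, β)` is a TF-morphism of `Cay(G, S)`. -/
def TF (S : Set G) (α β : Equiv.Perm G) : Prop :=
  ∀ u v, v - u ∈ S ↔ β v - α u ∈ S

/-- The standing hypotheses. -/
structure Hyp (t : G) (E : AddSubgroup G) (S : Set G) : Prop where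
  ht : t + t = 0
  htE : t ∉ E
  hE : ∀ x, x ∈ E ∨ x + t ∈ E
  hodd : ∃ k : ℕ, ∀ x ∈ E, (2 * k + 1) • x = 0
  hS : ∀ x, x ∈ S → -x ∈ S
  h0 : (0 : G) ∉ S
  htw : ∀ g, (∀ x, x ∈ S ↔ x + g ∈ S) → g = 0
  hII : ∀ α β : Equiv.Perm G, TF S α β → (∀ x, x ∈ E ↔ α x ∈ E) →
    (∀ x, x ∈ E ↔ β x ∈ E) → α = β

/-- `C2 = {2s : s ∈ S, s + t ∉ S}`. -/
def C2 (t : G) (S : Set G) : Set G := {x | ∃ s ∈ S, s + t ∉ S ∧ x = s + s}

/-- The subgroup generated by `C2`. -/
def LL (t : G) (S : Set G) : AddSubgroup G := AddSubgroup.closure (C2 t S)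

variable {t : G} {E : AddSubgroup G} {S : Set G}

theorem Hyp.memS (h : Hyp t E S) (x : G) : x ∈ S ↔ -x ∈ S :=
  ⟨h.hS x, fun hx => by simpa using h.hS _ hx⟩

theorem Hyp.memS' (h : Hyp t E S) (x y : G) : x - y ∈ S ↔ y - x ∈ S := by
  rw [h.memS, neg_sub]

theorem Hyp.tne (h : Hyp t E S) : t ≠ 0 := fun h0 => h.htE (h0 ▸ E.zero_mem)

theorem Hyp.negt (h : Hyp t E S) : -t = t := by
  have := h.ht
  exact neg_eq_of_add_eq_zero_left this

theorem Hyp.subt (h : Hyp t E S) (x : G) : x - t = x + t := by
  rw [sub_eq_add_neg, h.negt]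

theorem Hyp.addtt (h : Hyp t E S) (x : G) : x + t + t = x := by
  rw [add_assoc, h.ht, add_zero]

theorem Hyp.half_mem (h : Hyp t E S) {K : AddSubgroup G} {x : G} (hx : x ∈ E)
    (h2 : x + x ∈ K) : x ∈ K := by
  obtain ⟨k, hk⟩ := h.hodd
  have h1 := hk x hx
  have h3 : x = (k + 1) • (x + x) := by
    have : (k + 1) • (x + x) = (2 * k + 1) • x + x := by
      rw [← two_nsmul, ← mul_nsmul', ← succ_nsmul]
      congr 1; ring
    rw [this, h1, zero_add]
  rw [h3]
  exact K.nsmul_mem h2 _

theorem Hyp.half_zero (h : Hyp t E S) {x : G} (hx : x ∈ E) (h2 : x + x = 0) : x = 0 := by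
  have := h.half_mem (K := (⊥ : AddSubgroup G)) hx (by simpa using h2)
  simpa using this

theorem Hyp.half (h : Hyp t E S) {x : G} (h2 : x + x = 0) : x = 0 ∨ x = t := by
  rcases h.hE x with hx | hx
  · exact Or.inl (h.half_zero hx h2)
  · right
    have : x + t = 0 := h.half_zero hx (by
      have : x + t + (x + t) = (x + x) + (t + t) := by abel
      rw [this, h2, h.ht, add_zero])
    have h3 : x = -t := eq_neg_of_add_eq_zero_left this
    rw [h3, h.negt]

theorem Hyp.C2E (h : Hyp t E S) : C2 t S ⊆ E := by
  rintro x ⟨s, _, _, rfl⟩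
  rcases h.hE s with hs | hs
  · exact E.add_mem hs hs
  · have : s + s = (s + t) + (s + t) := by
      have : s + t + (s + t) = (s + s) + (t + t) := by abel
      rw [this, h.ht, add_zero]
    rw [this]
    exact E.add_mem hs hs

theorem Hyp.LE (h : Hyp t E S) : LL t S ≤ E := by
  unfold LL
  rw [AddSubgroup.closure_le]
  exact h.C2E

theorem Hyp.tL (h : Hyp t E S) : t ∉ LL t S := fun hh => h.htE (h.LE hh)

/-- `H = L ∪ (L + t)`. -/
def Hyp.H (h : Hyp t E S) : AddSubgroup G where
  carrier := {x | x ∈ LL t S ∨ x + t ∈ LL t S}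
  zero_mem' := Or.inl (LL t S).zero_mem
  add_mem' := by
    rintro a b (ha | ha) (hb | hb)
    · exact Or.inl ((LL t S).add_mem ha hb)
    · exact Or.inr (by rw [add_assoc]; exact (LL t S).add_mem ha hb)
    · exact Or.inr (by
        have : a + b + t = (a + t) + b := by abel
        rw [this]; exact (LL t S).add_mem ha hb)
    · exact Or.inl (by
        have : a + b = (a + t) + (b + t) := by
          have h1 : a + t + (b + t) = (a + b) + (t + t) := by abel
          rw [h1, h.ht, add_zero]
        rw [this]; exact (LL t S).add_mem ha hb)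
  neg_mem' := by
    rintro a (ha | ha)
    · exact Or.inl ((LL t S).neg_mem ha)
    · exact Or.inr (by
        have : -a + t = -(a + t) := by rw [neg_add, h.negt]
        rw [this]; exact (LL t S).neg_mem ha)

theorem Hyp.memH (h : Hyp t E S) {x : G} : x ∈ h.H ↔ (x ∈ LL t S ∨ x + t ∈ LL t S) := Iff.rfl

theorem Hyp.LH (h : Hyp t E S) : LL t S ≤ h.H := fun _ hx => Or.inl hx

theorem Hyp.tH (h : Hyp t E S) : t ∈ h.H := Or.inr (by rw [h.ht]; exact (LL t S).zero_mem)

/-- Outside `H` the set `S` is invariant under `t`. -/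
theorem Hyp.outH1 (h : Hyp t E S) {x : G} (hx : x ∉ h.H) (hxS : x ∈ S) : x + t ∈ S := by
  by_contra hn
  have h2 : x + x ∈ LL t S := AddSubgroup.subset_closure ⟨x, hxS, hn, rfl⟩
  apply hx
  rcases h.hE x with hE | hE
  · exact Or.inl (h.half_mem hE h2)
  · refine Or.inr (h.half_mem hE ?_)
    have : x + t + (x + t) = (x + x) + (t + t) := by abel
    rw [this, h.ht, add_zero]
    exact h2

theorem Hyp.addtH (h : Hyp t E S) {x : G} : x + t ∈ h.H ↔ x ∈ h.H := by
  constructor
  · intro hx
    have := h.H.sub_mem hx h.tH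
    simpa using this
  · intro hx
    exact h.H.add_mem hx h.tH

theorem Hyp.outH (h : Hyp t E S) {x : G} (hx : x ∉ h.H) : x ∈ S ↔ x + t ∈ S := by
  constructor
  · exact h.outH1 hx
  · intro hxt
    have := h.outH1 (x := x + t) (by rw [h.addtH]; exact hx) hxt
    rwa [h.addtt] at this

/-- If `S` is `t`-invariant on `L` we get a contradiction. -/
theorem Hyp.contraL (h : Hyp t E S) (hL : ∀ y ∈ LL t S, (y ∈ S ↔ y + t ∈ S)) : False := by
  apply h.tne
  apply h.htw
  intro x
  by_cases hx : x ∈ h.H
  · rcases hx with hx | hx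
    · exact hL x hx
    · have := hL _ hx
      rw [h.addtt] at this
      exact this.symm
  · exact h.outH hx

theorem TF.mul {α β α' β' : Equiv.Perm G} (h1 : TF S α β) (h2 : TF S α' β') :
    TF S (α * α') (β * β') := by
  intro u v
  rw [h2 u v, h1 (α' u) (β' v)]
  rfl

theorem TF.inv {α β : Equiv.Perm G} (h1 : TF S α β) : TF S α⁻¹ β⁻¹ := by
  intro u v
  rw [h1 (α⁻¹ u) (β⁻¹ v)]
  simp

theorem Hyp.TFsymm (h : Hyp t E S) {α β : Equiv.Perm G} (h1 : TF S α β) : TF S β α := by
  intro u v
  rw [h.memS' v u, h1 v u, h.memS']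

theorem TF.tr (S : Set G) (c : G) : TF S (Equiv.addRight c) (Equiv.addRight c) := by
  intro u v
  simp

section parity

variable [Fintype G]

theorem Hyp.card_common (h : Hyp t E S) (u w : G) :
    ((Finset.univ.filter (fun v => v - u ∈ S ∧ v - w ∈ S)).card : ZMod 2)
      = if w - u ∈ C2 t S then 1 else 0 := by
  -- split into fixed points of v ↦ u + w - v and the rest
  have hsplit : (Finset.univ.filter (fun v => v - u ∈ S ∧ v - w ∈ S)).card
      = (Finset.univ.filter (fun v => (v - u ∈ S ∧ v - w ∈ S) ∧ v + v = u + w)).card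
        + (Finset.univ.filter (fun v => (v - u ∈ S ∧ v - w ∈ S) ∧ ¬ (v + v = u + w))).card := by
    have h0 := Finset.card_filter_add_card_filter_not
      (s := Finset.univ.filter (fun v => v - u ∈ S ∧ v - w ∈ S)) (fun v => v + v = u + w)
    rw [Finset.filter_filter, Finset.filter_filter] at h0
    exact h0.symm
  have hrest : ((Finset.univ.filter
      (fun v => (v - u ∈ S ∧ v - w ∈ S) ∧ ¬ (v + v = u + w))).card : ZMod 2) = 0 := by
    have : ((Finset.univ.filter
      (fun v => (v - u ∈ S ∧ v - w ∈ S) ∧ ¬ (v + v = u + w))).card : ZMod 2)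
      = ∑ v ∈ Finset.univ.filter
      (fun v => (v - u ∈ S ∧ v - w ∈ S) ∧ ¬ (v + v = u + w)), (1 : ZMod 2) := by simp
    rw [this]
    apply Finset.sum_involution (fun v _ => u + w - v)
    · intro a _; decide
    · intro a ha _ he
      simp only [Finset.mem_filter, Finset.mem_univ, true_and] at ha
      apply ha.2
      rw [sub_eq_iff_eq_add] at he
      exact he.symm
    · intro a ha
      simp only [Finset.mem_filter, Finset.mem_univ, true_and] at ha ⊢
      refine ⟨⟨?_, ?_⟩, ?_⟩
      · have : u + w - a - u = w - a := by abel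
        rw [this, h.memS']; exact ha.1.2
      · have : u + w - a - w = u - a := by abel
        rw [this, h.memS']; exact ha.1.1
      · intro he
        apply ha.2
        have : u + w - a + (u + w - a) = (u + w) + ((u + w) - (a + a)) := by abel
        rw [this] at he
        have h2 : (u + w) - (a + a) = 0 := by
          have := add_eq_left.mp he
          exact this
        exact (sub_eq_zero.mp h2).symm
    · intro a _
      abel
  rw [hsplit, Nat.cast_add, hrest, add_zero]
  split_ifs with hc
  · obtain ⟨s, hs, hst, hws⟩ := hc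
    have : (Finset.univ.filter (fun v => (v - u ∈ S ∧ v - w ∈ S) ∧ v + v = u + w)) = {u + s} := by
      ext v
      simp only [Finset.mem_filter, Finset.mem_univ, true_and, Finset.mem_singleton]
      constructor
      · rintro ⟨⟨h1, _⟩, h3⟩
        have hz : (v - u - s) + (v - u - s) = 0 := by
          have e1 : (v - u - s) + (v - u - s) = (v + v) - (u + u) - (s + s) := by abel
          rw [e1, h3, ← hws]; abel
        rcases h.half hz with h4 | h4
        · have : v = u + s := by
            have := sub_eq_zero.mp h4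
            rw [← this]; abel
          exact this
        · exfalso
          apply hst
          have : v - u = s + t := by rw [← h4]; abel
          rw [← this]; exact h1
      · rintro rfl
        refine ⟨⟨by simpa using hs, ?_⟩, ?_⟩
        · have : u + s - w = -s := by
            have : w = s + s + u := by rw [← hws]; abel
            rw [this]; abel
          rw [this]; exact h.hS _ hs
        · have : w = s + s + u := by rw [← hws]; abel
          rw [this]; abel
    rw [this]; simp
  · have : ((Finset.univ.filter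
      (fun v => (v - u ∈ S ∧ v - w ∈ S) ∧ v + v = u + w)).card : ZMod 2)
      = ∑ v ∈ Finset.univ.filter
      (fun v => (v - u ∈ S ∧ v - w ∈ S) ∧ v + v = u + w), (1 : ZMod 2) := by simp
    rw [this]
    apply Finset.sum_involution (fun v _ => v + t)
    · intro a _; decide
    · intro a ha _ he
      exact h.tne (add_eq_left.mp he)
    · intro a ha
      simp only [Finset.mem_filter, Finset.mem_univ, true_and] at ha ⊢
      obtain ⟨⟨h1, h2⟩, h3⟩ := ha
      have e0 : (a - u) + (a - u) = w - u := by
        have : (a - u) + (a - u) = (a + a) - (u + u) := by abel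
        rw [this, h3]; abel
      have k1 : a - u + t ∈ S := by
        by_contra hn
        exact hc ⟨a - u, h1, hn, e0.symm⟩
      have e3 : a + t + (a + t) = u + w := by
        have : a + t + (a + t) = (a + a) + (t + t) := by abel
        rw [this, h.ht, add_zero, h3]
      refine ⟨⟨?_, ?_⟩, e3⟩
      · have : a + t - u = a - u + t := by abel
        rw [this]; exact k1
      · have : a + t - w = -(a - u + t) := by
          have hw : w = (a + t + (a + t)) - u := by rw [e3]; abel
          rw [hw]; abel
        rw [this]; exact h.hS _ k1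
    · intro a _
      exact h.addtt a

theorem Hyp.c2 (h : Hyp t E S) {α β : Equiv.Perm G} (h1 : TF S α β) (u w : G) :
    w - u ∈ C2 t S ↔ α w - α u ∈ C2 t S := by
  have hcard : (Finset.univ.filter (fun v => v - u ∈ S ∧ v - w ∈ S)).card
      = (Finset.univ.filter (fun v => v - α u ∈ S ∧ v - α w ∈ S)).card := by
    apply Finset.card_equiv β
    intro v
    simp only [Finset.mem_filter, Finset.mem_univ, true_and]
    rw [h1 u v, h1 w v]
  have e1 := h.card_common u w
  have e2 := h.card_common (α u) (α w)
  rw [hcard, e2] at e1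
  by_cases hc : w - u ∈ C2 t S
  · by_cases hd : α w - α u ∈ C2 t S
    · exact ⟨fun _ => hd, fun _ => hc⟩
    · rw [if_pos hc, if_neg hd] at e1
      exact absurd e1 (by decide)
  · by_cases hd : α w - α u ∈ C2 t S
    · rw [if_neg hc, if_pos hd] at e1
      exact absurd e1 (by decide)
    · exact ⟨fun hh => absurd hh hc, fun hh => absurd hh hd⟩

theorem Hyp.coset1 (h : Hyp t E S) {α β : Equiv.Perm G} (h1 : TF S α β) (x : G)
    (hx : x ∈ LL t S) : ∀ u, α (u + x) - α u ∈ LL t S := by
  unfold LL at hx
  induction hx using AddSubgroup.closure_induction with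
  | mem x hx =>
    intro u
    have := (h.c2 h1 u (u + x)).mp (by simpa using hx)
    exact AddSubgroup.subset_closure this
  | zero => intro u; simp
  | add x y _ _ hx hy =>
    intro u
    have e : α (u + (x + y)) - α u = (α (u + x + y) - α (u + x)) + (α (u + x) - α u) := by
      rw [add_assoc]; abel
    rw [e]
    exact (LL t S).add_mem (hy _) (hx _)
  | neg x _ hx =>
    intro u
    have e : α (u + -x) - α u = -(α (u + -x + x) - α (u + -x)) := by
      rw [neg_add_cancel_right]; abel
    rw [e]
    exact (LL t S).neg_mem (hx _)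

/-- Both maps of a TF-morphism preserve the partition into `L`-cosets. -/
theorem Hyp.coset (h : Hyp t E S) {α β : Equiv.Perm G} (h1 : TF S α β) (x y : G) :
    x - y ∈ LL t S ↔ α x - α y ∈ LL t S := by
  constructor
  · intro hx
    have := h.coset1 h1 (x - y) hx y
    rwa [add_sub_cancel] at this
  · intro hx
    have := h.coset1 h1.inv (α x - α y) hx (α y)
    rw [add_sub_cancel] at this
    simpa using this

end parity

end Pool.Agent.R14.TII
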