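import Pool.Agent.R14.TII.Defs

namespace Pool.Agent.R14.TII

open scoped Classical

section bridge

variable {V : Type*} {Γ : SimpleGraph V}

theorem z2 (i : ZMod 2) : i = 0 ∨ i = 1 := by
  revert i; decide

theorem ktwo_adj (i j : ZMod 2) : KTwo.Adj i j ↔ j = i + 1 := by
  unfold KTwo
  rw [SimpleGraph.top_adj]
  revert i j; decide

theorem direct_adj (x y : V) (i j : ZMod 2) :
    (Direct Γ KTwo).Adj (x, i) (y, j) ↔ Γ.Adj x y ∧ j = i + 1 := by
  show Γ.Adj x y ∧ KTwo.Adj i j ↔ _
  rw [ktwo_adj]

/-- a property constant along edges of a connected graph is constant -/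
theorem const_of_conn (hc : Γ.Connected) {A : Type*} (f : V → A)
    (hf : ∀ x y, Γ.Adj x y → f x = f y) (x y : V) : f x = f y := by
  obtain ⟨w⟩ := hc.preconnected x y
  induction w with
  | nil => rfl
  | cons hadj _ ih => exact (hf _ _ hadj).trans ih

/-- functions on `V × ℤ₂` constant along the edges of the double cover are constant -/
theorem const_of_cover (hc : Γ.Connected) (hnb : ¬ Γ.Colorable 2) (c : V → ZMod 2 → ZMod 2)
    (h : ∀ x y i, Γ.Adj x y → c x i = c y (i + 1)) : ∃ d, ∀ x i, c x i = d := by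
  have h1 : ∀ x y, Γ.Adj x y → c x 0 - c x 1 = c y 1 - c y 0 := by
    intro x y hxy
    have e0 := h x y 0 hxy
    have e1 := h x y 1 hxy
    have : (1 : ZMod 2) + 1 = 0 := by decide
    rw [zero_add] at e0
    rw [this] at e1
    rw [e0, e1]
  have h2 : ∀ x y, c x 0 - c x 1 = c y 0 - c y 1 := by
    apply const_of_conn hc (fun x => c x 0 - c x 1)
    intro x y hxy
    show c x 0 - c x 1 = c y 0 - c y 1
    rw [h1 x y hxy]
    have : ∀ a b : ZMod 2, a - b = b - a := by decide
    exact this _ _
  obtain ⟨x₀⟩ := hc.nonempty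
  rcases z2 (c x₀ 0 - c x₀ 1) with h3 | h3
  · -- equal
    have h4 : ∀ x, c x 0 = c x 1 := by
      intro x
      have := h2 x x₀
      rw [h3] at this
      exact sub_eq_zero.mp this
    have h5 : ∀ x y, c x 0 = c y 0 := by
      apply const_of_conn hc (fun x => c x 0)
      intro x y hxy
      show c x 0 = c y 0
      have e0 := h x y 0 hxy
      rw [zero_add] at e0
      rw [e0, ← h4]
    refine ⟨c x₀ 0, ?_⟩
    intro x i
    rcases z2 i with rfl | rfl
    · exact h5 x x₀
    · rw [← h4]; exact h5 x x₀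
  · exfalso
    apply hnb
    have h4 : ∀ x, c x 0 = c x 1 + 1 := by
      intro x
      have := h2 x x₀
      rw [h3, sub_eq_iff_eq_add] at this
      rw [this, add_comm]
    have col : Γ.Coloring (ZMod 2) := SimpleGraph.Coloring.mk (fun x => c x 0) (by
      intro x y hxy hEq
      have hEq' : c x 0 = c y 0 := hEq
      have e0 := h x y 0 hxy
      rw [zero_add] at e0
      rw [e0, h4 y] at hEq'
      have : ∀ a : ZMod 2, a ≠ a + 1 := by decide
      exact this _ hEq')
    have := col.colorable
    simpa using this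

/-- the automorphism of `Γ × K₂` given by an automorphism of `Γ` and a shift of the layers -/
def lift (a : Γ ≃g Γ) (c : ZMod 2) : Direct Γ KTwo ≃g Direct Γ KTwo where
  toEquiv := Equiv.prodCongr a.toEquiv (Equiv.addRight c)
  map_rel_iff' := by
    rintro ⟨x, i⟩ ⟨y, j⟩
    show (Direct Γ KTwo).Adj (a x, i + c) (a y, j + c) ↔ _
    rw [direct_adj, direct_adj, a.map_rel_iff]
    have : ∀ i j c : ZMod 2, j + c = i + c + 1 ↔ j = i + 1 := by decide
    rw [this]

theorem lift_apply (a : Γ ≃g Γ) (c : ZMod 2) (x : V) (i : ZMod 2) :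
    lift a c (x, i) = (a x, i + c) := rfl

/-- the canonical homomorphism `Aut Γ × ℤ₂ → Aut (Γ × K₂)` -/
def liftHom (Γ : SimpleGraph V) :
    ((Γ ≃g Γ) × Multiplicative (ZMod 2)) →* (Direct Γ KTwo ≃g Direct Γ KTwo) where
  toFun p := lift p.1 p.2.toAdd
  map_one' := by
    ext ⟨x, i⟩
    · rfl
    · show i + 0 = i
      rw [add_zero]
  map_mul' := by
    rintro ⟨a, c⟩ ⟨b, d⟩
    ext ⟨x, i⟩
    · rfl
    · show i + (c.toAdd + d.toAdd) = (i + d.toAdd) + c.toAdd
      ring

theorem exists_TF (hc : Γ.Connected) (hnb : ¬ Γ.Colorable 2) (hns : ¬ Stable Γ) :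
    ∃ α β : Equiv.Perm V, IsTF Γ α β ∧ α ≠ β := by
  by_contra hcon
  push Not at hcon
  apply hns
  have hinj : Function.Injective (liftHom Γ) := by
    rintro ⟨a, c⟩ ⟨b, d⟩ hab
    obtain ⟨x₀⟩ := hc.nonempty
    have h1 : ∀ x i, (a x, i + c.toAdd) = (b x, i + d.toAdd) := by
      intro x i
      have := congrArg (fun f => f (x, i)) hab
      exact this
    have h2 : a = b := by
      ext x
      exact (Prod.ext_iff.mp (h1 x 0)).1
    have h3 : c = d := by
      have := (Prod.ext_iff.mp (h1 x₀ 0)).2
      simp only [zero_add] at this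
      exact Multiplicative.toAdd.injective this
    rw [h2, h3]
  have hsurj : Function.Surjective (liftHom Γ) := by
    intro f
    obtain ⟨d, hd⟩ := const_of_cover hc hnb (fun x i => (f (x, i)).2 - i) (by
      intro x y i hxy
      have h1 : (Direct Γ KTwo).Adj (x, i) (y, i + 1) := (direct_adj _ _ _ _).mpr ⟨hxy, rfl⟩
      have h2 := f.map_rel_iff.mpr h1
      have h3 : (f (y, i + 1)).2 = (f (x, i)).2 + 1 := by
        have := (direct_adj (Γ := Γ) (f (x, i)).1 (f (y, i + 1)).1 (f (x, i)).2
          (f (y, i + 1)).2).mp h2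
        exact this.2
      show (f (x, i)).2 - i = (f (y, i + 1)).2 - (i + 1)
      rw [h3]; ring)
    have hf2 : ∀ x i, (f (x, i)).2 = i + d := by
      intro x i
      have := hd x i
      have h' : (f (x, i)).2 - i = d := this
      rw [← h']; ring
    have hf : ∀ x i, f (x, i) = ((f (x, i)).1, i + d) := fun x i => Prod.ext rfl (hf2 x i)
    -- inverse
    have hbij : ∀ i, Function.Bijective (fun x => (f (x, i)).1) := by
      intro i
      constructor
      · intro x y hxy
        have : f (x, i) = f (y, i) := by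
          rw [hf x i, hf y i]
          exact Prod.ext hxy rfl
        exact (Prod.ext_iff.mp (f.injective this)).1
      · intro y
        obtain ⟨⟨x, j⟩, hx⟩ := f.surjective (y, i + d)
        have h3 := hf2 x j
        rw [hx] at h3
        have h4 : i = j := add_right_cancel h3
        subst h4
        exact ⟨x, by show (f (x, i)).1 = y; rw [hx]⟩
    let al : Equiv.Perm V := Equiv.ofBijective _ (hbij 0)
    let be : Equiv.Perm V := Equiv.ofBijective _ (hbij 1)
    have hTF : IsTF Γ al be := by
      intro u v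
      have h1 : (Direct Γ KTwo).Adj (u, 0) (v, 1) ↔ Γ.Adj u v := by
        rw [direct_adj]; simp
      have h2 : (Direct Γ KTwo).Adj (f (u, 0)) (f (v, 1)) ↔ Γ.Adj (al u) (be v) := by
        rw [hf u 0, hf v 1, direct_adj]
        have : (1 : ZMod 2) + d = 0 + d + 1 := by ring
        simp only [this, and_true]
        rfl
      rw [← h1, ← h2]
      exact f.map_rel_iff.symm
    have hab := hcon al be hTF
    let a : Γ ≃g Γ := ⟨al, by
      intro u v
      have := hTF u v
      rw [← hab] at this
      exact this.symm⟩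
    refine ⟨(a, Multiplicative.ofAdd d), ?_⟩
    ext ⟨x, i⟩
    · show al x = (f (x, i)).1
      rcases z2 i with rfl | rfl
      · rfl
      · rw [hab]; rfl
    · show i + d = (f (x, i)).2
      exact (hf2 x i).symm
  exact ⟨(MulEquiv.ofBijective (liftHom Γ) ⟨hinj, hsurj⟩).symm⟩

end bridge

end Pool.Agent.R14.TII
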