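import Pool.Agent.R14.TII.Cor
import Pool.Agent.R14.TII.Bridge

namespace Pool.Agent.R14.TII

open scoped Classical

/-- the subgroup of even residues -/
def EvenSub (m : ℕ) : AddSubgroup (ZMod (2 * m)) where
  carrier := Evens m
  zero_mem' := ⟨0, by simp⟩
  add_mem' := by
    rintro a b ⟨x, rfl⟩ ⟨y, rfl⟩
    exact ⟨x + y, by abel⟩
  neg_mem' := by
    rintro a ⟨x, rfl⟩
    exact ⟨-x, by abel⟩

theorem mem_EvenSub {m : ℕ} {x : ZMod (2 * m)} : x ∈ EvenSub m ↔ x ∈ Evens m := Iff.rfl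

theorem m_add_m (m : ℕ) : (m : ZMod (2 * m)) + m = 0 := by
  have : ((2 * m : ℕ) : ZMod (2 * m)) = 0 := ZMod.natCast_self _
  rw [← this]; push_cast; ring

theorem m_not_even {m : ℕ} (hm : Odd m) : (m : ZMod (2 * m)) ∉ EvenSub m := by
  rintro ⟨y, hy⟩
  have h2 : 2 ∣ 2 * m := ⟨m, rfl⟩
  have := congrArg (ZMod.castHom h2 (ZMod 2)) hy
  rw [map_add, map_natCast] at this
  have h3 : ∀ z : ZMod 2, z + z = 0 := by decide
  rw [h3, ZMod.natCast_eq_zero_iff] at this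
  obtain ⟨k, hk⟩ := hm
  omega

theorem even_or {m : ℕ} (hm : Odd m) (x : ZMod (2 * m)) :
    x ∈ EvenSub m ∨ x + (m : ZMod (2 * m)) ∈ EvenSub m := by
  have : NeZero (2 * m) := ⟨by obtain ⟨k, hk⟩ := hm; omega⟩
  have hx : ((x.val : ℕ) : ZMod (2 * m)) = x := ZMod.natCast_zmod_val x
  rcases Nat.even_or_odd x.val with he | ho
  · obtain ⟨k, hk⟩ := he
    left
    refine ⟨(k : ZMod (2 * m)), ?_⟩
    rw [← hx, hk]; push_cast; ring
  · right
    have : Even (x.val + m) := ho.add_odd hm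
    obtain ⟨k, hk⟩ := this
    refine ⟨(k : ZMod (2 * m)), ?_⟩
    calc x + (m : ZMod (2 * m)) = ((x.val + m : ℕ) : ZMod (2 * m)) := by push_cast; rw [hx]
      _ = _ := by rw [hk]; push_cast; ring

theorem card_even {m : ℕ} (hm : Odd m) : Nat.card (EvenSub m) = m := by
  have : NeZero (2 * m) := ⟨by obtain ⟨k, hk⟩ := hm; omega⟩
  have h1 : (EvenSub m).index = 2 := by
    rw [AddSubgroup.index_eq_two_iff]
    refine ⟨(m : ZMod (2 * m)), ?_⟩
    intro b
    by_cases hb : b ∈ EvenSub m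
    · right
      refine ⟨hb, ?_⟩
      intro hh
      apply m_not_even hm
      have := (EvenSub m).sub_mem hh hb
      simpa using this
    · left
      exact ⟨(even_or hm b).resolve_left hb, hb⟩
  have h2 := AddSubgroup.card_mul_index (EvenSub m)
  rw [h1, Nat.card_zmod] at h2
  omega

theorem image_evens {m : ℕ} {α : Equiv.Perm (ZMod (2 * m))}
    (h : ∀ x, x ∈ EvenSub m ↔ α x ∈ EvenSub m) : α '' Evens m = Evens m := by
  ext y
  constructor
  · rintro ⟨x, hx, rfl⟩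
    exact (h x).mp hx
  · intro hy
    refine ⟨α.symm y, ?_, α.apply_symm_apply y⟩
    have := (h (α.symm y)).mpr (by rw [α.apply_symm_apply]; exact hy)
    exact this

/-- the abstract hypotheses hold for nontrivially unstable circulants of Type II -/
theorem hyp_of {m : ℕ} (hm : Odd m) {S : Set (ZMod (2 * m))} (hS : ∀ x ∈ S, -x ∈ S)
    (h0 : (0 : ZMod (2 * m)) ∉ S) (hnu : NontriviallyUnstable (Cay m S hS h0))
    (hII : TypeII m (Cay m S hS h0)) : Hyp (m : ZMod (2 * m)) (EvenSub m) S where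
  ht := m_add_m m
  htE := m_not_even hm
  hE := even_or hm
  hodd := by
    obtain ⟨k, hk⟩ := hm
    refine ⟨k, ?_⟩
    rintro x ⟨y, rfl⟩
    rw [← hk, nsmul_eq_mul]
    have := m_add_m m
    calc (m : ZMod (2 * m)) * (y + y) = ((m : ZMod (2 * m)) + m) * y := by ring
      _ = 0 := by rw [this, zero_mul]
  hS := hS
  h0 := h0
  htw := by
    intro g hg
    have := hnu.2.2.2 0 (-g) (by
      ext x
      rw [SimpleGraph.mem_neighborSet, SimpleGraph.mem_neighborSet]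
      show x - 0 ∈ S ↔ x - -g ∈ S
      rw [sub_zero, sub_neg_eq_add]
      exact hg x)
    exact neg_eq_zero.mp this.symm
  hII := by
    intro α β h1 h2 h3
    by_contra hne
    exact hII.2 α β h1 hne ⟨image_evens h2, image_evens h3⟩

theorem ex_of {m : ℕ} {S : Set (ZMod (2 * m))} (hS : ∀ x ∈ S, -x ∈ S)
    (h0 : (0 : ZMod (2 * m)) ∉ S) (hnu : NontriviallyUnstable (Cay m S hS h0)) :
    ∃ α β : Equiv.Perm (ZMod (2 * m)), TF S α β ∧ α ≠ β :=
  exists_TF hnu.2.1 hnu.2.2.1 hnu.1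

theorem isoShift_of {m : ℕ} {S : Set (ZMod (2 * m))}
    (h : ∃ γ : Equiv.Perm (ZMod (2 * m)), ∀ u v,
      (γ v - γ u ∈ S ↔ v - u + (m : ZMod (2 * m)) ∈ S)) : IsoShift m S := by
  obtain ⟨γ, hγ⟩ := h
  refine ⟨γ⁻¹, ?_⟩
  intro u v
  have h1 := hγ (γ⁻¹ u) (γ⁻¹ v)
  rw [app_inv, app_inv] at h1
  rw [h1]
  constructor
  · intro h2
    refine ⟨_, h2, ?_⟩
    rw [add_assoc, m_add_m, add_zero]
  · rintro ⟨s, hs, hs2⟩
    rw [hs2, add_assoc, m_add_m, add_zero]
    exact hs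

end Pool.Agent.R14.TII
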