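import Pool.Agent.R14.TII.Prime

namespace Pool.Agent.R14.TII

open scoped Classical

set_option linter.unusedSectionVars false

variable {G : Type*} [AddCommGroup G] {t : G} {E : AddSubgroup G} {S : Set G}

variable [Fintype G]

theorem Hyp.HU (h : Hyp t E S) : h.H ≤ h.U := by
  intro x hx
  rcases hx with hx | hx
  · exact h.LU hx
  · have := h.U.add_mem (h.LU hx) h.tU
    rwa [h.addtt] at this

theorem Hyp.link_zero (h : Hyp t E S) {x : G} (hx : x ∉ h.U) : link t S x = 0 := by
  by_contra hne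
  apply hx
  apply AddSubgroup.subset_closure
  exact Or.inr ⟨fun hH => hx (h.HU hH), hne⟩

theorem Hyp.EU (h : Hyp t E S) (hE : E ≤ h.U) : ∀ x, x ∈ h.U := by
  intro x
  rcases h.hE x with hx | hx
  · exact hE hx
  · have := h.U.add_mem (hE hx) h.tU
    rwa [h.addtt] at this

theorem Hyp.main_of_EU (h : Hyp t E S) (hex : ∃ α β : Equiv.Perm G, TF S α β ∧ α ≠ β)
    (hE : E ≤ h.U) :
    t ∉ S ∧ ∃ γ : Equiv.Perm G, ∀ u v, (γ v - γ u ∈ S ↔ v - u + t ∈ S) :=
  h.main hex (fun x hx => absurd (h.EU hE x) hx)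

theorem Hyp.cardL_ne (h : Hyp t E S) (hts : t ∉ S) : Nat.card (LL t S) ≠ 1 := by
  intro h1
  rw [AddSubgroup.card_eq_one] at h1
  apply h.contraL
  intro y hy
  rw [h1, AddSubgroup.mem_bot] at hy
  rw [hy, zero_add]
  exact ⟨fun hh => absurd hh h.h0, fun hh => absurd hh hts⟩

/-- the statement when `|E|` is a product of two primes -/
theorem Hyp.main_pq (h : Hyp t E S) (hex : ∃ α β : Equiv.Perm G, TF S α β ∧ α ≠ β)
    {p q : ℕ} (hp : p.Prime) (hq : q.Prime) (hcard : Nat.card E = p * q) :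
    t ∉ S ∧ ∃ γ : Equiv.Perm G, ∀ u v, (γ v - γ u ∈ S ↔ v - u + t ∈ S) := by
  have hts := h.tnS hex
  have h1 := h.cardL_ne hts
  have hdvd : Nat.card (LL t S) ∣ Nat.card E := AddSubgroup.card_dvd_of_le h.LE
  -- a helper: if `|L|` is prime with prime cofactor
  have key : ∀ a b : ℕ, a.Prime → b.Prime → Nat.card (LL t S) = a → Nat.card E = a * b →
      t ∉ S ∧ ∃ γ : Equiv.Perm G, ∀ u v, (γ v - γ u ∈ S ↔ v - u + t ∈ S) := by
    intro a b ha hb hLa hEab
    have hLUE : LL t S ≤ h.U ⊓ E := le_inf (fun x hx => h.LU hx) h.LE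
    have d1 : Nat.card (LL t S) ∣ Nat.card (h.U ⊓ E : AddSubgroup G) :=
      AddSubgroup.card_dvd_of_le hLUE
    have d2 : Nat.card (h.U ⊓ E : AddSubgroup G) ∣ Nat.card E :=
      AddSubgroup.card_dvd_of_le inf_le_right
    obtain ⟨k, hk⟩ := d1
    rw [hLa] at hk
    rw [hk, hEab] at d2
    have d3 : k ∣ b := Nat.dvd_of_mul_dvd_mul_left ha.pos d2
    rcases (Nat.dvd_prime hb).mp d3 with hk1 | hkb
    · -- `U = H`
      have e1 : LL t S = h.U ⊓ E := by
        apply AddSubgroup.eq_of_le_of_card_ge hLUE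
        rw [hk, hLa, hk1, mul_one]
      have e2 : ∀ x ∈ h.U, x ∈ h.H := by
        intro x hx
        rcases h.hE x with hxE | hxE
        · left; rw [e1]; exact ⟨hx, hxE⟩
        · right; rw [e1]; exact ⟨h.U.add_mem hx h.tU, hxE⟩
      apply h.main hex
      intro x hx y hy
      have hxL : ∀ z ∈ LL t S, (x ∈ S ↔ x + z ∈ S) := by
        apply h.primeL hts ha hLa
        intro z hz
        apply h.link_zero
        intro hh
        apply hx
        have := h.U.sub_mem hh (h.LU hz)
        simpa using this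
      rcases e2 y hy with hyL | hyL
      · exact hxL y hyL
      · rw [hxL _ hyL, ← add_assoc]
        have hxy : x + y ∉ h.H := by
          intro hh
          apply hx
          have := h.U.sub_mem (h.HU hh) hy
          simpa using this
        exact (h.outH hxy).symm
    · apply h.main_of_EU hex
      have e1 : h.U ⊓ E = E := by
        apply AddSubgroup.eq_of_le_of_card_ge inf_le_right
        rw [hk, hEab, hkb]
      exact fun x hx => (inf_le_left : h.U ⊓ E ≤ h.U) (e1.ge hx)
  rw [hcard] at hdvd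
  by_cases hpd : p ∣ Nat.card (LL t S)
  · obtain ⟨k, hk⟩ := hpd
    rw [hk] at hdvd
    have d3 : k ∣ q := Nat.dvd_of_mul_dvd_mul_left hp.pos hdvd
    rcases (Nat.dvd_prime hq).mp d3 with hk1 | hkq
    · exact key p q hp hq (by rw [hk, hk1, mul_one]) hcard
    · apply h.main_of_EU hex
      have e1 : LL t S = E := by
        apply AddSubgroup.eq_of_le_of_card_ge h.LE
        rw [hk, hcard, hkq]
      exact fun x hx => h.LU (e1.ge hx)
  · have hcop : Nat.Coprime (Nat.card (LL t S)) p := (Nat.Coprime.symm ((Nat.Prime.coprime_iff_not_dvd hp).mpr hpd))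
    have d3 : Nat.card (LL t S) ∣ q := hcop.dvd_of_dvd_mul_left hdvd
    rcases (Nat.dvd_prime hq).mp d3 with hk1 | hkq
    · exact absurd hk1 h1
    · exact key q p hq hp hkq (by rw [hcard, mul_comm])

end Pool.Agent.R14.TII
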