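import Pool.Agent.R14.TII.Circ

namespace Pool.Agent.R14.TII

open scoped Classical

/-- `L`: the subgroup generated by the elements `2 s` with `s ∈ S` and `s + m ∉ S`. -/
def CoreSub (m : ℕ) (S : Set (ZMod (2 * m))) : AddSubgroup (ZMod (2 * m)) :=
  AddSubgroup.closure {x | ∃ s ∈ S, s + (m : ZMod (2 * m)) ∉ S ∧ x = s + s}

/-- The linking number of `x`: the number of `l ∈ L` with `l ∈ S` and `x - l ∈ S`, minus the
number of `l ∈ L` with `l + m ∈ S` and `x - l ∈ S`. -/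
noncomputable def linkNum (m : ℕ) (S : Set (ZMod (2 * m))) (x : ZMod (2 * m)) : ℤ :=
  (Nat.card {l : ZMod (2 * m) // l ∈ CoreSub m S ∧ l ∈ S ∧ x - l ∈ S} : ℤ)
    - (Nat.card {l : ZMod (2 * m) // l ∈ CoreSub m S ∧ l + (m : ZMod (2 * m)) ∈ S ∧ x - l ∈ S} : ℤ)

/-- `U`: the subgroup generated by `L`, by `m`, and by the elements `x` outside `L ∪ (L + m)`
with nonzero linking number. -/
noncomputable def LinkSub (m : ℕ) (S : Set (ZMod (2 * m))) : AddSubgroup (ZMod (2 * m)) :=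
  AddSubgroup.closure ({x | x ∈ CoreSub m S} ∪ {(m : ZMod (2 * m))} ∪
    {x | x ∉ CoreSub m S ∧ x + (m : ZMod (2 * m)) ∉ CoreSub m S ∧ linkNum m S x ≠ 0})

theorem linkNum_eq {m : ℕ} [NeZero (2 * m)] (S : Set (ZMod (2 * m))) (x : ZMod (2 * m)) :
    linkNum m S x = link (m : ZMod (2 * m)) S x := by
  have hcard : ∀ p : ZMod (2 * m) → Prop,
      (Nat.card {l : ZMod (2 * m) // p l} : ℤ) = ∑ l : ZMod (2 * m), if p l then 1 else 0 := by
    intro p
    rw [Nat.card_eq_fintype_card, Fintype.card_subtype, Finset.sum_ite, Finset.sum_const_zero,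
      add_zero, Finset.sum_const, nsmul_eq_mul, mul_one]
  unfold linkNum link
  rw [hcard, hcard, ← Finset.sum_sub_distrib]
  apply Finset.sum_congr rfl
  intro l _
  have e : (l ∈ CoreSub m S) ↔ (l ∈ LL (m : ZMod (2 * m)) S) := Iff.rfl
  unfold FF ind
  by_cases h1 : l ∈ LL (m : ZMod (2 * m)) S <;> by_cases h2 : l ∈ S <;>
    by_cases h3 : l + (m : ZMod (2 * m)) ∈ S <;> by_cases h4 : x - l ∈ S <;>
    simp [e, h1, h2, h3, h4]

theorem LinkSub_eq {m : ℕ} [NeZero (2 * m)] {E : AddSubgroup (ZMod (2 * m))}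
    {S : Set (ZMod (2 * m))} (h : Hyp (m : ZMod (2 * m)) E S) : LinkSub m S = h.U := by
  unfold LinkSub Hyp.U
  congr 1
  ext x
  constructor
  · rintro ((hx | hx) | ⟨h1, h2, h3⟩)
    · exact Or.inl (Or.inl hx)
    · exact Or.inl (Or.inr hx)
    · refine Or.inr ⟨?_, ?_⟩
      · rintro (hh | hh)
        · exact h1 hh
        · exact h2 hh
      · rw [← linkNum_eq]; exact h3
  · rintro ((hx | hx) | ⟨h1, h2⟩)
    · exact Or.inl (Or.inl hx)
    · exact Or.inl (Or.inr hx)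
    · refine Or.inr ⟨fun hh => h1 (Or.inl hh), fun hh => h1 (Or.inr hh), ?_⟩
      rw [linkNum_eq]; exact h2

end Pool.Agent.R14.TII
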