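import Mathlib

/-!
Circulant graphs of order `2 m`: stability, TF-morphisms and Type II.
-/

namespace Pool.Agent.R14.TII

/-- The direct (tensor) product of two graphs: `(x, i) ~ (y, j)` iff `x ~ y` and `i ~ j`. -/
def Direct {V W : Type*} (Γ : SimpleGraph V) (Δ : SimpleGraph W) : SimpleGraph (V × W) where
  Adj p q := Γ.Adj p.1 q.1 ∧ Δ.Adj p.2 q.2
  symm := ⟨fun _ _ h => ⟨h.1.symm, h.2.symm⟩⟩
  loopless := ⟨fun p h => Γ.loopless.irrefl p.1 h.1⟩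

/-- The complete graph `K₂` with vertex set `ℤ/2`. -/
def KTwo : SimpleGraph (ZMod 2) := ⊤

/-- `Γ` is stable: `Aut (Γ × K₂) ≅ Aut Γ × ℤ₂`. -/
def Stable {V : Type*} (Γ : SimpleGraph V) : Prop :=
  Nonempty ((Direct Γ KTwo ≃g Direct Γ KTwo) ≃* ((Γ ≃g Γ) × Multiplicative (ZMod 2)))

/-- `Γ` is nontrivially unstable: unstable, connected, non-bipartite and twin-free. -/
def NontriviallyUnstable {V : Type*} (Γ : SimpleGraph V) : Prop :=
  ¬ Stable Γ ∧ Γ.Connected ∧ ¬ Γ.Colorable 2 ∧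
    ∀ x y : V, Γ.neighborSet x = Γ.neighborSet y → x = y

/-- `(α, β)` is a TF-morphism of `Γ`: `u ~ v` iff `α u ~ β v`. -/
def IsTF {V : Type*} (Γ : SimpleGraph V) (α β : Equiv.Perm V) : Prop :=
  ∀ u v : V, Γ.Adj u v ↔ Γ.Adj (α u) (β v)

/-- The set `2ℤ_{2m}` of even residues. -/
def Evens (m : ℕ) : Set (ZMod (2 * m)) := {x | ∃ y, x = y + y}

/-- An unstable graph `Γ` on `ℤ_{2m}` is of Type II: for every nontrivial TF-morphism
`(α, β)` at least one of `α`, `β` does not map `2ℤ_{2m}` onto itself. -/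
def TypeII (m : ℕ) (Γ : SimpleGraph (ZMod (2 * m))) : Prop :=
  ¬ Stable Γ ∧ ∀ α β : Equiv.Perm (ZMod (2 * m)), IsTF Γ α β → α ≠ β →
    ¬ (α '' Evens m = Evens m ∧ β '' Evens m = Evens m)

/-- The circulant graph `Cay(ℤ_{2m}, S)`, for `S = -S` and `0 ∉ S`. -/
def Cay (m : ℕ) (S : Set (ZMod (2 * m))) (hS : ∀ x ∈ S, -x ∈ S) (h0 : (0 : ZMod (2 * m)) ∉ S) :
    SimpleGraph (ZMod (2 * m)) where
  Adj x y := y - x ∈ S
  symm := ⟨fun x y h => by
    have := hS _ h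
    rwa [neg_sub] at this⟩
  loopless := ⟨fun x h => h0 (by rwa [sub_self] at h)⟩

/-- `Cay(ℤ_{2m}, S) ≅ Cay(ℤ_{2m}, S + m)`, where the second graph is allowed to have loops. -/
def IsoShift (m : ℕ) (S : Set (ZMod (2 * m))) : Prop :=
  ∃ γ : Equiv.Perm (ZMod (2 * m)), ∀ u v : ZMod (2 * m),
    v - u ∈ S ↔ γ v - γ u ∈ {x | ∃ s ∈ S, x = s + (m : ZMod (2 * m))}

end Pool.Agent.R14.TII
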