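import Pool.Agent.R14.TII.Cor

namespace Pool.Agent.R14.TII

open scoped Classical

set_option linter.unusedSectionVars false

variable {G : Type*} [AddCommGroup G] {t : G} {E : AddSubgroup G} {S : Set G}

variable [Fintype G]

/-- a set of differences invariant under all TF-morphisms -/
def Inv (S : Set G) (D : Set G) : Prop :=
  ∀ α β : Equiv.Perm G, TF S α β → ∀ u v, (v - u ∈ D ↔ α v - α u ∈ D)

/-- a function on differences invariant under all TF-morphisms -/
def InvF (S : Set G) {R : Type*} (f : G → R) : Prop :=
  ∀ α β : Equiv.Perm G, TF S α β → ∀ u v, f (α v - α u) = f (v - u)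

theorem Inv.closure {D : Set G} (hD : Inv S D) :
    Inv S (AddSubgroup.closure D : Set G) := by
  have key : ∀ α β : Equiv.Perm G, TF S α β → ∀ d ∈ AddSubgroup.closure D, ∀ a,
      α (a + d) - α a ∈ AddSubgroup.closure D := by
    intro α β h1 d hd
    induction hd using AddSubgroup.closure_induction with
    | mem x hx =>
      intro a
      apply AddSubgroup.subset_closure
      rw [← hD α β h1]
      have e : a + x - a = x := by abel
      rw [e]; exact hx
    | zero => intro a; rw [add_zero, sub_self]; exact AddSubgroup.zero_mem _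
    | add x y _ _ hx hy =>
      intro a
      have e : α (a + (x + y)) - α a = (α (a + x + y) - α (a + x)) + (α (a + x) - α a) := by
        rw [add_assoc]; abel
      rw [e]; exact AddSubgroup.add_mem _ (hy _) (hx _)
    | neg x _ hx =>
      intro a
      have e : α (a + -x) - α a = -(α (a + -x + x) - α (a + -x)) := by
        rw [neg_add_cancel_right]; abel
      rw [e]; exact AddSubgroup.neg_mem _ (hx _)
  intro α β h1 u v
  constructor
  · intro hx
    have := key α β h1 _ hx u
    rwa [add_sub_cancel] at this
  · intro hx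
    have := key _ _ h1.inv _ hx (α u)
    rwa [add_sub_cancel, inv_app, inv_app] at this

/-- convolution -/
noncomputable def conv {R : Type*} [CommRing R] (f g : G → R) (z : G) : R :=
  ∑ x, f x * g (z - x)

theorem InvF.conv {R : Type*} [CommRing R] {f g : G → R} (hf : InvF S f) (hg : InvF S g) :
    InvF S (conv f g) := by
  intro α β h1 u v
  unfold Pool.Agent.R14.TII.conv
  rw [← Equiv.sum_comp (α.trans (Equiv.subRight (α u)))]
  rw [← Equiv.sum_comp (Equiv.subRight u) (fun x => f x * g (v - u - x))]
  apply Finset.sum_congr rfl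
  intro w _
  simp only [Equiv.trans_apply, Equiv.subRight_apply]
  have e1 : α v - α u - (α w - α u) = α v - α w := by abel
  have e2 : v - u - (w - u) = v - w := by abel
  rw [e1, e2, hf α β h1, hg α β h1]

/-- the element of the group algebra -/
noncomputable def toAlg {R : Type*} [CommRing R] (f : G → R) : AddMonoidAlgebra R G :=
  ∑ x, AddMonoidAlgebra.single x (f x)

theorem toAlg_coeff {R : Type*} [CommRing R] (f : G → R) (z : G) :
    (toAlg f).coeff z = f z := by
  unfold toAlg
  rw [AddMonoidAlgebra.coeff_sum, Finsupp.finsetSum_apply]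
  simp [AddMonoidAlgebra.coeff_single, Finsupp.single_apply]

theorem toAlg_mul {R : Type*} [CommRing R] (f g : G → R) :
    toAlg f * toAlg g = toAlg (conv f g) := by
  unfold toAlg Pool.Agent.R14.TII.conv
  rw [Finset.sum_mul]
  have h1 : ∀ x : G, AddMonoidAlgebra.single x (f x) * (∑ y, AddMonoidAlgebra.single y (g y))
      = ∑ z : G, AddMonoidAlgebra.single z (f x * g (z - x)) := by
    intro x
    rw [Finset.mul_sum, ← Equiv.sum_comp (Equiv.subRight x)]
    apply Finset.sum_congr rfl
    intro z _
    rw [AddMonoidAlgebra.single_mul_single, Equiv.subRight_apply, add_sub_cancel]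
  rw [Finset.sum_congr rfl (fun x _ => h1 x), Finset.sum_comm]
  apply Finset.sum_congr rfl
  intro z _
  ext w
  rw [AddMonoidAlgebra.coeff_sum, Finsupp.finsetSum_apply]
  simp only [AddMonoidAlgebra.coeff_single, Finsupp.single_apply]
  by_cases hzw : z = w
  · simp [hzw]
  · simp [hzw]

theorem InvF.pow {R : Type*} [CommRing R] {f : G → R} (hf : InvF S f) (k : ℕ) :
    ∃ g : G → R, InvF S g ∧ toAlg f ^ k = toAlg g := by
  induction k with
  | zero =>
    refine ⟨fun z => if z = 0 then 1 else 0, ?_, ?_⟩
    · intro α β h1 u v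
      have : α v - α u = 0 ↔ v - u = 0 := by
        rw [sub_eq_zero, sub_eq_zero]
        exact α.injective.eq_iff
      simp only [this]
    · rw [pow_zero]
      unfold toAlg
      rw [AddMonoidAlgebra.one_def]
      rw [Finset.sum_eq_single (0 : G)]
      · simp
      · intro b _ hb
        simp [hb]
      · intro hh; exact absurd (Finset.mem_univ _) hh
  | succ k ih =>
    obtain ⟨g, hg, hk⟩ := ih
    exact ⟨Pool.Agent.R14.TII.conv g f, hg.conv hf, by rw [pow_succ, hk, toAlg_mul]⟩

/-- the Frobenius transform of `f` -/
noncomputable def Fr {R : Type*} [CommRing R] (l : ℕ) (f : G → R) (z : G) : R :=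
  ∑ x, if l • x = z then f x else 0

theorem InvF.frob {l : ℕ} [hl : Fact l.Prime] {f : G → ZMod l} (hf : InvF S f) :
    InvF S (Fr l f) := by
  obtain ⟨g, hg, hk⟩ := hf.pow l
  have : CharP (AddMonoidAlgebra (ZMod l) G) l :=
    charP_of_injective_algebraMap (algebraMap (ZMod l) (AddMonoidAlgebra (ZMod l) G)).injective l
  have hp : toAlg f ^ l = toAlg (Fr l f) := by
    unfold toAlg
    rw [sum_pow_char]
    simp only [AddMonoidAlgebra.single_pow, ZMod.pow_card]
    unfold Fr
    ext z
    rw [AddMonoidAlgebra.coeff_sum, AddMonoidAlgebra.coeff_sum, Finsupp.finsetSum_apply,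
      Finsupp.finsetSum_apply]
    simp only [AddMonoidAlgebra.coeff_single, Finsupp.single_apply]
    rw [Finset.sum_ite_eq' Finset.univ z]
    simp
  have h2 : g = Fr l f := by
    funext z
    rw [← toAlg_coeff g z, ← toAlg_coeff (Fr l f) z, ← hk, hp]
  rw [← h2]; exact hg

end Pool.Agent.R14.TII
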