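import Pool.Agent.R14.TII.Struct

namespace Pool.Agent.R14.TII

open scoped Classical

set_option linter.unusedSectionVars false

variable {G : Type*} [AddCommGroup G] {t : G} {E : AddSubgroup G} {S : Set G}

variable [Fintype G]

/-- (∗) -/
theorem Hyp.star (h : Hyp t E S) {α β σ₀ σ₁ : Equiv.Perm G} (h1 : TF S α β)
    (h2 : TF S σ₀ σ₁) {a b : G} (s₀ : Swap (LL t S) σ₀ a b) (s₁ : Swap (LL t S) σ₁ a b) :
    (β a - α a ∈ LL t S ∧ β b - α b ∈ LL t S) ∨ (β a - α b ∈ LL t S ∧ β b - α a ∈ LL t S) :=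
  h.lemS ((h1.mul h2).mul h1.inv) (h.swapConj h1 s₀) (h.swapConj (h.TFsymm h1) s₁)

theorem Hyp.starFlip (h : Hyp t E S) {α β : Equiv.Perm G} (h1 : TF S α β) (a : G) :
    (β a - α a ∈ LL t S ∧ β (a + t) - α (a + t) ∈ LL t S) ∨
      (β a - α (a + t) ∈ LL t S ∧ β (a + t) - α a ∈ LL t S) :=
  h.star h1 (h.TFflip (h.hinvBase a)) (h.swapFlip a) (h.swapFlip a)

/-- Case (b) is impossible. -/
theorem Hyp.caseA (h : Hyp t E S) {α₀ β₀ : Equiv.Perm G} (h0 : TF S α₀ β₀) (hne : α₀ ≠ β₀)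
    {α β : Equiv.Perm G} (h1 : TF S α β) (a : G) : α (a + t) - α a ∈ h.H := by
  by_contra hcon
  set f := h.flip _ (h.hinvBase a) with hf
  have hTF : TF S (α * f * α⁻¹) (β * f * β⁻¹) := (h1.mul (h.TFflip (h.hinvBase a))).mul h1.inv
  have s₀ : Swap (LL t S) (α * f * α⁻¹) (α a) (α (a + t)) := h.swapConj h1 (h.swapFlip a)
  have s₁' : Swap (LL t S) (β * f * β⁻¹) (β a) (β (a + t)) :=
    h.swapConj (h.TFsymm h1) (h.swapFlip a)
  have s₁ : Swap (LL t S) (β * f * β⁻¹) (α a) (α (a + t)) := by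
    rcases h.starFlip h1 a with ⟨k1, k2⟩ | ⟨k1, k2⟩
    · exact s₁'.congr (mem_comm.mp k1) (mem_comm.mp k2)
    · exact (s₁'.congr (mem_comm.mp k1) (mem_comm.mp k2)).symm
  apply hne
  apply h.same h0
  intro x
  -- conjugate by the translation moving α a to x
  set c := x - α a with hc
  have hT := TF.tr S c
  have s₀x := h.swapConj hT s₀
  have s₁x := h.swapConj hT s₁
  have e1 : (Equiv.addRight c) (α a) = x := by
    simp [hc]
  rw [e1] at s₀x s₁x
  have st := h.star h0 ((hT.mul hTF).mul hT.inv) s₀x s₁x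
  have sf := h.starFlip h0 x
  rcases st with ⟨k1, _⟩ | ⟨k1, _⟩
  · exact mem_comm.mp k1
  · rcases sf with ⟨k3, _⟩ | ⟨k3, _⟩
    · exact mem_comm.mp k3
    · exfalso
      apply hcon
      have k4 := mem_trans (mem_comm.mp k1) k3
      rw [← h.coset h0] at k4
      -- (α (a+t) + c) - (x + t) ∈ L
      have e2 : (Equiv.addRight c) (α (a + t)) - (x + t) = (α (a + t) - α a) + t := by
        rw [Equiv.coe_addRight, hc, ← sub_sub (α (a + t) + (x - α a)), h.subt]
        abel
      rw [e2] at k4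
      exact Or.inr k4

/-- The data needed from now on. -/
structure Hyp.Good (h : Hyp t E S) : Prop where
  exi : ∃ α₀ β₀ : Equiv.Perm G, TF S α₀ β₀ ∧ α₀ ≠ β₀
  cA : ∀ α β : Equiv.Perm G, TF S α β → ∀ a, α (a + t) - α a ∈ h.H

theorem Hyp.good (h : Hyp t E S) {α₀ β₀ : Equiv.Perm G} (h0 : TF S α₀ β₀) (hne : α₀ ≠ β₀) :
    h.Good := ⟨⟨α₀, β₀, h0, hne⟩, fun _ _ h1 a => h.caseA h0 hne h1 a⟩

variable {h : Hyp t E S}

theorem Hyp.Good.addt (g : h.Good) {α β : Equiv.Perm G} (h1 : TF S α β) (a : G) :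
    α (a + t) - α a + t ∈ LL t S := by
  rcases g.cA α β h1 a with k | k
  · exfalso
    rw [← h.coset h1] at k
    apply h.tL
    simpa using k
  · exact k

theorem Hyp.Good.cosH1 (g : h.Good) {α β : Equiv.Perm G} (h1 : TF S α β) {x y : G}
    (hxy : x - y ∈ h.H) : α x - α y ∈ h.H := by
  rcases hxy with k | k
  · exact h.LH ((h.coset h1 x y).mp k)
  · have k1 : x + t - y ∈ LL t S := by
      have e : x + t - y = x - y + t := by abel
      rw [e]; exact k
    have k2 := (h.coset h1 _ _).mp k1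
    have k3 := g.cA α β h1 x
    have e : α x - α y = -(α (x + t) - α x) + (α (x + t) - α y) := by abel
    rw [e]
    exact h.H.add_mem (h.H.neg_mem k3) (h.LH k2)

theorem Hyp.Good.cosH (g : h.Good) {α β : Equiv.Perm G} (h1 : TF S α β) (x y : G) :
    x - y ∈ h.H ↔ α x - α y ∈ h.H := by
  constructor
  · exact g.cosH1 h1
  · intro k
    have := g.cosH1 h1.inv k
    simpa [inv_app] using this

theorem Hyp.Good.abH (g : h.Good) {α β : Equiv.Perm G} (h1 : TF S α β) (a : G) :
    β a - α a ∈ h.H := by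
  rcases h.starFlip h1 a with ⟨k1, _⟩ | ⟨k1, _⟩
  · exact h.LH k1
  · have k3 := g.cA α β h1 a
    have e : β a - α a = (β a - α (a + t)) + (α (a + t) - α a) := by abel
    rw [e]
    exact h.H.add_mem (h.LH k1) k3

theorem Hyp.Good.kH (g : h.Good) {α β : Equiv.Perm G} (h1 : TF S α β) (a : G) :
    β⁻¹ (α a) - a ∈ h.H := by
  rw [g.cosH (h.TFsymm h1), app_inv]
  exact mem_comm.mp (g.abH h1 a)

/-- `κ = β⁻¹ α` commutes with `t`. -/
theorem Hyp.Good.kt (g : h.Good) {α β : Equiv.Perm G} (h1 : TF S α β) (a : G) :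
    β⁻¹ (α (a + t)) = β⁻¹ (α a) + t := by
  set f := h.flip _ (h.hinvBase a) with hf
  set f' := h.flip _ (h.hinvBase (α a)) with hf'
  have hTF : TF S (α * f * α⁻¹ * f') (β * f * β⁻¹ * f') :=
    ((h1.mul (h.TFflip (h.hinvBase a))).mul h1.inv).mul (h.TFflip (h.hinvBase (α a)))
  have aux : ∀ γ δ : Equiv.Perm G, TF S γ δ → γ a - α a ∈ h.H → ∀ x,
      (γ * f * γ⁻¹ * f') x - x ∈ LL t S := by
    intro γ δ hg hga x
    simp only [Equiv.Perm.mul_apply]
    by_cases hx : x - α a ∈ h.H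
    · rw [hf', h.flip_pos (h.hinvBase (α a)) hx]
      have hy : γ⁻¹ (x + t) - a ∈ h.H := by
        rw [g.cosH hg, app_inv]
        have e : x + t - γ a = (x - α a) + -(γ a - α a) + t := by abel
        rw [e]
        exact h.H.add_mem (h.H.add_mem hx (h.H.neg_mem hga)) h.tH
      rw [hf, h.flip_pos (h.hinvBase a) hy]
      have := g.addt hg (γ⁻¹ (x + t))
      rw [app_inv] at this
      have e : γ (γ⁻¹ (x + t) + t) - x = γ (γ⁻¹ (x + t) + t) - (x + t) + t := by abel
      rw [e]; exact this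
    · rw [hf', h.flip_neg (h.hinvBase (α a)) hx]
      have hy : ¬ (γ⁻¹ x - a ∈ h.H) := by
        rw [g.cosH hg, app_inv]
        intro hh
        apply hx
        have e : x - α a = (x - γ a) + (γ a - α a) := by abel
        rw [e]; exact h.H.add_mem hh hga
      rw [hf, h.flip_neg (h.hinvBase a) hy, app_inv]
      simp
  have e := h.II' hTF (aux α β h1 (by simp [h.H.zero_mem])) (aux β α (h.TFsymm h1) (g.abH h1 a))
  have e2 := congrArg (fun σ : Equiv.Perm G => σ (α a + t)) e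
  simp only [Equiv.Perm.mul_apply] at e2
  have q1 : f' (α a + t) = α a := by
    rw [hf', h.flip_pos (h.hinvBase (α a)) (by simpa using h.tH), h.addtt]
  rw [q1, inv_app] at e2
  have q2 : f a = a + t := by
    rw [hf, h.flip_pos (h.hinvBase a) (by simp [h.H.zero_mem])]
  have q3 : f (β⁻¹ (α a)) = β⁻¹ (α a) + t := by
    rw [hf, h.flip_pos (h.hinvBase a) (g.kH h1 a)]
  rw [q2, q3] at e2
  rw [e2, inv_app]

theorem Hyp.Good.kHadd (g : h.Good) {α β : Equiv.Perm G} (h1 : TF S α β) (a : G) {x : G}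
    (hx : x ∈ h.H) : β⁻¹ (α (a + x)) = β⁻¹ (α a) + x := by
  rcases hx with k | k
  · exact h.kcomm h1 k a
  · have e : a + x = a + (x + t) + t := by
      rw [← add_assoc, h.addtt]
    rw [e, g.kt h1, h.kcomm h1 k, add_assoc, add_assoc x t t, h.ht, add_zero]

/-- `κ a ∈ {a, a + t}`. -/
theorem Hyp.Good.kval (g : h.Good) {α β : Equiv.Perm G} (h1 : TF S α β) (a : G) :
    β⁻¹ (α a) = a ∨ β⁻¹ (α a) = a + t := by
  set κ : Equiv.Perm G := β⁻¹ * α with hκ
  set κ' : Equiv.Perm G := α⁻¹ * β with hκ'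
  have hk : TF S κ κ' := h.TFk h1
  have hkk : ∀ x, κ (κ' x) = x := by
    intro x; simp only [hκ, hκ', Equiv.Perm.mul_apply, app_inv, inv_app]
  have hp : h.HInv (fun x => ¬ (κ x - x ∈ LL t S)) := by
    intro x y hxy
    have e : κ x - x = κ y - y := by
      have := g.kHadd h1 y hxy
      rw [add_sub_cancel] at this
      show β⁻¹ (α x) - x = β⁻¹ (α y) - y
      rw [this]; abel
    simp only [e]
  have hkap : ∀ x, κ (x + t) = κ x + t := fun x => g.kt h1 x
  have hkap' : ∀ x, κ' (x + t) = κ' x + t := fun x => g.kt (h.TFsymm h1) x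
  have hiff : ∀ x, κ' x - x ∈ LL t S ↔ κ x - x ∈ LL t S := by
    intro x
    rw [h.coset hk, hkk]
    exact mem_comm
  have hkH : ∀ x, κ x - x ∈ h.H := fun x => g.kH h1 x
  have hkH' : ∀ x, κ' x - x ∈ h.H := fun x => g.kH (h.TFsymm h1) x
  have hTF := hk.mul (h.TFflip hp)
  have e := h.II' hTF (by
    intro x
    simp only [Equiv.Perm.mul_apply]
    by_cases hx : ¬ (κ x - x ∈ LL t S)
    · rw [h.flip_pos hp hx, hkap]
      have := (hkH x).resolve_left hx
      have e : κ x + t - x = κ x - x + t := by abel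
      rw [e]; exact this
    · rw [h.flip_neg hp hx]
      exact not_not.mp hx) (by
    intro x
    simp only [Equiv.Perm.mul_apply]
    by_cases hx : ¬ (κ x - x ∈ LL t S)
    · rw [h.flip_pos hp hx, hkap']
      have := (hkH' x).resolve_left (fun hh => hx ((hiff x).mp hh))
      have e : κ' x + t - x = κ' x - x + t := by abel
      rw [e]; exact this
    · rw [h.flip_neg hp hx]
      exact (hiff x).mpr (not_not.mp hx))
  have e' : κ = κ' := mul_right_cancel e
  have e3 : κ (κ a) = a := by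
    have := hkk a
    rw [← e'] at this
    exact this
  set z := κ a - a with hz
  have e4 : κ a = a + z := by rw [hz]; abel
  have e5 : κ (a + z) = a + z + z := by
    have := g.kHadd h1 a (x := z) (hkH a)
    have e4' : β⁻¹ (α a) = a + z := e4
    rw [e4'] at this
    exact this
  rw [e4, e5] at e3
  have hzz : z + z = 0 := by
    rw [add_assoc] at e3
    exact add_eq_left.mp e3
  show κ a = a ∨ κ a = a + t
  rcases h.half hzz with k | k
  · left; rw [e4, k, add_zero]
  · right; rw [e4, k]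

end Pool.Agent.R14.TII
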