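import Pool.Agent.R14.TII.Kappa

namespace Pool.Agent.R14.TII

open scoped Classical

set_option linter.unusedSectionVars false

variable {G : Type*} [AddCommGroup G] {t : G} {E : AddSubgroup G} {S : Set G}

variable [Fintype G]

/-- indicator -/
noncomputable def ind (p : Prop) : ℤ := if p then 1 else 0

/-- `F(l) = [l ∈ S] - [l + t ∈ S]` -/
noncomputable def FF (t : G) (S : Set G) (l : G) : ℤ := ind (l ∈ S) - ind (l + t ∈ S)

/-- the linking number `∑_{l ∈ L} F(l) [x - l ∈ S]` -/
noncomputable def link (t : G) (S : Set G) (x : G) : ℤ :=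
  ∑ l : G, if l ∈ LL t S then FF t S l * ind (x - l ∈ S) else 0

/-- the sign of a TF-morphism at `a` -/
noncomputable def eps (t : G) (α β : Equiv.Perm G) (a : G) : ℤ :=
  if β⁻¹ (α a) = a + t then -1 else 1

variable {h : Hyp t E S}

theorem TF.adj {α β : Equiv.Perm G} (h1 : TF S α β) (u w : G) :
    α w - α u ∈ S ↔ β⁻¹ (α w) - u ∈ S := by
  have := h1 u (β⁻¹ (α w))
  rw [app_inv] at this
  exact this.symm

theorem Hyp.Good.exD (g : h.Good) {α β : Equiv.Perm G} (h1 : TF S α β) (hne : α ≠ β) :
    ∃ a, β⁻¹ (α a) = a + t := by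
  by_contra hcon
  push Not at hcon
  apply hne
  ext a
  have := (g.kval h1 a).resolve_right (hcon a)
  calc α a = β (β⁻¹ (α a)) := (app_inv β _).symm
    _ = β a := by rw [this]

/-- every component of a TF-morphism commutes with `t` -/
theorem Hyp.Good.commt (g : h.Good) {α β : Equiv.Perm G} (h1 : TF S α β) (x : G) :
    α (x + t) = α x + t := by
  obtain ⟨α₀, β₀, h0, hne⟩ := g.exi
  obtain ⟨a₀, ha₀⟩ := g.exD h0 hne
  set c := a₀ - α x with hc
  have hT := TF.tr S c
  have h0' := (hT.inv.mul h0).mul hT
  have h2 := h0'.mul h1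
  have tinv : ∀ y : G, (Equiv.addRight c)⁻¹ y = y - c := by
    intro y
    rw [Equiv.Perm.inv_eq_iff_eq]
    simp
  -- value of κ'' at x
  have e1 : ((((Equiv.addRight c)⁻¹ * β₀ * Equiv.addRight c) * β)⁻¹)
      ((((Equiv.addRight c)⁻¹ * α₀ * Equiv.addRight c) * α) x) = β⁻¹ (α x + t) := by
    rw [Equiv.Perm.inv_eq_iff_eq]
    simp only [Equiv.Perm.mul_apply, app_inv, tinv, Equiv.coe_addRight]
    have q : α x + c = a₀ := by rw [hc]; abel
    have q2 : α x + t + c = a₀ + t := by rw [hc]; abel
    rw [q, q2, ← ha₀, app_inv]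
  have v2 := g.kval h2 x
  rw [e1] at v2
  have v1 := g.kval h1 x
  have v3 := g.kt h1 x
  -- possible cases
  rcases v2 with v2 | v2
  · -- α x + t = β x
    have e3 : α x + t = β x := by
      have := congrArg β v2
      rwa [app_inv] at this
    rcases v1 with v1 | v1
    · exfalso
      have e4 : α x = β x := by
        have := congrArg β v1
        rwa [app_inv] at this
      rw [e4] at e3
      exact h.tne (add_eq_left.mp e3)
    · rw [v1, h.addtt] at v3
      have : α (x + t) = β x := by
        have := congrArg β v3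
        rwa [app_inv] at this
      rw [this, e3]
  · have e3 : α x + t = β (x + t) := by
      have := congrArg β v2
      rwa [app_inv] at this
    rcases v1 with v1 | v1
    · rw [v1] at v3
      have : α (x + t) = β (x + t) := by
        have := congrArg β v3
        rwa [app_inv] at this
      rw [this, e3]
    · exfalso
      have e4 : α x = β (x + t) := by
        have := congrArg β v1
        rwa [app_inv] at this
      rw [← e4] at e3
      exact h.tne (add_eq_left.mp e3)

theorem Hyp.Good.epsH (g : h.Good) {α β : Equiv.Perm G} (h1 : TF S α β) (a : G) {x : G}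
    (hx : x ∈ h.H) : eps t α β (a + x) = eps t α β a := by
  unfold eps
  rw [g.kHadd h1 a hx]
  have : (β⁻¹ (α a) + x = a + x + t) ↔ (β⁻¹ (α a) = a + t) := by
    rw [add_right_comm]
    exact add_left_inj x
  simp only [this]

theorem Hyp.Good.Ftrans (g : h.Good) {α β : Equiv.Perm G} (h1 : TF S α β) (u w : G) :
    FF t S (α w - α u) = eps t α β w * FF t S (w - u) := by
  have e0 : α w - α u + t = α (w + t) - α u := by rw [g.commt h1]; abel
  unfold FF eps
  rw [e0, h1.adj u w, h1.adj u (w + t), g.kt h1]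
  by_cases hD : β⁻¹ (α w) = w + t
  · rw [if_pos hD, hD, h.addtt]
    have e1 : w + t - u = w - u + t := by abel
    rw [e1]; ring
  · rw [if_neg hD, (g.kval h1 w).resolve_right hD]
    have e1 : w + t - u = w - u + t := by abel
    rw [e1]; ring

theorem Hyp.Good.outtrans (g : h.Good) {α β : Equiv.Perm G} (h1 : TF S α β) {u v : G}
    (huv : v - u ∉ h.H) : α v - α u ∈ S ↔ v - u ∈ S := by
  rw [h1.adj u v]
  rcases g.kval h1 v with k | k
  · rw [k]
  · rw [k]
    have e1 : v + t - u = v - u + t := by abel
    rw [e1]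
    exact (h.outH huv).symm

theorem Hyp.Good.link1 (g : h.Good) {α β : Equiv.Perm G} (h1 : TF S α β) {u v : G}
    (huv : v - u ∉ h.H) : link t S (α v - α u) = eps t α β u * link t S (v - u) := by
  unfold link
  rw [Finset.mul_sum]
  rw [← Equiv.sum_comp (α.trans (Equiv.subRight (α u)))]
  rw [← Equiv.sum_comp (Equiv.subRight u) (fun l => eps t α β u *
    (if l ∈ LL t S then FF t S l * ind (v - u - l ∈ S) else 0))]
  apply Finset.sum_congr rfl
  intro w _
  simp only [Equiv.trans_apply, Equiv.subRight_apply]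
  by_cases hw : w - u ∈ LL t S
  · rw [if_pos hw, if_pos ((h.coset h1 w u).mp hw)]
    have e1 : α v - α u - (α w - α u) = α v - α w := by abel
    have e2 : v - u - (w - u) = v - w := by abel
    rw [e1, e2, g.Ftrans h1]
    have hvw : v - w ∉ h.H := by
      intro hh
      apply huv
      exact mem_trans hh (h.LH hw)
    rw [g.outtrans h1 hvw]
    have e3 : eps t α β w = eps t α β u := by
      have := g.epsH h1 u (h.LH hw)
      rwa [add_sub_cancel] at this
    rw [e3]; ring
  · rw [if_neg hw, if_neg (fun hh => hw ((h.coset h1 w u).mpr hh)), mul_zero]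

theorem Hyp.Good.link2 (g : h.Good) {α β : Equiv.Perm G} (h1 : TF S α β) {u v : G}
    (huv : v - u ∉ h.H) : link t S (α v - α u) = eps t α β v * link t S (v - u) := by
  unfold link
  rw [Finset.mul_sum]
  rw [← Equiv.sum_comp (α.trans (Equiv.subLeft (α v)))]
  rw [← Equiv.sum_comp (Equiv.subLeft v) (fun l => eps t α β v *
    (if l ∈ LL t S then FF t S l * ind (v - u - l ∈ S) else 0))]
  apply Finset.sum_congr rfl
  intro w _
  simp only [Equiv.trans_apply, Equiv.subLeft_apply]
  by_cases hw : v - w ∈ LL t S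
  · rw [if_pos hw, if_pos ((h.coset h1 v w).mp hw)]
    have e1 : α v - α u - (α v - α w) = α w - α u := by abel
    have e2 : v - u - (v - w) = w - u := by abel
    rw [e1, e2, g.Ftrans h1]
    have hwu : w - u ∉ h.H := by
      intro hh
      apply huv
      exact mem_trans (h.LH hw) hh
    rw [g.outtrans h1 hwu]
    ring
  · rw [if_neg hw, if_neg (fun hh => hw ((h.coset h1 v w).mpr hh)), mul_zero]

theorem eps_sq (t : G) (α β : Equiv.Perm G) (a : G) : eps t α β a ≠ 0 := by
  unfold eps; split_ifs <;> norm_num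

theorem Hyp.Good.linked (g : h.Good) {α β : Equiv.Perm G} (h1 : TF S α β) {u v : G}
    (huv : v - u ∉ h.H) (hl : link t S (v - u) ≠ 0) : eps t α β v = eps t α β u := by
  have := (g.link2 h1 huv).symm.trans (g.link1 h1 huv)
  exact mul_right_cancel₀ hl this

/-- the set of linkers together with `H` generates `U` -/
noncomputable def Hyp.U (h : Hyp t E S) : AddSubgroup G :=
  AddSubgroup.closure ({x | x ∈ LL t S} ∪ {t} ∪ {x | x ∉ h.H ∧ link t S x ≠ 0})

theorem Hyp.LU (h : Hyp t E S) {x : G} (hx : x ∈ LL t S) : x ∈ h.U :=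
  AddSubgroup.subset_closure (Or.inl (Or.inl hx))

theorem Hyp.tU (h : Hyp t E S) : t ∈ h.U :=
  AddSubgroup.subset_closure (Or.inl (Or.inr rfl))

theorem Hyp.Good.epsU (g : h.Good) {α β : Equiv.Perm G} (h1 : TF S α β) {x : G}
    (hx : x ∈ h.U) : ∀ a, eps t α β (a + x) = eps t α β a := by
  unfold Hyp.U at hx
  induction hx using AddSubgroup.closure_induction with
  | mem x hx =>
    intro a
    rcases hx with (hx | hx) | hx
    · exact g.epsH h1 a (h.LH hx)
    · rw [Set.mem_singleton_iff] at hx
      rw [hx]; exact g.epsH h1 a h.tH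
    · have e : a + x - a = x := by abel
      apply g.linked h1
      · rw [e]; exact hx.1
      · rw [e]; exact hx.2
  | zero => intro a; rw [add_zero]
  | add x y _ _ hx hy => intro a; rw [← add_assoc, hy, hx]
  | neg x _ hx =>
    intro a
    have := hx (a + -x)
    rw [neg_add_cancel_right] at this
    exact this.symm

theorem Hyp.Good.cosU (g : h.Good) {α β : Equiv.Perm G} (h1 : TF S α β) {x : G}
    (hx : x ∈ h.U) : ∀ a, α (a + x) - α a ∈ h.U := by
  unfold Hyp.U at hx
  induction hx using AddSubgroup.closure_induction with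
  | mem x hx =>
    intro a
    rcases hx with (hx | hx) | hx
    · exact h.LU (h.coset1 h1 x hx a)
    · rw [Set.mem_singleton_iff] at hx
      rw [hx, g.commt h1]
      have : α a + t - α a = t := by abel
      rw [this]; exact h.tU
    · have e : a + x - a = x := by abel
      apply AddSubgroup.subset_closure
      right
      refine ⟨?_, ?_⟩
      · rw [← g.cosH h1, e]; exact hx.1
      · rw [g.link1 h1 (by rw [e]; exact hx.1), e]
        exact mul_ne_zero (eps_sq _ _ _ _) hx.2
  | zero => intro a; rw [add_zero, sub_self]; exact h.U.zero_mem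
  | add x y _ _ hx hy =>
    intro a
    have e : α (a + (x + y)) - α a = (α (a + x + y) - α (a + x)) + (α (a + x) - α a) := by
      rw [add_assoc]; abel
    rw [e]; exact h.U.add_mem (hy _) (hx _)
  | neg x _ hx =>
    intro a
    have e : α (a + -x) - α a = -(α (a + -x + x) - α (a + -x)) := by
      rw [neg_add_cancel_right]; abel
    rw [e]; exact h.U.neg_mem (hx _)

/-- Main structural theorem. -/
theorem Hyp.main (h : Hyp t E S) (hex : ∃ α β : Equiv.Perm G, TF S α β ∧ α ≠ β)
    (hU : ∀ x ∉ h.U, ∀ y ∈ h.U, (x ∈ S ↔ x + y ∈ S)) :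
    t ∉ S ∧ ∃ γ : Equiv.Perm G, ∀ u v, (γ v - γ u ∈ S ↔ v - u + t ∈ S) := by
  obtain ⟨α, β, h1, hne⟩ := hex
  have g : h.Good := h.good h1 hne
  obtain ⟨a₁, ha₁⟩ := g.exD h1 hne
  have hts : t ∉ S := by
    intro hh
    have := (h1.adj a₁ a₁)
    rw [ha₁] at this
    have e : a₁ + t - a₁ = t := by abel
    rw [e, sub_self] at this
    exact h.h0 (this.mpr hh)
  refine ⟨hts, ?_⟩
  have hD : ∀ x ∈ h.U, β⁻¹ (α (a₁ + x)) = a₁ + x + t := by
    intro x hx
    have := g.epsU h1 hx a₁
    unfold eps at this
    rw [if_pos ha₁] at this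
    by_contra hcon
    rw [if_neg hcon] at this
    exact absurd this (by norm_num)
  -- coset representatives
  let r : G → G := fun x => Quotient.out (QuotientAddGroup.mk x : G ⧸ h.U)
  have hr : ∀ x, x - r x ∈ h.U := by
    intro x
    have : (QuotientAddGroup.mk (r x) : G ⧸ h.U) = QuotientAddGroup.mk x := Quotient.out_eq _
    rw [QuotientAddGroup.eq] at this
    have e : x - r x = -r x + x := by abel
    rw [e]; exact this
  have hr2 : ∀ x y, x - y ∈ h.U → r x = r y := by
    intro x y hxy
    have : (QuotientAddGroup.mk x : G ⧸ h.U) = QuotientAddGroup.mk y := by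
      rw [QuotientAddGroup.eq]
      have e : -x + y = -(x - y) := by abel
      rw [e]; exact h.U.neg_mem hxy
    show Quotient.out _ = Quotient.out _
    rw [this]
  let γ : G → G := fun x => r x + (α (a₁ + (x - r x)) - α a₁)
  have hγ : ∀ x, γ x - x ∈ h.U := by
    intro x
    have e : γ x - x = -(x - r x) + (α (a₁ + (x - r x)) - α a₁) := by
      show r x + (α (a₁ + (x - r x)) - α a₁) - x = _
      abel
    rw [e]
    exact h.U.add_mem (h.U.neg_mem (hr x)) (g.cosU h1 (hr x) a₁)
  have hinj : Function.Injective γ := by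
    intro x y hxy
    have k1 : x - y ∈ h.U := by
      have e : x - y = -(γ x - x) + (γ y - y) := by rw [hxy]; abel
      rw [e]; exact h.U.add_mem (h.U.neg_mem (hγ x)) (hγ y)
    have k2 := hr2 x y k1
    have k3 : r x + (α (a₁ + (x - r x)) - α a₁) = r y + (α (a₁ + (y - r y)) - α a₁) := hxy
    rw [k2] at k3
    have k4 : α (a₁ + (x - r y)) = α (a₁ + (y - r y)) := by
      have := add_left_cancel k3
      exact sub_left_injective this
    have k5 := α.injective k4
    have k6 := add_left_cancel k5
    exact sub_left_injective k6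
  refine ⟨Equiv.ofBijective γ (Finite.injective_iff_bijective.mp hinj), ?_⟩
  intro u v
  show γ v - γ u ∈ S ↔ v - u + t ∈ S
  by_cases huv : v - u ∈ h.U
  · have k2 := hr2 v u huv
    have e : γ v - γ u = α (a₁ + (v - r v)) - α (a₁ + (u - r u)) := by
      show r v + (α (a₁ + (v - r v)) - α a₁) - (r u + (α (a₁ + (u - r u)) - α a₁)) = _
      rw [k2]; abel
    rw [e, h1.adj, hD _ (hr v), k2]
    have e2 : a₁ + (v - r u) + t - (a₁ + (u - r u)) = v - u + t := by abel
    rw [e2]
  · have hy : -(v - u) + (γ v - γ u) ∈ h.U := by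
      have e : -(v - u) + (γ v - γ u) = (γ v - v) - (γ u - u) := by abel
      rw [e]; exact h.U.sub_mem (hγ v) (hγ u)
    have e1 : γ v - γ u = (v - u) + (-(v - u) + (γ v - γ u)) := by abel
    rw [e1, ← hU _ huv _ hy, ← hU _ huv _ h.tU]

end Pool.Agent.R14.TII
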