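import Pool.Agent.R14.TII.SF

namespace Pool.Agent.R14.TII

open scoped Classical

set_option linter.unusedSectionVars false

variable {G : Type*} [AddCommGroup G] {t : G} {E : AddSubgroup G} {S : Set G}

variable [Fintype G] {h : Hyp t E S}

/-- extension of a flip from the cosets of `M` -/
theorem Hyp.Good.glue (_g : h.Good) {α β : Equiv.Perm G} (h1 : TF S α β) (h0 : α 0 = 0)
    {M N : AddSubgroup G} (hM : Inv S (M : Set G)) (heps : ∀ x ∈ M, eps t α β x = -1)
    (hN : ∀ x ∈ M, α x - x ∈ N) (_htM : t ∈ M)
    (hMN : ∀ x ∉ M, ∀ n ∈ N ⊓ M, (x ∈ S ↔ x + n ∈ S)) (hMt : ∀ x ∉ M, (x ∈ S ↔ x + t ∈ S)) :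
    ∃ γ : Equiv.Perm G, ∀ u v, (γ v - γ u ∈ S ↔ v - u + t ∈ S) := by
  have hD : ∀ x ∈ M, β⁻¹ (α x) = x + t := by
    intro x hx
    have := heps x hx
    unfold eps at this
    by_contra hcon
    rw [if_neg hcon] at this
    exact absurd this (by norm_num)
  have hαM : ∀ x ∈ M, α x ∈ M := by
    intro x hx
    have := (hM α β h1 0 x).mp (by rw [sub_zero]; exact hx)
    rwa [h0, sub_zero] at this
  -- coset representatives
  let r : G → G := fun x => Quotient.out (QuotientAddGroup.mk x : G ⧸ M)
  have hr : ∀ x, x - r x ∈ M := by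
    intro x
    have : (QuotientAddGroup.mk (r x) : G ⧸ M) = QuotientAddGroup.mk x := Quotient.out_eq _
    rw [QuotientAddGroup.eq] at this
    have e : x - r x = -r x + x := by abel
    rw [e]; exact this
  have hr2 : ∀ x y, x - y ∈ M → r x = r y := by
    intro x y hxy
    have : (QuotientAddGroup.mk x : G ⧸ M) = QuotientAddGroup.mk y := by
      rw [QuotientAddGroup.eq]
      have e : -x + y = -(x - y) := by abel
      rw [e]; exact M.neg_mem hxy
    show Quotient.out _ = Quotient.out _
    rw [this]
  let γ : G → G := fun x => r x + α (x - r x)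
  have hγN : ∀ x, γ x - x ∈ N ⊓ M := by
    intro x
    have e : γ x - x = α (x - r x) - (x - r x) := by
      show r x + α (x - r x) - x = _
      abel
    rw [e]
    exact ⟨hN _ (hr x), M.sub_mem (hαM _ (hr x)) (hr x)⟩
  have hinj : Function.Injective γ := by
    intro x y hxy
    have k1 : x - y ∈ M := by
      have e : x - y = -(γ x - x) + (γ y - y) := by rw [hxy]; abel
      rw [e]; exact M.add_mem (M.neg_mem (hγN x).2) (hγN y).2
    have k2 := hr2 x y k1
    have k3 : r x + α (x - r x) = r y + α (y - r y) := hxy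
    rw [k2] at k3
    have k4 : α (x - r y) = α (y - r y) := add_left_cancel k3
    exact sub_left_injective (α.injective k4)
  refine ⟨Equiv.ofBijective γ (Finite.injective_iff_bijective.mp hinj), ?_⟩
  intro u v
  show γ v - γ u ∈ S ↔ v - u + t ∈ S
  by_cases huv : v - u ∈ M
  · have k2 := hr2 v u huv
    have e : γ v - γ u = α (v - r v) - α (u - r u) := by
      show r v + α (v - r v) - (r u + α (u - r u)) = _
      rw [k2]; abel
    rw [e, h1.adj, hD _ (hr v), k2]
    have e2 : v - r u + t - (u - r u) = v - u + t := by abel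
    rw [e2]
  · have hy : (γ v - v) - (γ u - u) ∈ N ⊓ M := (N ⊓ M).sub_mem (hγN v) (hγN u)
    have e1 : γ v - γ u = (v - u) + ((γ v - v) - (γ u - u)) := by abel
    rw [e1, ← hMN _ huv _ hy, ← hMt _ huv]

/-- `S ∖ H` is invariant. -/
theorem invF_out (g : h.Good) {R : Type*} [CommRing R] :
    InvF S (fun x => if x ∈ S ∧ x ∉ h.H then (1 : R) else 0) := by
  intro α β h1 u v
  have k1 := g.cosH h1 v u
  by_cases hv : v - u ∈ h.H
  · have := k1.mp hv
    simp [hv, this]
  · have h2 : α v - α u ∉ h.H := fun hh => hv (k1.mpr hh)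
    have h3 := g.outtrans h1 hv
    simp [hv, h2, h3]

theorem Inv_H (g : h.Good) : Inv S (h.H : Set G) := fun _ _ h1 u v => g.cosH h1 v u

/-- the set of generators of `M` -/
def DD (h : Hyp t E S) (N : AddSubgroup G) : Set G :=
  {x | x ∈ h.H ∨ ∃ l : ℕ, l.Prime ∧ l ∣ Nat.card N ∧
    Fr l (fun x => if x ∈ S ∧ x ∉ h.H then (1 : ZMod l) else 0) x ≠ 0}

theorem Inv_DD (g : h.Good) (N : AddSubgroup G) : Inv S (DD h N) := by
  intro α β h1 u v
  unfold DD
  simp only [Set.mem_ofPred_eq]
  have k1 := g.cosH h1 v u
  constructor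
  · rintro (hx | ⟨l, hl, hd, hx⟩)
    · exact Or.inl (k1.mp hx)
    · refine Or.inr ⟨l, hl, hd, ?_⟩
      have : Fact l.Prime := ⟨hl⟩
      rw [(invF_out (R := ZMod l) g).frob α β h1]
      exact hx
  · rintro (hx | ⟨l, hl, hd, hx⟩)
    · exact Or.inl (k1.mpr hx)
    · refine Or.inr ⟨l, hl, hd, ?_⟩
      have : Fact l.Prime := ⟨hl⟩
      rw [← (invF_out (R := ZMod l) g).frob α β h1]
      exact hx

theorem Inv_Fr (g : h.Good) (l : ℕ) [Fact l.Prime] :
    Inv S {x | Fr l (fun x => if x ∈ S ∧ x ∉ h.H then (1 : ZMod l) else 0) x ≠ 0} := by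
  intro α β h1 u v
  simp only [Set.mem_ofPred_eq]
  rw [(invF_out (R := ZMod l) g).frob α β h1]

theorem sq_contra (hsq : Squarefree (Nat.card G)) {l : ℕ} (hl : l.Prime)
    (hd : l * l ∣ Nat.card G) : False := by
  have := hsq l hd
  exact hl.one_lt.ne' (Nat.isUnit_iff.mp this)

theorem main_sf [IsAddCyclic G] (hsq : Squarefree (Nat.card G)) (g : h.Good) :
    ∃ γ : Equiv.Perm G, ∀ u v, (γ v - γ u ∈ S ↔ v - u + t ∈ S) := by
  obtain ⟨N, ⟨hNinv, α, β, h1, h0, he0, hα⟩, hmin⟩ := adm_min g
  set M : AddSubgroup G := AddSubgroup.closure (DD h N) with hMdef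
  have hM : Inv S (M : Set G) := (Inv_DD g N).closure
  have hHM : h.H ≤ M := fun x hx => AddSubgroup.subset_closure (Or.inl hx)
  -- eps is constant on cosets of M
  have hconst : ∀ c ∈ M, ∀ x, eps t α β (x + c) = eps t α β x := by
    intro c hc
    rw [hMdef] at hc
    induction hc using AddSubgroup.closure_induction with
    | mem c hc =>
      intro x
      rcases hc with hc | ⟨l, hl, hd, hc⟩
      · exact g.epsH h1 x hc
      · have : Fact l.Prime := ⟨hl⟩
        apply adm_const g hNinv hmin h1 hα (Inv_Fr g l).closure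
        · -- N is not contained in B_l
          intro hNB
          obtain ⟨e, he⟩ := exists_prime_addOrderOf_dvd_card' (G := N) l hd
          have heN : (e : G) ∈ AddSubgroup.closure {x | Fr l (fun x => if x ∈ S ∧ x ∉ h.H
            then (1 : ZMod l) else 0) x ≠ 0} := hNB e.2
          have hrange : (e : G) ∈ (nsmulAddMonoidHom (α := G) l).range := by
            refine (AddSubgroup.closure_le _).mpr ?_ heN
            intro z hz
            have hz' : Fr l (fun x => if x ∈ S ∧ x ∉ h.H then (1 : ZMod l) else 0) z ≠ 0 := hz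
            unfold Fr at hz'
            obtain ⟨y, _, hy⟩ := Finset.exists_ne_zero_of_sum_ne_zero hz'
            by_cases hly : l • y = z
            · exact ⟨y, hly⟩
            · rw [if_neg hly] at hy; exact absurd rfl hy
          obtain ⟨y, hy⟩ := hrange
          have hy' : l • y = (e : G) := hy
          have heo : addOrderOf (e : G) = l := by
            rw [← he]; exact AddSubgroup.addOrderOf_coe e
          have ho : addOrderOf y = l ^ (1 + 1) := by
            apply addOrderOf_eq_prime_pow
            · rw [pow_one, hy']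
              intro hh
              rw [hh, addOrderOf_zero] at heo
              exact hl.one_lt.ne heo
            · rw [pow_add, pow_one, mul_nsmul, hy', ← heo, addOrderOf_nsmul_eq_zero]
          apply sq_contra hsq hl
          rw [← sq, ← ho]
          exact addOrderOf_dvd_natCard y
        · have e : x + c - x = c := by abel
          rw [e]
          exact AddSubgroup.subset_closure hc
    | zero => intro x; rw [add_zero]
    | add x y _ _ hx hy => intro a; rw [← add_assoc, hy, hx]
    | neg x _ hx =>
      intro a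
      have := hx (a + -x)
      rw [neg_add_cancel_right] at this
      exact this.symm
  have heps : ∀ x ∈ M, eps t α β x = -1 := by
    intro x hx
    have := hconst x hx 0
    rw [zero_add, he0] at this
    exact this
  -- the invariance
  let Q : AddSubgroup G := {
    carrier := {c | c ∈ M ∧ ∀ x ∉ M, (x ∈ S ↔ x + c ∈ S)}
    zero_mem' := ⟨M.zero_mem, fun x _ => by rw [add_zero]⟩
    add_mem' := by
      rintro a b ⟨ha, ha'⟩ ⟨hb, hb'⟩
      refine ⟨M.add_mem ha hb, ?_⟩
      intro x hx
      rw [ha' x hx, hb' (x + a), add_assoc]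
      intro hh
      apply hx
      have := M.sub_mem hh ha
      simpa using this
    neg_mem' := by
      rintro a ⟨ha, ha'⟩
      refine ⟨M.neg_mem ha, ?_⟩
      intro x hx
      have hx' : x + -a ∉ M := by
        intro hh
        apply hx
        have := M.add_mem hh ha
        simpa using this
      rw [ha' _ hx', neg_add_cancel_right] }
  have hprime : ∀ l : ℕ, l.Prime → ∀ e ∈ N ⊓ M, addOrderOf e = l → e ∈ Q := by
    intro l hl e he heo
    have : Fact l.Prime := ⟨hl⟩
    have hle : l • e = 0 := by rw [← heo]; exact addOrderOf_nsmul_eq_zero e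
    have hlN : l ∣ Nat.card N := by
      have := addOrderOf_dvd_natCard (⟨e, he.1⟩ : N)
      rwa [AddSubgroup.addOrderOf_mk, heo] at this
    have hlM : l ∣ Nat.card M := by
      have := addOrderOf_dvd_natCard (⟨e, he.2⟩ : M)
      rwa [AddSubgroup.addOrderOf_mk, heo] at this
    refine ⟨he.2, ?_⟩
    intro x hx
    -- l • x ∉ M
    have hlx : l • x ∉ M := by
      intro hlx
      have hq : addOrderOf (QuotientAddGroup.mk x : G ⧸ M) = l := by
        apply addOrderOf_eq_prime
        · rw [← QuotientAddGroup.mk_nsmul]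
          exact (QuotientAddGroup.eq_zero_iff _).mpr hlx
        · intro hh
          exact hx ((QuotientAddGroup.eq_zero_iff _).mp hh)
      have h3 : l ∣ M.index := by
        have := addOrderOf_dvd_natCard (QuotientAddGroup.mk x : G ⧸ M)
        rw [hq] at this
        exact this
      apply sq_contra hsq hl
      rw [← AddSubgroup.card_mul_index M]
      exact mul_dvd_mul hlM h3
    have hFr : Fr l (fun x => if x ∈ S ∧ x ∉ h.H then (1 : ZMod l) else 0) (l • x) = 0 := by
      by_contra hne
      exact hlx (AddSubgroup.subset_closure (Or.inr ⟨l, hl, hlN, hne⟩))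
    -- the fibre
    set Fb : Finset G := Finset.univ.filter (fun y => l • y = l • x) with hFb
    have hFbM : ∀ y ∈ Fb, y ∉ M := by
      intro y hy hyM
      rw [hFb, Finset.mem_filter] at hy
      apply hlx
      rw [← hy.2]
      exact M.nsmul_mem hyM l
    have hcard : Fb.card ≤ l := by
      have h5 := IsAddCyclic.card_nsmul_eq_zero_le (α := G) hl.pos
      refine le_trans (le_of_eq ?_) h5
      apply Finset.card_bij (fun y _ => y - x)
      · intro y hy
        rw [hFb, Finset.mem_filter] at hy
        rw [Finset.mem_filter]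
        refine ⟨Finset.mem_univ _, ?_⟩
        rw [nsmul_sub, hy.2, sub_self]
      · intro y _ z _ hyz
        exact sub_left_injective hyz
      · intro z hz
        rw [Finset.mem_filter] at hz
        refine ⟨z + x, ?_, by abel⟩
        rw [hFb, Finset.mem_filter]
        refine ⟨Finset.mem_univ _, ?_⟩
        rw [nsmul_add, hz.2, zero_add]
    have hcount : ((Fb.filter (fun y => y ∈ S)).card : ZMod l) = 0 := by
      rw [← hFr]
      unfold Fr
      rw [← Finset.sum_filter, ← hFb, Finset.card_eq_sum_ones, Finset.sum_filter]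
      push_cast
      apply Finset.sum_congr rfl
      intro y hy
      have hyH : y ∉ h.H := fun hh => hFbM y hy (hHM hh)
      simp [hyH]
    rw [ZMod.natCast_eq_zero_iff] at hcount
    have hxF : x ∈ Fb := by rw [hFb, Finset.mem_filter]; exact ⟨Finset.mem_univ _, rfl⟩
    have hxeF : x + e ∈ Fb := by
      rw [hFb, Finset.mem_filter]
      refine ⟨Finset.mem_univ _, ?_⟩
      rw [nsmul_add, hle, add_zero]
    have hall : ∀ y ∈ Fb, y ∈ S → ∀ z ∈ Fb, z ∈ S := by
      intro y hy hyS z hz
      have hpos : 0 < (Fb.filter (fun y => y ∈ S)).card :=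
        Finset.card_pos.mpr ⟨y, Finset.mem_filter.mpr ⟨hy, hyS⟩⟩
      have hge := Nat.le_of_dvd hpos hcount
      have heq : Fb.filter (fun y => y ∈ S) = Fb :=
        Finset.eq_of_subset_of_card_le (Finset.filter_subset _ _) (hcard.trans hge)
      rw [← heq] at hz
      exact (Finset.mem_filter.mp hz).2
    exact ⟨fun hh => hall x hxF hh _ hxeF, fun hh => hall _ hxeF hh x hxF⟩
  have hNMQ : N ⊓ M ≤ Q := by
    have hK : (N ⊓ M) ⊓ Q = N ⊓ M := by
      apply AddSubgroup.eq_of_le_of_card_ge inf_le_left
      apply Nat.le_of_dvd Nat.card_pos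
      have hsq2 : Squarefree (Nat.card (N ⊓ M : AddSubgroup G)) :=
        Squarefree.squarefree_of_dvd (AddSubgroup.card_addSubgroup_dvd_card _) hsq
      rw [← Nat.prod_primeFactors_of_squarefree hsq2]
      apply Finset.prod_primes_dvd
      · intro p hp
        exact (Nat.prime_of_mem_primeFactors hp).prime
      · intro p hp
        have hpp := Nat.prime_of_mem_primeFactors hp
        have : Fact p.Prime := ⟨hpp⟩
        obtain ⟨e, he⟩ := exists_prime_addOrderOf_dvd_card' (G := (N ⊓ M : AddSubgroup G)) p
          (Nat.dvd_of_mem_primeFactors hp)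
        have heo : addOrderOf (e : G) = p := by
          rw [← he]; exact AddSubgroup.addOrderOf_coe e
        have heQ := hprime p hpp (e : G) e.2 heo
        have h7 := addOrderOf_dvd_natCard (⟨(e : G), e.2, heQ⟩ : ((N ⊓ M) ⊓ Q : AddSubgroup G))
        have h8 : addOrderOf (⟨(e : G), e.2, heQ⟩ : ((N ⊓ M) ⊓ Q : AddSubgroup G)) = p := by
          rw [← AddSubgroup.addOrderOf_coe]; exact heo
        rwa [h8] at h7
    intro x hx
    rw [← hK] at hx
    exact hx.2
  apply g.glue h1 h0 hM heps (fun x _ => hα x) (hHM h.tH)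
  · intro x hx n hn
    exact (hNMQ hn).2 x hx
  · intro x hx
    exact h.outH (fun hh => hx (hHM hh))

end Pool.Agent.R14.TII
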