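import Pool.Agent.R14.TII.Link

namespace Pool.Agent.R14.TII

open scoped Classical
open Polynomial

theorem const_of_sum {p : ℕ} [hp : Fact p.Prime] {ζ : ℂ} (hζ : IsPrimitiveRoot ζ p) (f : ℕ → ℚ)
    (h : ∑ i ∈ Finset.range p, (f i : ℂ) * ζ ^ i = 0) : ∀ i < p, f i = f 0 := by
  set Q : ℚ[X] := ∑ i ∈ Finset.range p, C (f i) * X ^ i with hQ
  have hcoef : ∀ i < p, Q.coeff i = f i := by
    intro i hi
    rw [hQ, finsetSum_coeff]
    simp only [coeff_C_mul, coeff_X_pow]
    rw [Finset.sum_eq_single i]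
    · simp
    · intro j _ hj
      rw [if_neg (Ne.symm hj), mul_zero]
    · intro hh
      exact absurd (Finset.mem_range.mpr hi) hh
  have hroot : aeval ζ Q = 0 := by
    rw [hQ, map_sum, ← h]
    apply Finset.sum_congr rfl
    intro i _
    simp
  have hmin : cyclotomic p ℚ = minpoly ℚ ζ := cyclotomic_eq_minpoly_rat hζ hp.out.pos
  have hdvd : cyclotomic p ℚ ∣ Q := by
    rw [hmin]; exact minpoly.dvd ℚ ζ hroot
  obtain ⟨R, hR⟩ := hdvd
  have hcm : (cyclotomic p ℚ).Monic := cyclotomic.monic p ℚ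
  have hdeg : Q.natDegree ≤ p - 1 := by
    rw [hQ]
    apply natDegree_sum_le_of_forall_le
    intro i hi
    have hi' := Finset.mem_range.mp hi
    calc (C (f i) * X ^ i : ℚ[X]).natDegree ≤ i := natDegree_C_mul_X_pow_le _ _
      _ ≤ p - 1 := by omega
  have hRdeg : R.natDegree = 0 := by
    by_cases hR0 : R = 0
    · rw [hR0]; simp
    have h1 : Q.natDegree = (cyclotomic p ℚ).natDegree + R.natDegree := by
      rw [hR, hcm.natDegree_mul' hR0]
    rw [natDegree_cyclotomic, Nat.totient_prime hp.out] at h1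
    omega
  obtain ⟨c, hc⟩ := natDegree_eq_zero.mp hRdeg
  have hall : ∀ i < p, Q.coeff i = c := by
    intro i hi
    rw [hR, ← hc, coeff_mul_C, cyclotomic_prime, finsetSum_coeff]
    simp only [coeff_X_pow]
    rw [Finset.sum_eq_single i]
    · simp
    · intro j _ hj
      rw [if_neg (Ne.symm hj)]
    · intro hh
      exact absurd (Finset.mem_range.mpr hi) hh
  intro i hi
  rw [← hcoef i hi, ← hcoef 0 hp.out.pos, hall i hi, hall 0 hp.out.pos]

theorem conv_const {p : ℕ} [hp : Fact p.Prime] (f g : ZMod p → ℤ)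
    (h : ∀ j, ∑ i, f i * g (j - i) = 0) : (∀ i, f i = f 0) ∨ (∀ i, g i = g 0) := by
  have : NeZero p := ⟨hp.out.ne_zero⟩
  obtain ⟨ζ, hζ⟩ : ∃ ζ : ℂ, IsPrimitiveRoot ζ p :=
    ⟨_, Complex.isPrimitiveRoot_exp p hp.out.ne_zero⟩
  have hmod : ∀ n : ℕ, ζ ^ (n % p) = ζ ^ n := by
    intro n
    conv_rhs => rw [← Nat.mod_add_div n p]
    rw [pow_add, pow_mul, hζ.pow_eq_one, one_pow, mul_one]
  have hmul : ∀ i j : ZMod p, ζ ^ (i + j).val = ζ ^ i.val * ζ ^ j.val := by
    intro i j
    rw [ZMod.val_add, hmod, pow_add]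
  have key : (∑ i, (f i : ℂ) * ζ ^ i.val) * (∑ i, (g i : ℂ) * ζ ^ i.val) = 0 := by
    have h2 : (∑ i, (f i : ℂ) * ζ ^ i.val) * (∑ i, (g i : ℂ) * ζ ^ i.val)
        = ∑ j : ZMod p, ((∑ i, f i * g (j - i) : ℤ) : ℂ) * ζ ^ j.val := by
      rw [Finset.sum_mul]
      have h3 : ∀ i : ZMod p, (f i : ℂ) * ζ ^ i.val * (∑ k, (g k : ℂ) * ζ ^ k.val)
          = ∑ j : ZMod p, ((f i : ℂ) * (g (j - i) : ℂ)) * ζ ^ j.val := by
        intro i
        rw [Finset.mul_sum]
        rw [← Equiv.sum_comp (Equiv.subRight i)]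
        apply Finset.sum_congr rfl
        intro j _
        simp only [Equiv.subRight_apply]
        have : ζ ^ j.val = ζ ^ i.val * ζ ^ (j - i).val := by
          rw [← hmul]; congr 2; ring
        rw [this]; ring
      rw [Finset.sum_congr rfl (fun i _ => h3 i), Finset.sum_comm]
      apply Finset.sum_congr rfl
      intro j _
      push_cast
      rw [Finset.sum_mul]
    rw [h2]
    apply Finset.sum_eq_zero
    intro j _
    rw [h j]; simp
  have conv : ∀ F : ZMod p → ℤ, (∑ i, (F i : ℂ) * ζ ^ i.val = 0) → ∀ i, F i = F 0 := by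
    intro F hF
    have h4 : ∑ i ∈ Finset.range p, (((F (i : ZMod p) : ℤ) : ℚ) : ℂ) * ζ ^ i = 0 := by
      rw [← hF]
      symm
      apply Finset.sum_bij (fun (i : ZMod p) _ => i.val)
      · intro i _; exact Finset.mem_range.mpr (ZMod.val_lt i)
      · intro i _ j _ hij; exact ZMod.val_injective p hij
      · intro i hi
        exact ⟨(i : ZMod p), Finset.mem_univ _, ZMod.val_cast_of_lt (Finset.mem_range.mp hi)⟩
      · intro i _
        rw [ZMod.natCast_zmod_val]
        push_cast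
        rfl
    have h5 := const_of_sum hζ (fun i => ((F (i : ZMod p) : ℤ) : ℚ)) h4
    intro i
    have h6 := h5 i.val (ZMod.val_lt i)
    simp only [ZMod.natCast_zmod_val, Nat.cast_zero] at h6
    exact_mod_cast h6
  rcases mul_eq_zero.mp key with k | k
  · exact Or.inl (conv f k)
  · exact Or.inr (conv g k)

set_option linter.unusedSectionVars false

variable {G : Type*} [AddCommGroup G] {t : G} {E : AddSubgroup G} {S : Set G}

variable [Fintype G]

theorem Hyp.tnS (h : Hyp t E S) (hex : ∃ α β : Equiv.Perm G, TF S α β ∧ α ≠ β) : t ∉ S := by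
  obtain ⟨α, β, h1, hne⟩ := hex
  have g : h.Good := h.good h1 hne
  obtain ⟨a₁, ha₁⟩ := g.exD h1 hne
  intro hh
  have := (h1.adj a₁ a₁)
  rw [ha₁] at this
  have e : a₁ + t - a₁ = t := by abel
  rw [e, sub_self] at this
  exact h.h0 (this.mpr hh)

/-- For `|L|` prime: outside `U` the set `S` is `L`-invariant. -/
theorem Hyp.primeL (h : Hyp t E S) (hts : t ∉ S) {p : ℕ} (hp : p.Prime)
    (hL : Nat.card (LL t S) = p) {x : G} (hx : ∀ y ∈ LL t S, link t S (x + y) = 0) :
    ∀ y ∈ LL t S, (x ∈ S ↔ x + y ∈ S) := by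
  have : Fact p.Prime := ⟨hp⟩
  have : NeZero p := ⟨hp.ne_zero⟩
  have : IsAddCyclic (LL t S) := isAddCyclic_of_prime_card hL
  have e0 : ZMod (Nat.card (LL t S)) ≃+ LL t S := zmodAddCyclicAddEquiv inferInstance
  rw [hL] at e0
  let f : ZMod p → ℤ := fun i => FF t S (e0 i : G)
  let g : ZMod p → ℤ := fun i => ind (x + (e0 i : G) ∈ S)
  have hconv : ∀ j, ∑ i, f i * g (j - i) = 0 := by
    intro j
    have h1 := hx (e0 j : G) (e0 j).2
    unfold link at h1
    rw [← Finset.sum_filter] at h1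
    rw [← h1]
    symm
    apply Finset.sum_bij' (fun (l : G) (hl : l ∈ Finset.univ.filter (fun l => l ∈ LL t S)) =>
        e0.symm ⟨l, (Finset.mem_filter.mp hl).2⟩) (fun (i : ZMod p) _ => (e0 i : G))
    case hi => intro l hl; exact Finset.mem_univ _
    case hj => intro i _; exact Finset.mem_filter.mpr ⟨Finset.mem_univ _, (e0 i).2⟩
    case left_neg => intro l hl; simp
    case right_neg => intro i _; simp
    case h =>
      intro l hl
      simp only [f, g, AddEquiv.apply_symm_apply, map_sub, AddSubgroup.coe_sub]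
      rw [add_sub_assoc]
  rcases conv_const f g hconv with k | k
  · exfalso
    have hF0 : f 0 = 0 := by
      simp only [f, map_zero, ZeroMemClass.coe_zero, FF, ind, zero_add]
      rw [if_neg h.h0, if_neg hts]; simp
    apply h.contraL
    intro y hy
    have := k (e0.symm ⟨y, hy⟩)
    rw [hF0] at this
    simp only [f, AddEquiv.apply_symm_apply, FF, ind] at this
    by_cases c1 : y ∈ S <;> by_cases c2 : y + t ∈ S <;> simp_all
  · intro y hy
    have := k (e0.symm ⟨y, hy⟩)
    simp only [g, AddEquiv.apply_symm_apply, map_zero, ZeroMemClass.coe_zero, add_zero, ind] at this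
    by_cases c1 : x ∈ S <;> by_cases c2 : x + y ∈ S <;> simp_all

end Pool.Agent.R14.TII
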