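import Pool.Agent.R14.TII.Frob

namespace Pool.Agent.R14.TII

open scoped Classical

set_option linter.unusedSectionVars false
set_option linter.unusedSimpArgs false

variable {G : Type*} [AddCommGroup G] {t : G} {E : AddSubgroup G} {S : Set G}

variable [Fintype G] {h : Hyp t E S}

/-- conjugate of `α` by a translation, fixing `0` -/
def loc (α : Equiv.Perm G) (a : G) : Equiv.Perm G :=
  Equiv.addRight (-(α a)) * α * Equiv.addRight a

theorem loc_apply (α : Equiv.Perm G) (a u : G) : loc α a u = α (a + u) - α a := by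
  unfold loc
  simp only [Equiv.Perm.mul_apply, Equiv.coe_addRight]
  rw [add_comm u a, sub_eq_add_neg]

/-- partner of `loc α a` -/
def loc' (α β : Equiv.Perm G) (a : G) : Equiv.Perm G :=
  Equiv.addRight (-(α a)) * β * Equiv.addRight a

theorem TF.loc {α β : Equiv.Perm G} (h1 : TF S α β) (a : G) : TF S (loc α a) (loc' α β a) :=
  ((TF.tr S _).mul h1).mul (TF.tr S _)

theorem eps_mul (g : h.Good) {α β α' β' : Equiv.Perm G} (h1 : TF S α β) (h2 : TF S α' β') (x : G) :
    eps t (α * α') (β * β') x = eps t α β (α' x) * eps t α' β' x := by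
  have e0 : (β * β')⁻¹ ((α * α') x) = β'⁻¹ (β⁻¹ (α (α' x))) := by
    rw [mul_inv_rev]; rfl
  have hc : ∀ y, β'⁻¹ (y + t) = β'⁻¹ y + t := g.commt (h.TFsymm h2).inv
  unfold eps
  rw [e0]
  rcases g.kval h1 (α' x) with k1 | k1 <;> rcases g.kval h2 x with k2 | k2
  · have : ¬ (x = x + t) := fun hh => h.tne (by simpa using hh.symm)
    have : ¬ (α' x = α' x + t) := fun hh => h.tne (by simpa using hh.symm)
    simp [k1, k2, *]
  · have : ¬ (α' x = α' x + t) := fun hh => h.tne (by simpa using hh.symm)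
    simp [k1, k2, *]
  · have : ¬ (x = x + t) := fun hh => h.tne (by simpa using hh.symm)
    simp [k1, k2, hc, *]
  · have h3 : ¬ (x = x + t) := fun hh => h.tne (by simpa using hh.symm)
    rw [k1, hc, k2, h.addtt]
    rw [if_neg h3]; simp

theorem eps_one (h : Hyp t E S) (x : G) : eps t (1 : Equiv.Perm G) 1 x = 1 := by
  unfold eps
  rw [if_neg]
  intro hh
  apply h.tne
  simpa using hh.symm

theorem eps_pm (t : G) (α β : Equiv.Perm G) (a : G) : eps t α β a = 1 ∨ eps t α β a = -1 := by
  unfold eps; split_ifs <;> simp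

theorem eps_inv (g : h.Good) {α β : Equiv.Perm G} (h1 : TF S α β) (x : G) :
    eps t α⁻¹ β⁻¹ (α x) = eps t α β x := by
  have h2 := eps_mul g h1.inv h1 x
  rw [inv_mul_cancel, inv_mul_cancel, eps_one h] at h2
  rcases eps_pm t α β x with k | k <;> rcases eps_pm t α⁻¹ β⁻¹ (α x) with k' | k' <;>
    rw [k, k'] at h2 <;> rw [k, k'] <;> norm_num at h2

theorem eps_loc {α β : Equiv.Perm G} (a u : G) :
    eps t (loc α a) (loc' α β a) u = eps t α β (a + u) := by
  unfold eps
  have e : (loc' α β a)⁻¹ (loc α a u) = β⁻¹ (α (a + u)) - a := by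
    rw [Equiv.Perm.inv_eq_iff_eq]
    unfold loc'
    rw [loc_apply]
    simp only [Equiv.Perm.mul_apply, Equiv.coe_addRight, sub_add_cancel, app_inv]
    rw [sub_eq_add_neg]
  rw [e]
  have : (β⁻¹ (α (a + u)) - a = u + t) ↔ (β⁻¹ (α (a + u)) = a + u + t) := by
    rw [sub_eq_iff_eq_add]
    have : u + t + a = a + u + t := by abel
    rw [this]
  simp only [this]

/-- the admissible subgroups -/
def Adm (t : G) (S : Set G) (N : AddSubgroup G) : Prop :=
  Inv S (N : Set G) ∧ ∃ α β : Equiv.Perm G, TF S α β ∧ α 0 = 0 ∧ eps t α β 0 = -1 ∧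
    ∀ x, α x - x ∈ N

theorem adm_top (g : h.Good) : Adm t S (⊤ : AddSubgroup G) := by
  obtain ⟨α, β, h1, hne⟩ := g.exi
  obtain ⟨a, ha⟩ := g.exD h1 hne
  refine ⟨fun α β _ u v => by simp, loc α a, loc' α β a, h1.loc a, ?_, ?_, fun x => trivial⟩
  · rw [loc_apply]; simp
  · rw [eps_loc, add_zero]
    unfold eps
    rw [if_pos ha]

theorem adm_min (g : h.Good) : ∃ N : AddSubgroup G, Adm t S N ∧
    ∀ N', Adm t S N' → Nat.card N ≤ Nat.card N' := by
  have hex : ∃ n, ∃ N : AddSubgroup G, Adm t S N ∧ Nat.card N = n := ⟨_, ⊤, adm_top g, rfl⟩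
  obtain ⟨N, hN, hc⟩ := Nat.find_spec hex
  refine ⟨N, hN, ?_⟩
  intro N' hN'
  rw [hc]
  exact Nat.find_min' hex ⟨N', hN', rfl⟩

/-- the key property of a minimal admissible subgroup -/
theorem adm_const (g : h.Good) {N : AddSubgroup G} (hN : Inv S (N : Set G))
    (hmin : ∀ N', Adm t S N' → Nat.card N ≤ Nat.card N')
    {α β : Equiv.Perm G} (h1 : TF S α β) (hα : ∀ x, α x - x ∈ N)
    {B : AddSubgroup G} (hB : Inv S (B : Set G)) (hNB : ¬ N ≤ B) {a b : G} (hab : a - b ∈ B) :
    eps t α β a = eps t α β b := by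
  by_contra hne
  have h2 := ((h1.loc a).inv).mul (h1.loc b)
  have key : ∀ x, ((loc α a)⁻¹ * loc α b) x - x ∈ N ⊓ B := by
    intro x
    rw [Equiv.Perm.mul_apply]
    constructor
    · -- in N
      have hA : ∀ c y, loc α c y - y ∈ N := by
        intro c y
        rw [loc_apply]
        have e : α (c + y) - α c - y = (α (c + y) - (c + y)) - (α c - c) := by abel
        rw [e]; exact N.sub_mem (hα _) (hα _)
      set z := (loc α a)⁻¹ (loc α b x) with hz
      have hz' : loc α a z = loc α b x := by rw [hz, app_inv]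
      have e : z - x = -(loc α a z - z) + (loc α b x - x) := by rw [hz']; abel
      rw [e]; exact N.add_mem (N.neg_mem (hA a z)) (hA b x)
    · -- in B
      set z := (loc α a)⁻¹ (loc α b x) with hz
      have hz' : loc α a z = loc α b x := by rw [hz, app_inv]
      show z - x ∈ (B : Set G)
      rw [hB _ _ (h1.loc a) x z, hz', loc_apply, loc_apply]
      have e : α (b + x) - α b - (α (a + x) - α a)
          = (α a - α b) - (α (a + x) - α (b + x)) := by abel
      rw [e]
      have k1 : α a - α b ∈ (B : Set G) := (hB α β h1 b a).mp hab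
      have k2 : α (a + x) - α (b + x) ∈ (B : Set G) := (hB α β h1 (b + x) (a + x)).mp (by
        have e : a + x - (b + x) = a - b := by abel
        rw [e]; exact hab)
      exact B.sub_mem k1 k2
  have h0 : ((loc α a)⁻¹ * loc α b) 0 = 0 := by
    rw [Equiv.Perm.mul_apply, Equiv.Perm.inv_eq_iff_eq, loc_apply, loc_apply]
    simp
  have hl0 : loc α a 0 = 0 := by rw [loc_apply]; simp
  have hl0' : loc α b 0 = 0 := by rw [loc_apply]; simp
  have heps : eps t ((loc α a)⁻¹ * loc α b) ((loc' α β a)⁻¹ * loc' α β b) 0 = -1 := by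
    rw [eps_mul g (h1.loc a).inv (h1.loc b), hl0']
    have k := eps_inv g (h1.loc a) 0
    rw [hl0] at k
    rw [k, eps_loc, eps_loc, add_zero, add_zero]
    rcases eps_pm t α β a with k1 | k1 <;> rcases eps_pm t α β b with k2 | k2
    · exact absurd (k1.trans k2.symm) hne
    · rw [k1, k2]; norm_num
    · rw [k1, k2]; norm_num
    · exact absurd (k1.trans k2.symm) hne
  have hadm : Adm t S (N ⊓ B) := by
    refine ⟨?_, _, _, h2, h0, heps, key⟩
    intro γ δ hγ u v
    have := hN γ δ hγ u v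
    have := hB γ δ hγ u v
    simp only [AddSubgroup.coe_inf, Set.mem_inter_iff]
    tauto
  have h3 := hmin _ hadm
  apply hNB
  have h4 : N ⊓ B = N := AddSubgroup.eq_of_le_of_card_ge inf_le_left h3
  intro x hx
  have : x ∈ N ⊓ B := by rw [h4]; exact hx
  exact this.2

end Pool.Agent.R14.TII
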