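import Pool.Agent.R14.TII.Basic

namespace Pool.Agent.R14.TII

open scoped Classical

variable {G : Type*} [AddCommGroup G] {t : G} {E : AddSubgroup G} {S : Set G}

set_option linter.unusedSectionVars false

theorem inv_app (α : Equiv.Perm G) (x : G) : α⁻¹ (α x) = x := α.symm_apply_apply x

theorem app_inv (α : Equiv.Perm G) (x : G) : α (α⁻¹ x) = x := α.apply_symm_apply x

/-- `H`-invariant predicates. -/
def Hyp.HInv (h : Hyp t E S) (p : G → Prop) : Prop := ∀ x y, x - y ∈ h.H → (p x ↔ p y)

theorem Hyp.HInv.addt {h : Hyp t E S} {p : G → Prop} (hp : h.HInv p) (x : G) :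
    p (x + t) ↔ p x := hp _ _ (by simpa using h.tH)

theorem Hyp.hinvBase (h : Hyp t E S) (a : G) : h.HInv (fun x => x - a ∈ h.H) := by
  intro x y hxy
  constructor
  · intro hx
    have := h.H.sub_mem hx hxy
    simpa using this
  · intro hy
    have := h.H.add_mem hxy hy
    simpa using this

/-- adding `t` on the set where `p` holds -/
noncomputable def Hyp.flip (h : Hyp t E S) (p : G → Prop) (hp : h.HInv p) : Equiv.Perm G where
  toFun x := if p x then x + t else x
  invFun x := if p x then x + t else x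
  left_inv x := by
    by_cases hx : p x
    · have : p (x + t) := (hp.addt x).mpr hx
      simp [hx, this, h.addtt]
    · simp [hx]
  right_inv x := by
    by_cases hx : p x
    · have : p (x + t) := (hp.addt x).mpr hx
      simp [hx, this, h.addtt]
    · simp [hx]

theorem Hyp.flip_apply (h : Hyp t E S) (p : G → Prop) (hp : h.HInv p) (x : G) :
    h.flip p hp x = if p x then x + t else x := rfl

theorem Hyp.flip_pos (h : Hyp t E S) {p : G → Prop} (hp : h.HInv p) {x : G} (hx : p x) :
    h.flip p hp x = x + t := by rw [h.flip_apply, if_pos hx]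

theorem Hyp.flip_neg (h : Hyp t E S) {p : G → Prop} (hp : h.HInv p) {x : G} (hx : ¬ p x) :
    h.flip p hp x = x := by rw [h.flip_apply, if_neg hx]

theorem Hyp.flip_flip (h : Hyp t E S) {p : G → Prop} (hp : h.HInv p) (x : G) :
    h.flip p hp (h.flip p hp x) = x := (h.flip p hp).left_inv x

theorem Hyp.TFflip (h : Hyp t E S) {p : G → Prop} (hp : h.HInv p) :
    TF S (h.flip p hp) (h.flip p hp) := by
  intro u v
  rw [h.flip_apply, h.flip_apply]
  by_cases hvu : v - u ∈ h.H
  · have := hp v u hvu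
    by_cases hu : p u
    · rw [if_pos hu, if_pos (this.mpr hu)]
      have : v + t - (u + t) = v - u := by abel
      rw [this]
    · rw [if_neg hu, if_neg (fun hv => hu (this.mp hv))]
  · have k1 : (v + t - u ∈ S ↔ v - u ∈ S) := by
      rw [h.outH hvu]
      have : v + t - u = v - u + t := by abel
      rw [this]
    have k2 : (v - (u + t) ∈ S ↔ v - u ∈ S) := by
      rw [h.outH hvu]
      have : v - (u + t) = v - u + t := by rw [← sub_sub, h.subt]
      rw [this]
    have k3 : v + t - (u + t) = v - u := by abel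
    split_ifs
    · rw [k3]
    · exact k1.symm
    · exact k2.symm
    · rfl

theorem Hyp.parL (h : Hyp t E S) {x y : G} (hxy : x - y ∈ LL t S) : x ∈ E ↔ y ∈ E := by
  have := h.LE hxy
  constructor
  · intro hx
    have h2 := E.sub_mem hx this
    simpa using h2
  · intro hy
    have h2 := E.add_mem this hy
    simpa using h2

theorem Hyp.part (h : Hyp t E S) (x : G) : x + t ∈ E ↔ x ∉ E := by
  constructor
  · intro h1 h2
    apply h.htE
    have := E.sub_mem h1 h2
    simpa using this
  · intro h1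
    rcases h.hE x with h2 | h2
    · exact absurd h2 h1
    · exact h2

theorem Hyp.II' (h : Hyp t E S) {α β : Equiv.Perm G} (h1 : TF S α β)
    (ha : ∀ x, α x - x ∈ LL t S) (hb : ∀ x, β x - x ∈ LL t S) : α = β :=
  h.hII α β h1 (fun x => (h.parL (ha x)).symm) (fun x => (h.parL (hb x)).symm)

/-- `σ` swaps the `L`-cosets of `a` and `b` and fixes everything else. -/
structure Swap (L : AddSubgroup G) (σ : Equiv.Perm G) (a b : G) : Prop where
  ne : a - b ∉ L
  h1 : ∀ x, x - a ∈ L → σ x - b ∈ L
  h2 : ∀ x, x - b ∈ L → σ x - a ∈ L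
  h3 : ∀ x, x - a ∉ L → x - b ∉ L → σ x = x

theorem mem_trans {L : AddSubgroup G} {x y z : G} (h1 : x - y ∈ L) (h2 : y - z ∈ L) :
    x - z ∈ L := by
  have := L.add_mem h1 h2
  simpa using this

theorem mem_comm {L : AddSubgroup G} {x y : G} : x - y ∈ L ↔ y - x ∈ L := by
  rw [← neg_sub]; exact neg_mem_iff

theorem Swap.symm {L : AddSubgroup G} {σ : Equiv.Perm G} {a b : G} (s : Swap L σ a b) :
    Swap L σ b a :=
  ⟨fun hh => s.ne (mem_comm.mp hh), s.h2, s.h1, fun x hx hy => s.h3 x hy hx⟩

theorem Swap.congr {L : AddSubgroup G} {σ : Equiv.Perm G} {a b a' b' : G} (s : Swap L σ a b)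
    (ha : a' - a ∈ L) (hb : b' - b ∈ L) : Swap L σ a' b' := by
  refine ⟨?_, ?_, ?_, ?_⟩
  · intro hh
    exact s.ne (mem_trans (mem_comm.mp ha) (mem_trans hh hb))
  · intro x hx
    exact mem_trans (s.h1 x (mem_trans hx ha)) (mem_comm.mp hb)
  · intro x hx
    exact mem_trans (s.h2 x (mem_trans hx hb)) (mem_comm.mp ha)
  · intro x hx hy
    exact s.h3 x (fun hh => hx (mem_trans hh (mem_comm.mp ha)))
      (fun hh => hy (mem_trans hh (mem_comm.mp hb)))

variable [Fintype G]

theorem Hyp.swapConj (h : Hyp t E S) {α β σ : Equiv.Perm G} (h1 : TF S α β) {a b : G}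
    (s : Swap (LL t S) σ a b) : Swap (LL t S) (α * σ * α⁻¹) (α a) (α b) := by
  have key : ∀ x c, x - α c ∈ LL t S ↔ α⁻¹ x - c ∈ LL t S := by
    intro x c
    have := h.coset h1.inv x (α c)
    simpa using this
  refine ⟨?_, ?_, ?_, ?_⟩
  · intro hh
    exact s.ne ((h.coset h1 a b).mpr hh)
  · intro x hx
    rw [key] at hx
    have := s.h1 _ hx
    rw [h.coset h1] at this
    exact this
  · intro x hx
    rw [key] at hx
    have := s.h2 _ hx
    rw [h.coset h1] at this
    exact this
  · intro x hx hy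
    rw [key] at hx hy
    have := s.h3 _ hx hy
    rw [Equiv.Perm.mul_apply, Equiv.Perm.mul_apply, this, app_inv]

theorem Hyp.swapFlip (h : Hyp t E S) (a : G) :
    Swap (LL t S) (h.flip _ (h.hinvBase a)) a (a + t) := by
  refine ⟨?_, ?_, ?_, ?_⟩
  · intro hh
    apply h.tL
    have : a - (a + t) = -t := by abel
    rw [this, h.negt] at hh
    exact hh
  · intro x hx
    rw [h.flip_pos (h.hinvBase a) (h.LH hx)]
    have : x + t - (a + t) = x - a := by abel
    rw [this]; exact hx
  · intro x hx
    have hx' : x - a ∈ h.H := by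
      have h2 : x - a = (x - (a + t)) + t := by abel
      rw [h2]; exact h.H.add_mem (h.LH hx) h.tH
    rw [h.flip_pos (h.hinvBase a) hx']
    have : x + t - a = x - (a + t) := by
      rw [← sub_sub, h.subt]; abel
    rw [this]; exact hx
  · intro x hx hy
    apply h.flip_neg
    rintro (hh | hh)
    · exact hx hh
    · apply hy
      have : x - (a + t) = x - a + t := by rw [← sub_sub, h.subt]
      rw [this]; exact hh

/-- Commutation with translations by elements of `L`. -/
theorem Hyp.kcomm (h : Hyp t E S) {α β : Equiv.Perm G} (h1 : TF S α β) {c : G}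
    (hc : c ∈ LL t S) (a : G) : β⁻¹ (α (a + c)) = β⁻¹ (α a) + c := by
  have h2 : TF S (α * Equiv.addRight c * α⁻¹) (β * Equiv.addRight c * β⁻¹) :=
    (h1.mul (TF.tr S c)).mul h1.inv
  have e := h.II' h2 (by
    intro x
    have := h.coset1 h1 c hc (α⁻¹ x)
    simpa [Equiv.Perm.mul_apply] using this) (by
    intro x
    have := h.coset1 (h.TFsymm h1) c hc (β⁻¹ x)
    simpa [Equiv.Perm.mul_apply] using this)
  have e2 := congrArg (fun σ : Equiv.Perm G => σ (α a)) e
  simp only [Equiv.Perm.mul_apply, inv_app, Equiv.coe_addRight] at e2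
  rw [e2, inv_app]

/-- the TF-morphism `(β⁻¹α, α⁻¹β)` -/
theorem Hyp.TFk (h : Hyp t E S) {α β : Equiv.Perm G} (h1 : TF S α β) :
    TF S (β⁻¹ * α) (α⁻¹ * β) := (h.TFsymm h1).inv.mul h1

/-- Lemma T. -/
theorem Hyp.same (h : Hyp t E S) {α β : Equiv.Perm G} (h1 : TF S α β)
    (hab : ∀ a, α a - β a ∈ LL t S) : α = β := by
  have k1 : ∀ x, (β⁻¹ * α) x - x ∈ LL t S := by
    intro x
    rw [h.coset (h.TFsymm h1)]
    simpa [Equiv.Perm.mul_apply] using hab x
  have k2 : ∀ x, (α⁻¹ * β) x - x ∈ LL t S := by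
    intro x
    rw [h.coset h1]
    simpa [Equiv.Perm.mul_apply] using mem_comm.mp (hab x)
  have e := h.II' (h.TFk h1) k1 k2
  ext a
  have hd := k1 a
  set d := (β⁻¹ * α) a - a with hdd
  have e1 : (β⁻¹ * α) a = a + d := by rw [hdd]; abel
  have e2 : (β⁻¹ * α) (a + d) = a + d + d := by
    have := h.kcomm h1 hd a
    have e1' : β⁻¹ (α a) = a + d := e1
    rw [e1'] at this
    exact this
  have e3 : (β⁻¹ * α) ((β⁻¹ * α) a) = a := by
    rw [← Equiv.Perm.mul_apply]
    have : (β⁻¹ * α) * (β⁻¹ * α) = 1 := by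
      conv_lhs => lhs; rw [e]
      group
    rw [this]; rfl
  rw [e1, e2] at e3
  have hz : d + d = 0 := by
    have : a + d + d = a + (d + d) := by abel
    rw [this] at e3
    exact add_eq_left.mp e3
  have hd0 := h.half_zero (h.LE hd) hz
  rw [hd0, add_zero] at e1
  have e1' : β⁻¹ (α a) = a := e1
  rw [Equiv.Perm.inv_eq_iff_eq] at e1'
  exact e1'

/-- Key contradiction lemma. -/
theorem Hyp.KL (h : Hyp t E S) {σ₀ σ₁ : Equiv.Perm G} (h1 : TF S σ₀ σ₁) {u w e₁ e₂ : G}
    (hw : σ₀ u = w) (hwu : w - u ∉ h.H) (he₁ : e₁ = u ∨ e₁ = w) (he₂ : e₂ = u ∨ e₂ = w)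
    (hf₁ : ∀ y ∈ LL t S, σ₁ (e₁ + y) = e₁ + y)
    (hf₂ : ∀ y ∈ LL t S, σ₁ (e₂ + t + y) = e₂ + t + y) : False := by
  have hA : ∀ y ∈ LL t S, (e₁ + y - u ∈ S ↔ e₁ + y - w ∈ S) := by
    intro y hy
    have := h1 u (e₁ + y)
    rw [hf₁ y hy, hw] at this
    exact this
  have hB : ∀ y ∈ LL t S, (e₂ + t + y - u ∈ S ↔ e₂ + t + y - w ∈ S) := by
    intro y hy
    have := h1 u (e₂ + t + y)
    rw [hf₂ y hy, hw] at this
    exact this
  have hout : ∀ y ∈ LL t S, w - u + y ∉ h.H := by
    intro y hy hh
    apply hwu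
    have := h.H.sub_mem hh (h.LH hy)
    simpa using this
  have I : ∀ y ∈ LL t S, (y ∈ S ↔ w - u + y ∈ S) := by
    intro y hy
    rcases he₁ with rfl | rfl
    · have := hA (-y) ((LL t S).neg_mem hy)
      have e1 : e₁ + -y - e₁ = -y := by abel
      have e2 : e₁ + -y - w = -(w - e₁ + y) := by abel
      rw [e1, e2, ← h.memS, ← h.memS] at this
      exact this
    · have := hA y hy
      have e1 : e₁ + y - e₁ = y := by abel
      have e2 : e₁ + y - u = e₁ - u + y := by abel
      rw [e1, e2] at this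
      exact this.symm
  have II : ∀ y ∈ LL t S, (y + t ∈ S ↔ w - u + y ∈ S) := by
    intro y hy
    rcases he₂ with rfl | rfl
    · have := hB (-y) ((LL t S).neg_mem hy)
      have e1 : e₂ + t + -y - e₂ = -(y + t) := by
        rw [neg_add, h.negt]; abel
      have e2 : e₂ + t + -y - w = -(w - e₂ + y + t) := by
        rw [neg_add (w - e₂ + y), h.negt]; abel
      rw [e1, e2, ← h.memS, ← h.memS] at this
      rw [this]
      exact (h.outH (hout y hy)).symm
    · have := hB y hy
      have e1 : e₂ + t + y - e₂ = y + t := by abel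
      have e2 : e₂ + t + y - u = e₂ - u + y + t := by abel
      rw [e1, e2] at this
      rw [← this]
      exact (h.outH (hout y hy)).symm
  apply h.contraL
  intro y hy
  rw [I y hy, II y hy]

theorem Hyp.conjPar (h : Hyp t E S) {σ : Equiv.Perm G} {a b : G} (s : Swap (LL t S) σ a b)
    (hab : a - b ∉ h.H) (hpar : ¬ (a ∈ E ↔ b ∈ E)) {p : G → Prop} (hp : h.HInv p)
    (hpa : ∀ x, p x ↔ x - a ∈ h.H) (x : G) :
    x ∈ E ↔ (h.flip p hp * σ * h.flip p hp) x ∈ E := by
  have hpar' : (a + t ∈ E ↔ b ∈ E) := by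
    rw [h.part]; tauto
  have hb : ∀ y, y - b ∈ LL t S → ¬ p y := by
    intro y hy hpy
    rw [hpa] at hpy
    apply hab
    have := mem_trans (mem_comm.mp hpy) (h.LH hy)
    exact this
  simp only [Equiv.Perm.mul_apply]
  by_cases hx : p x
  · rw [h.flip_pos hp hx]
    have hx' := (hpa x).mp hx
    rcases hx' with hxa | hxa
    · -- x in a + L
      have f1 : x + t - a ∉ LL t S := by
        intro hh
        apply h.tL
        have := (LL t S).sub_mem hh hxa
        have e : x + t - a - (x - a) = t := by abel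
        rwa [e] at this
      have f2 : x + t - b ∉ LL t S := by
        intro hh
        exact hb _ hh ((hp.addt x).mpr hx)
      rw [s.h3 _ f1 f2, h.flip_pos hp ((hp.addt x).mpr hx), h.addtt]
    · have f1 : x + t - a ∈ LL t S := by
        have e : x + t - a = x - a + t := by abel
        rw [e]; exact hxa
      have f2 := s.h1 _ f1
      rw [h.flip_neg hp (hb _ f2)]
      rw [h.parL f2, ← hpar']
      apply h.parL
      have e : x - (a + t) = x - a + t := by rw [← sub_sub, h.subt]
      rw [e]; exact hxa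
  · rw [h.flip_neg hp hx]
    have f1 : x - a ∉ LL t S := fun hh => hx ((hpa x).mpr (h.LH hh))
    by_cases hxb : x - b ∈ LL t S
    · have f2 := s.h2 _ hxb
      have f3 : p (σ x) := (hpa _).mpr (h.LH f2)
      rw [h.flip_pos hp f3]
      rw [h.parL hxb, ← hpar']
      apply h.parL
      have e : a + t - (σ x + t) = a - σ x := by abel
      rw [e]; exact mem_comm.mp f2
    · rw [s.h3 _ f1 hxb, h.flip_neg hp hx]

theorem Hyp.swapPar (h : Hyp t E S) {σ : Equiv.Perm G} {a b : G} (s : Swap (LL t S) σ a b)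
    (hpar : a ∈ E ↔ b ∈ E) (x : G) : x ∈ E ↔ σ x ∈ E := by
  by_cases f1 : x - a ∈ LL t S
  · rw [h.parL f1, hpar]
    exact (h.parL (s.h1 _ f1)).symm
  · by_cases f2 : x - b ∈ LL t S
    · rw [h.parL f2, ← hpar]
      exact (h.parL (s.h2 _ f2)).symm
    · rw [s.h3 _ f1 f2]

/-- Lemma N. -/
theorem Hyp.lemN (h : Hyp t E S) {σ₀ σ₁ : Equiv.Perm G} (h1 : TF S σ₀ σ₁) {a b a' b' : G}
    (s₀ : Swap (LL t S) σ₀ a b) (s₁ : Swap (LL t S) σ₁ a' b') (hab : a - b ∉ h.H) :
    (a' - a ∈ LL t S ∧ b' - b ∈ LL t S) ∨ (a' - b ∈ LL t S ∧ b' - a ∈ LL t S) := by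
  set w := σ₀ a with hw
  have hwb : w - b ∈ LL t S := s₀.h1 a (by simp)
  have hwa : w - a ∉ h.H := by
    intro hh
    apply hab
    have := mem_trans (mem_comm.mp hh) (h.LH hwb)
    exact this
  -- moved cosets
  have fixd : ∀ e, e - a' ∉ LL t S → e - b' ∉ LL t S → ∀ y ∈ LL t S, σ₁ (e + y) = e + y := by
    intro e he1 he2 y hy
    apply s₁.h3
    · intro hh
      apply he1
      have := (LL t S).sub_mem hh hy
      have e0 : e + y - a' - y = e - a' := by abel
      rwa [e0] at this
    · intro hh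
      apply he2
      have := (LL t S).sub_mem hh hy
      have e0 : e + y - b' - y = e - b' := by abel
      rwa [e0] at this
  have alt : ∀ e₁ e₂, (e₁ = a ∨ e₁ = w) → (e₂ = a ∨ e₂ = w) →
      (e₁ - a' ∈ LL t S ∨ e₁ - b' ∈ LL t S) ∨ (e₂ + t - a' ∈ LL t S ∨ e₂ + t - b' ∈ LL t S) := by
    intro e₁ e₂ he₁ he₂
    by_contra hcon
    push Not at hcon
    exact h.KL h1 rfl hwa he₁ he₂ (fixd e₁ hcon.1.1 hcon.1.2) (fixd (e₂ + t) hcon.2.1 hcon.2.2)
  have haw : a - w ∉ LL t S := fun hh => hwa (h.LH (mem_comm.mp hh))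
  by_cases c1 : (a - a' ∈ LL t S ∨ a - b' ∈ LL t S) ∧ (w - a' ∈ LL t S ∨ w - b' ∈ LL t S)
  · obtain ⟨c2, c3⟩ := c1
    rcases c2 with c2 | c2
    · rcases c3 with c3 | c3
      · exact absurd (mem_trans c2 (mem_comm.mp c3)) haw
      · left
        exact ⟨mem_comm.mp c2, mem_trans (mem_comm.mp c3) hwb⟩
    · rcases c3 with c3 | c3
      · right
        exact ⟨mem_trans (mem_comm.mp c3) hwb, mem_comm.mp c2⟩
      · exact absurd (mem_trans c2 (mem_comm.mp c3)) haw
  · exfalso
    have c4 : ∀ e₂, (e₂ = a ∨ e₂ = w) → (e₂ + t - a' ∈ LL t S ∨ e₂ + t - b' ∈ LL t S) := by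
      intro e₂ he₂
      rw [not_and_or] at c1
      rcases c1 with c1 | c1
      · exact (alt a e₂ (Or.inl rfl) he₂).resolve_left c1
      · exact (alt w e₂ (Or.inr rfl) he₂).resolve_left c1
    have d1 := c4 a (Or.inl rfl)
    have d2 := c4 w (Or.inr rfl)
    have hne : a + t - (w + t) ∉ LL t S := by
      have e : a + t - (w + t) = a - w := by abel
      rw [e]; exact haw
    -- σ₁ swaps a + t and b + t
    have s₁' : Swap (LL t S) σ₁ (a + t) (b + t) := by
      have hbw : b + t - (w + t) ∈ LL t S := by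
        have e : b + t - (w + t) = b - w := by abel
        rw [e]; exact mem_comm.mp hwb
      rcases d1 with d1 | d1
      · rcases d2 with d2 | d2
        · exact absurd (mem_trans d1 (mem_comm.mp d2)) hne
        · exact s₁.congr d1 (mem_trans hbw d2)
      · rcases d2 with d2 | d2
        · exact s₁.symm.congr d1 (mem_trans hbw d2)
        · exact absurd (mem_trans d1 (mem_comm.mp d2)) hne
    have heq : σ₀ = σ₁ := by
      by_cases hpar : a ∈ E ↔ b ∈ E
      · apply h.hII σ₀ σ₁ h1 (h.swapPar s₀ hpar)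
        apply h.swapPar s₁'
        rw [h.part, h.part, hpar]
      · have hp := h.hinvBase a
        have k := h.hII _ _ (((h.TFflip hp).mul h1).mul (h.TFflip hp))
          (h.conjPar s₀ hab hpar hp (fun x => Iff.rfl))
          (h.conjPar s₁' (by
            have e : a + t - (b + t) = a - b := by abel
            rw [e]; exact hab) (by
            rw [h.part, h.part]; tauto) hp (fun x => by
              have e : x - (a + t) = x - a + t := by rw [← sub_sub, h.subt]
              show x - a ∈ h.H ↔ _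
              rw [e, h.addtH]))
        have k2 := mul_right_cancel k
        exact mul_left_cancel k2
    have f1 : σ₁ a = a := by
      apply s₁'.h3
      · intro hh
        apply h.tL
        have e : a - (a + t) = -t := by abel
        rw [e, h.negt] at hh; exact hh
      · intro hh
        apply hab
        right
        have e : a - b + t = a - (b + t) := by rw [← sub_sub, h.subt]
        rw [e]; exact hh
    rw [← heq] at f1
    apply haw
    rw [hw, f1]; simp

/-- Lemma S. -/
theorem Hyp.lemS (h : Hyp t E S) {σ₀ σ₁ : Equiv.Perm G} (h1 : TF S σ₀ σ₁) {a b a' b' : G}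
    (s₀ : Swap (LL t S) σ₀ a b) (s₁ : Swap (LL t S) σ₁ a' b') :
    (a' - a ∈ LL t S ∧ b' - b ∈ LL t S) ∨ (a' - b ∈ LL t S ∧ b' - a ∈ LL t S) := by
  by_cases hab : a - b ∈ h.H
  swap
  · exact h.lemN h1 s₀ s₁ hab
  by_cases hab' : a' - b' ∈ h.H
  swap
  · have := h.lemN (h.TFsymm h1) s₁ s₀ hab'
    rcases this with ⟨k1, k2⟩ | ⟨k1, k2⟩
    · exact Or.inl ⟨mem_comm.mp k1, mem_comm.mp k2⟩
    · exact Or.inr ⟨mem_comm.mp k2, mem_comm.mp k1⟩
  have htab : a - b + t ∈ LL t S := by
    rcases hab with k | k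
    · exact absurd k s₀.ne
    · exact k
  have htab' : a' - b' + t ∈ LL t S := by
    rcases hab' with k | k
    · exact absurd k s₁.ne
    · exact k
  by_cases haa : a' - a ∈ h.H
  · rcases haa with k | k
    · left
      refine ⟨k, ?_⟩
      -- b' ≡ a' + t ≡ a + t ≡ b
      have e : b' - b = -(a' - b' + t) + (a' - a) + (a - b + t) := by abel
      rw [e]
      exact (LL t S).add_mem ((LL t S).add_mem ((LL t S).neg_mem htab') k) htab
    · right
      constructor
      · have e : a' - b = (a' - a + t) + (a - b + t) := by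
          have : (a' - a + t) + (a - b + t) = a' - b + (t + t) := by abel
          rw [this, h.ht, add_zero]
        rw [e]; exact (LL t S).add_mem k htab
      · have e : b' - a = -(a' - b' + t) + (a' - a + t) := by abel
        rw [e]
        exact (LL t S).add_mem ((LL t S).neg_mem htab') k
  · exfalso
    -- σ₁ fixes a + H pointwise
    have hfix : ∀ x ∈ h.H, σ₁ (a + x) = a + x := by
      intro x hx
      apply s₁.h3
      · intro hh
        apply haa
        have k1 : a' - a = -(a + x - a') + x := by abel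
        rw [k1]
        exact h.H.add_mem (h.H.neg_mem (h.LH hh)) hx
      · intro hh
        apply haa
        have k1 : a' - a = (a' - b') + (-(a + x - b') + x) := by abel
        rw [k1]
        exact h.H.add_mem hab' (h.H.add_mem (h.H.neg_mem (h.LH hh)) hx)
    set w := σ₀ a with hw
    have hwb : w - b ∈ LL t S := s₀.h1 a (by simp)
    set g := w - a with hg
    have hgt : g + t ∈ LL t S := by
      have e : g + t = (w - b) + -(a - b + t) + (t + t) := by rw [hg]; abel
      rw [e, h.ht, add_zero]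
      exact (LL t S).add_mem hwb ((LL t S).neg_mem htab)
    have hgH : g ∈ h.H := Or.inr hgt
    have step : ∀ x ∈ h.H, (x ∈ S ↔ x - g ∈ S) := by
      intro x hx
      have := h1 a (a + x)
      rw [hfix x hx, ← hw] at this
      have e1 : a + x - a = x := by abel
      have e2 : a + x - w = x - g := by rw [hg]; abel
      rw [e1, e2] at this
      exact this
    have iter : ∀ n : ℕ, ∀ x ∈ h.H, (x ∈ S ↔ x - n • g ∈ S) := by
      intro n
      induction n with
      | zero => intro x _; simp
      | succ n ih =>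
        intro x hx
        rw [ih x hx, step _ (h.H.sub_mem hx (h.H.nsmul_mem hgH n))]
        have e : x - n • g - g = x - (n + 1) • g := by rw [succ_nsmul]; abel
        rw [e]
    obtain ⟨k, hk⟩ := h.hodd
    have hng : (2 * k + 1) • g = t := by
      have e0 : g = (g + t) + t := by rw [h.addtt]
      have e1 : (2 * k + 1) • t = t := by
        rw [succ_nsmul, mul_nsmul, two_nsmul, h.ht]
        simp
      rw [e0, nsmul_add, hk _ (h.LE hgt), zero_add, e1]
    apply h.contraL
    intro y hy
    rw [iter (2 * k + 1) y (h.LH hy), hng, h.subt]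

end Pool.Agent.R14.TII
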