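import Mathlib

/-!
Permutation groups `W` of a finite cyclic group `G` containing the translations:
invariant sets of differences, Frobenius and Schur.
-/

namespace Pool.Agent.R14.TII.Z

open scoped Classical

set_option linter.unusedSectionVars false

variable {G : Type*} [AddCommGroup G]

theorem iapp (w : Equiv.Perm G) (x : G) : w⁻¹ (w x) = x := w.symm_apply_apply x

theorem appi (w : Equiv.Perm G) (x : G) : w (w⁻¹ x) = x := w.apply_symm_apply x

/-- `W` contains the translations -/
def HasTr (W : Subgroup (Equiv.Perm G)) : Prop := ∀ c : G, Equiv.addRight c ∈ W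

/-- an invariant set of differences -/
def InvS (W : Subgroup (Equiv.Perm G)) (D : Set G) : Prop :=
  ∀ w ∈ W, ∀ u v, (v - u ∈ D ↔ w v - w u ∈ D)

/-- an invariant function of differences -/
def InvFn (W : Subgroup (Equiv.Perm G)) {R : Type*} (f : G → R) : Prop :=
  ∀ w ∈ W, ∀ u v, f (w v - w u) = f (v - u)

variable {W : Subgroup (Equiv.Perm G)}

theorem InvS.of_imp {D : Set G} (h : ∀ w ∈ W, ∀ u v, (v - u ∈ D → w v - w u ∈ D)) :
    InvS W D := by
  intro w hw u v
  refine ⟨h w hw u v, ?_⟩
  intro hh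
  have := h w⁻¹ (W.inv_mem hw) (w u) (w v) hh
  rwa [iapp, iapp] at this

theorem InvS.add {A : AddSubgroup G} (hA : InvS W (A : Set G)) {w : Equiv.Perm G} (hw : w ∈ W)
    (u : G) {c : G} (hc : c ∈ A) : w (u + c) - w u ∈ A := by
  have := (hA w hw u (u + c)).mp (by rw [add_sub_cancel_left]; exact hc)
  exact this

theorem InvS.closure {D : Set G} (hD : InvS W D) :
    InvS W (AddSubgroup.closure D : Set G) := by
  have key : ∀ w ∈ W, ∀ d ∈ AddSubgroup.closure D, ∀ a,
      w (a + d) - w a ∈ AddSubgroup.closure D := by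
    intro w hw d hd
    induction hd using AddSubgroup.closure_induction with
    | mem x hx =>
      intro a
      apply AddSubgroup.subset_closure
      rw [← hD w hw]
      have e : a + x - a = x := by abel
      rw [e]; exact hx
    | zero => intro a; rw [add_zero, sub_self]; exact AddSubgroup.zero_mem _
    | add x y _ _ hx hy =>
      intro a
      have e : w (a + (x + y)) - w a = (w (a + x + y) - w (a + x)) + (w (a + x) - w a) := by
        rw [add_assoc]; abel
      rw [e]; exact AddSubgroup.add_mem _ (hy _) (hx _)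
    | neg x _ hx =>
      intro a
      have e : w (a + -x) - w a = -(w (a + -x + x) - w (a + -x)) := by
        rw [neg_add_cancel_right]; abel
      rw [e]; exact AddSubgroup.neg_mem _ (hx _)
  apply InvS.of_imp
  intro w hw u v hx
  have := key w hw _ hx u
  rwa [add_sub_cancel] at this

theorem InvS.inf {A B : AddSubgroup G} (hA : InvS W (A : Set G)) (hB : InvS W (B : Set G)) :
    InvS W ((A ⊓ B : AddSubgroup G) : Set G) := by
  apply InvS.of_imp
  intro w hw u v hx
  exact ⟨(hA w hw u v).mp hx.1, (hB w hw u v).mp hx.2⟩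

theorem InvS.sup {A B : AddSubgroup G} (hA : InvS W (A : Set G)) (hB : InvS W (B : Set G)) :
    InvS W ((A ⊔ B : AddSubgroup G) : Set G) := by
  have e : A ⊔ B = AddSubgroup.closure ((A : Set G) ∪ B) := by
    rw [AddSubgroup.closure_union, AddSubgroup.closure_eq, AddSubgroup.closure_eq]
  rw [e]
  apply InvS.closure
  apply InvS.of_imp
  intro w hw u v hx
  rcases hx with hx | hx
  · exact Or.inl ((hA w hw u v).mp hx)
  · exact Or.inr ((hB w hw u v).mp hx)

/-- the linking subgroup of a pair `(C, B)` -/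
def Lk (W : Subgroup (Equiv.Perm G)) (C B : AddSubgroup G) : AddSubgroup G where
  carrier := {c | ∀ w ∈ W, ∀ u, ∀ v ∈ C, w (u + c + v) - w (u + c) - (w (u + v) - w u) ∈ B}
  zero_mem' := by
    intro w _ u v _
    rw [add_zero, sub_self]; exact B.zero_mem
  add_mem' := by
    intro c d hc hd w hw u v hv
    have h1 := hd w hw (u + c) v hv
    have h2 := hc w hw u v hv
    have e : w (u + (c + d) + v) - w (u + (c + d)) - (w (u + v) - w u)
        = (w (u + c + d + v) - w (u + c + d) - (w (u + c + v) - w (u + c)))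
          + (w (u + c + v) - w (u + c) - (w (u + v) - w u)) := by
      rw [add_assoc u c d]; abel
    rw [e]; exact B.add_mem h1 h2
  neg_mem' := by
    intro c hc w hw u v hv
    have h1 := hc w hw (u + -c) v hv
    rw [neg_add_cancel_right] at h1
    have e : w (u + -c + v) - w (u + -c) - (w (u + v) - w u)
        = -(w (u + v) - w u - (w (u + -c + v) - w (u + -c))) := by abel
    rw [e]; exact B.neg_mem h1

theorem mem_Lk {C B : AddSubgroup G} {c : G} : c ∈ Lk W C B ↔
    ∀ w ∈ W, ∀ u, ∀ v ∈ C, w (u + c + v) - w (u + c) - (w (u + v) - w u) ∈ B := Iff.rfl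

/-- the linking subgroup is invariant -/
theorem Lk_inv (hW : HasTr W) {C B : AddSubgroup G} (hC : InvS W (C : Set G))
    (hB : InvS W (B : Set G)) : InvS W (Lk W C B : Set G) := by
  apply InvS.of_imp
  intro z hz u0 v0 hc w hw u v hv
  set w' : Equiv.Perm G := w * Equiv.addRight (u - z u0) with hw'
  have hw'W : w' ∈ W := W.mul_mem hw (hW _)
  have hwv : ∀ y, w (u + y) = w' (z u0 + y) := by
    intro y
    rw [hw', Equiv.Perm.mul_apply, Equiv.coe_addRight]
    have e0 : z u0 + y + (u - z u0) = u + y := by abel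
    show w (u + y) = w (z u0 + y + (u - z u0))
    rw [e0]
  have e1 : w (u + (z v0 - z u0) + v) = w' (z v0 + v) := by
    have : u + (z v0 - z u0) + v = u + ((z v0 - z u0) + v) := by abel
    rw [this, hwv]; congr 1; abel
  have e2 : w (u + (z v0 - z u0)) = w' (z v0) := by
    rw [hwv]; congr 1; abel
  have e3 : w (u + v) = w' (z u0 + v) := hwv v
  have e4 : w u = w' (z u0) := by
    have := hwv 0
    rwa [add_zero, add_zero] at this
  rw [e1, e2, e3, e4]
  -- v'
  set v' : G := z⁻¹ (z v0 + v) - v0 with hv'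
  have hzv : z (v0 + v') = z v0 + v := by
    rw [hv', add_sub_cancel, appi]
  have hv'C : v' ∈ C := by
    have := (hC z hz v0 (v0 + v')).mpr (by
      rw [hzv, add_sub_cancel_left]; exact hv)
    rwa [add_sub_cancel_left] at this
  have k1 := hc z hz u0 v' hv'C
  have e5 : u0 + (v0 - u0) = v0 := by abel
  rw [e5, hzv, add_sub_cancel_left] at k1
  -- z (u0 + v') = z u0 + v - b
  have k2 := hc (w' * z) (W.mul_mem hw'W hz) u0 v' hv'C
  rw [e5] at k2
  simp only [Equiv.Perm.mul_apply] at k2
  rw [hzv] at k2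
  have k3 : w' (z u0 + v) - w' (z (u0 + v')) ∈ B := by
    rw [← SetLike.mem_coe, ← hB w' hw'W]
    have e6 : z u0 + v - z (u0 + v') = v - (z (u0 + v') - z u0) := by abel
    rw [e6]; exact k1
  have e7 : w' (z v0 + v) - w' (z v0) - (w' (z u0 + v) - w' (z u0))
      = (w' (z v0 + v) - w' (z v0) - (w' (z (u0 + v')) - w' (z u0)))
        - (w' (z u0 + v) - w' (z (u0 + v'))) := by abel
  rw [e7]
  exact B.sub_mem k2 k3

/-- an invariant subgroup `A` with `C ⊓ A ≤ B` lies in the linking subgroup -/
theorem le_Lk {C B A : AddSubgroup G} (hC : InvS W (C : Set G)) (hA : InvS W (A : Set G))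
    (h : C ⊓ A ≤ B) : A ≤ Lk W C B := by
  intro c hc w hw u v hv
  apply h
  constructor
  · exact C.sub_mem (hC.add hw _ hv) (hC.add hw _ hv)
  · have e : w (u + c + v) - w (u + c) - (w (u + v) - w u)
        = (w (u + v + c) - w (u + v)) - (w (u + c) - w u) := by
      have : u + c + v = u + v + c := by abel
      rw [this]; abel
    rw [e]
    exact A.sub_mem (hA.add hw _ hc) (hA.add hw _ hc)

/-- the orbit of `x` under the stabiliser of `0` -/
def orb (W : Subgroup (Equiv.Perm G)) (x : G) : Set G := {y | ∃ w ∈ W, w 0 = 0 ∧ w x = y}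

theorem orb_self (x : G) : x ∈ orb W x := ⟨1, W.one_mem, rfl, rfl⟩

/-- the conjugate of `w` by translations, fixing `0` -/
theorem loc_mem (hW : HasTr W) {w : Equiv.Perm G} (hw : w ∈ W) (u : G) :
    ∃ w' ∈ W, w' 0 = 0 ∧ ∀ y, w' y = w (u + y) - w u := by
  refine ⟨Equiv.addRight (-(w u)) * w * Equiv.addRight u,
    W.mul_mem (W.mul_mem (hW _) hw) (hW _), ?_, ?_⟩
  · simp [Equiv.Perm.mul_apply]
  · intro y
    simp only [Equiv.Perm.mul_apply, Equiv.coe_addRight]
    rw [add_comm y u, sub_eq_add_neg]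

theorem orb_inv (hW : HasTr W) (x : G) : InvS W (orb W x) := by
  apply InvS.of_imp
  rintro w hw u v ⟨w', hw', h0, hx⟩
  obtain ⟨w'', hw'', h0'', hl⟩ := loc_mem hW hw u
  refine ⟨w'' * w', W.mul_mem hw'' hw', ?_, ?_⟩
  · rw [Equiv.Perm.mul_apply, h0, h0'']
  · rw [Equiv.Perm.mul_apply, hx, hl, add_sub_cancel]

theorem orb_min {D : Set G} (hD : InvS W D) {x : G} (hx : x ∈ D) : orb W x ⊆ D := by
  rintro y ⟨w, hw, h0, rfl⟩
  have := (hD w hw 0 x).mp (by rw [sub_zero]; exact hx)
  rwa [h0, sub_zero] at this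

theorem orb_symm {x y : G} (h : y ∈ orb W x) : x ∈ orb W y := by
  obtain ⟨w, hw, h0, rfl⟩ := h
  refine ⟨w⁻¹, W.inv_mem hw, ?_, iapp w x⟩
  have := iapp w 0
  rwa [h0] at this

theorem orb_eq (hW : HasTr W) {x y : G} (h : y ∈ orb W x) : orb W y = orb W x :=
  Set.Subset.antisymm (orb_min (orb_inv hW x) h) (orb_min (orb_inv hW y) (orb_symm h))

theorem InvFn.orb {R : Type*} {f : G → R} (hf : InvFn W f) {x y : G} (h : y ∈ orb W x) :
    f y = f x := by
  obtain ⟨w, hw, h0, rfl⟩ := h
  have := hf w hw 0 x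
  rwa [h0, sub_zero, sub_zero] at this

section finite

variable [Fintype G]

/-- convolution -/
noncomputable def conv {R : Type*} [CommRing R] (f g : G → R) (z : G) : R :=
  ∑ x, f x * g (z - x)

theorem InvFn.conv {R : Type*} [CommRing R] {f g : G → R} (hf : InvFn W f) (hg : InvFn W g) :
    InvFn W (conv f g) := by
  intro w hw u v
  unfold Pool.Agent.R14.TII.Z.conv
  rw [← Equiv.sum_comp (w.trans (Equiv.subRight (w u)))]
  rw [← Equiv.sum_comp (Equiv.subRight u) (fun x => f x * g (v - u - x))]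
  apply Finset.sum_congr rfl
  intro y _
  simp only [Equiv.trans_apply, Equiv.subRight_apply]
  have e1 : w v - w u - (w y - w u) = w v - w y := by abel
  have e2 : v - u - (y - u) = v - y := by abel
  rw [e1, e2, hf w hw, hg w hw]

/-- the element of the group algebra -/
noncomputable def toAlg {R : Type*} [CommRing R] (f : G → R) : AddMonoidAlgebra R G :=
  ∑ x, AddMonoidAlgebra.single x (f x)

theorem toAlg_coeff {R : Type*} [CommRing R] (f : G → R) (z : G) :
    (toAlg f).coeff z = f z := by
  unfold toAlg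
  rw [AddMonoidAlgebra.coeff_sum, Finsupp.finsetSum_apply]
  simp [AddMonoidAlgebra.coeff_single, Finsupp.single_apply]

theorem toAlg_mul {R : Type*} [CommRing R] (f g : G → R) :
    toAlg f * toAlg g = toAlg (conv f g) := by
  unfold toAlg Pool.Agent.R14.TII.Z.conv
  rw [Finset.sum_mul]
  have h1 : ∀ x : G, AddMonoidAlgebra.single x (f x) * (∑ y, AddMonoidAlgebra.single y (g y))
      = ∑ z : G, AddMonoidAlgebra.single z (f x * g (z - x)) := by
    intro x
    rw [Finset.mul_sum, ← Equiv.sum_comp (Equiv.subRight x)]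
    apply Finset.sum_congr rfl
    intro z _
    rw [AddMonoidAlgebra.single_mul_single, Equiv.subRight_apply, add_sub_cancel]
  rw [Finset.sum_congr rfl (fun x _ => h1 x), Finset.sum_comm]
  apply Finset.sum_congr rfl
  intro z _
  ext w
  rw [AddMonoidAlgebra.coeff_sum, Finsupp.finsetSum_apply]
  simp only [AddMonoidAlgebra.coeff_single, Finsupp.single_apply]
  by_cases hzw : z = w
  · simp [hzw]
  · simp [hzw]

theorem InvFn.pow {R : Type*} [CommRing R] {f : G → R} (hf : InvFn W f) (k : ℕ) :
    ∃ g : G → R, InvFn W g ∧ toAlg f ^ k = toAlg g := by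
  induction k with
  | zero =>
    refine ⟨fun z => if z = 0 then 1 else 0, ?_, ?_⟩
    · intro w hw u v
      have : w v - w u = 0 ↔ v - u = 0 := by
        rw [sub_eq_zero, sub_eq_zero]
        exact w.injective.eq_iff
      simp only [this]
    · rw [pow_zero]
      unfold toAlg
      rw [AddMonoidAlgebra.one_def]
      rw [Finset.sum_eq_single (0 : G)]
      · simp
      · intro b _ hb
        simp [hb]
      · intro hh; exact absurd (Finset.mem_univ _) hh
  | succ k ih =>
    obtain ⟨g, hg, hk⟩ := ih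
    exact ⟨Pool.Agent.R14.TII.Z.conv g f, hg.conv hf, by rw [pow_succ, hk, toAlg_mul]⟩

/-- the Frobenius transform of `f` -/
noncomputable def Fr {R : Type*} [CommRing R] (l : ℕ) (f : G → R) (z : G) : R :=
  ∑ x, if l • x = z then f x else 0

theorem InvFn.frob {l : ℕ} [hl : Fact l.Prime] {f : G → ZMod l} (hf : InvFn W f) :
    InvFn W (Fr l f) := by
  obtain ⟨g, hg, hk⟩ := hf.pow l
  have : CharP (AddMonoidAlgebra (ZMod l) G) l :=
    charP_of_injective_algebraMap (algebraMap (ZMod l) (AddMonoidAlgebra (ZMod l) G)).injective l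
  have hp : toAlg f ^ l = toAlg (Fr l f) := by
    unfold toAlg
    rw [sum_pow_char]
    simp only [AddMonoidAlgebra.single_pow, ZMod.pow_card]
    unfold Fr
    ext z
    rw [AddMonoidAlgebra.coeff_sum, AddMonoidAlgebra.coeff_sum, Finsupp.finsetSum_apply,
      Finsupp.finsetSum_apply]
    simp only [AddMonoidAlgebra.coeff_single, Finsupp.single_apply]
    rw [Finset.sum_ite_eq' Finset.univ z]
    simp
  have h2 : g = Fr l f := by
    funext z
    rw [← toAlg_coeff g z, ← toAlg_coeff (Fr l f) z, ← hk, hp]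
  rw [← h2]; exact hg

/-- indicator function -/
noncomputable def ind (l : ℕ) (D : Set G) (x : G) : ZMod l := if x ∈ D then 1 else 0

theorem ind_inv {D : Set G} (hD : InvS W D) (l : ℕ) : InvFn W (ind l D) := by
  intro w hw u v
  unfold ind
  simp only [← hD w hw u v]

/-- support of the Frobenius transform of a set -/
def FS (l : ℕ) (D : Set G) : Set G := {z | Fr l (ind l D) z ≠ 0}

theorem FS_inv {D : Set G} (hD : InvS W D) (l : ℕ) [Fact l.Prime] : InvS W (FS l D) := by
  intro w hw u v
  unfold FS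
  simp only [Set.mem_ofPred_eq]
  rw [(ind_inv hD l).frob w hw]

theorem Fr_ind (l : ℕ) (D : Set G) (z : G) :
    Fr l (ind l D) z = ((Finset.univ.filter (fun y => l • y = z ∧ y ∈ D)).card : ZMod l) := by
  unfold Fr ind
  rw [← Finset.sum_filter, ← Finset.sum_filter, Finset.filter_filter, Finset.sum_const,
    nsmul_eq_mul, mul_one]

theorem mem_FS {l : ℕ} {D : Set G} {z : G} :
    z ∈ FS l D ↔ ¬ (l ∣ (Finset.univ.filter (fun y => l • y = z ∧ y ∈ D)).card) := by
  unfold FS
  rw [Set.mem_ofPred_eq, Fr_ind, Ne, ZMod.natCast_eq_zero_iff]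

theorem FS_sub {l : ℕ} {D : Set G} {z : G} (hz : z ∈ FS l D) : ∃ y ∈ D, l • y = z := by
  rw [mem_FS] at hz
  by_contra hcon
  push Not at hcon
  apply hz
  have : (Finset.univ.filter (fun y => l • y = z ∧ y ∈ D)) = ∅ := by
    apply Finset.filter_eq_empty_iff.mpr
    intro y _ ⟨h1, h2⟩
    exact hcon y h2 h1
  rw [this, Finset.card_empty]
  exact dvd_zero l

/-- Schur: invariant sets are permuted by the multipliers coprime to `|G|` -/
theorem schur (r : ℕ) : r.Coprime (Nat.card G) → ∀ D : Set G, InvS W D →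
    InvS W {z | ∃ x ∈ D, r • x = z} := by
  induction r using Nat.recOnMul with
  | zero =>
    intro h0 D _
    rw [Nat.coprime_zero_left] at h0
    have : Subsingleton G := (Nat.card_eq_one_iff_unique.mp h0).1
    intro w _ u v
    have e : v - u = w v - w u := Subsingleton.elim _ _
    rw [e]
  | one =>
    intro _ D hD
    have : {z | ∃ x ∈ D, 1 • x = z} = D := by
      ext z
      simp
    rw [this]; exact hD
  | prime p hp =>
    intro hcop D hD
    have : Fact p.Prime := ⟨hp⟩
    have hinj : Function.Injective (fun x : G => p • x) := by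
      intro x y hxy
      have h1 : p • (x - y) = 0 := by
        rw [nsmul_sub]; exact sub_eq_zero.mpr hxy
      have h2 : addOrderOf (x - y) ∣ p := addOrderOf_dvd_of_nsmul_eq_zero h1
      have h3 : addOrderOf (x - y) ∣ Nat.card G := addOrderOf_dvd_natCard _
      have h4 : addOrderOf (x - y) = 1 := Nat.eq_one_of_dvd_coprimes hcop h2 h3
      rw [AddMonoid.addOrderOf_eq_one_iff] at h4
      exact sub_eq_zero.mp h4
    have e : {z | ∃ x ∈ D, p • x = z} = FS p D := by
      ext z
      constructor
      · rintro ⟨x, hx, rfl⟩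
        rw [mem_FS]
        have : (Finset.univ.filter (fun y => p • y = p • x ∧ y ∈ D)) = {x} := by
          ext y
          simp only [Finset.mem_filter, Finset.mem_univ, true_and, Finset.mem_singleton]
          constructor
          · rintro ⟨h1, _⟩
            exact hinj h1
          · rintro rfl
            exact ⟨rfl, hx⟩
        rw [this, Finset.card_singleton]
        exact hp.one_lt.ne' ∘ Nat.dvd_one.mp
      · intro hz
        exact FS_sub hz
    rw [e]
    exact FS_inv hD p
  | mul a b ha hb =>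
    intro hcop D hD
    have h1 := hb (Nat.Coprime.coprime_mul_left hcop) D hD
    have h2 := ha (Nat.Coprime.coprime_mul_right hcop) _ h1
    have e : {z | ∃ x ∈ D, (a * b) • x = z}
        = {z | ∃ x ∈ {z | ∃ x ∈ D, b • x = z}, a • x = z} := by
      ext z
      simp only [Set.mem_ofPred_eq]
      constructor
      · rintro ⟨x, hx, rfl⟩
        exact ⟨b • x, ⟨x, hx, rfl⟩, (mul_nsmul' x a b).symm⟩
      · rintro ⟨_, ⟨x, hx, rfl⟩, rfl⟩
        exact ⟨x, hx, mul_nsmul' x a b⟩
    rw [e]; exact h2

/-- `1 + κ` is coprime to `|G|` -/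
theorem coprime_succ {n κ : ℕ} (hκ : ∀ p : ℕ, p.Prime → p ∣ n → p ∣ κ) : (1 + κ).Coprime n := by
  apply Nat.Coprime.symm
  rw [Nat.coprime_iff_gcd_eq_one]
  by_contra hne
  obtain ⟨p, hp, hd⟩ := Nat.exists_prime_and_dvd hne
  have h1 : p ∣ n := hd.trans (Nat.gcd_dvd_left _ _)
  have h2 : p ∣ 1 + κ := hd.trans (Nat.gcd_dvd_right _ _)
  have h3 := hκ p hp h1
  have h4 : p ∣ 1 := (Nat.dvd_add_left h3).mp h2
  exact hp.one_lt.ne' (Nat.dvd_one.mp h4)

/-- Lemma R -/
theorem lemR (hW : HasTr W) {κ : ℕ} (hκ : ∀ p : ℕ, p.Prime → p ∣ Nat.card G → p ∣ κ) {x : G}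
    (hx : x + κ • x ∈ orb W x) : ∀ v ∈ orb W x, v + κ • v ∈ orb W x := by
  have hcop := coprime_succ hκ
  have h1 := schur (W := W) _ hcop (orb W x) (orb_inv hW x)
  set D : Set G := {z | ∃ y ∈ orb W x, (1 + κ) • y = z} with hD
  have h2 : x + κ • x ∈ D := ⟨x, orb_self x, by rw [add_nsmul, one_nsmul]⟩
  have h3 : orb W x ⊆ D := by
    rw [← orb_eq hW hx]
    exact orb_min h1 h2
  have hinj : Function.Injective (fun y : G => (1 + κ) • y) := by
    intro y z hyz
    have h1 : (1 + κ) • (y - z) = 0 := by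
      rw [nsmul_sub]; exact sub_eq_zero.mpr hyz
    have h2 : addOrderOf (y - z) ∣ (1 + κ) := addOrderOf_dvd_of_nsmul_eq_zero h1
    have h3 : addOrderOf (y - z) ∣ Nat.card G := addOrderOf_dvd_natCard _
    have h4 : addOrderOf (y - z) = 1 := Nat.eq_one_of_dvd_coprimes hcop h2 h3
    rw [AddMonoid.addOrderOf_eq_one_iff] at h4
    exact sub_eq_zero.mp h4
  have hDim : D = (fun y : G => (1 + κ) • y) '' (orb W x) := by
    ext z; simp [hD]
  have h4 : D = orb W x := by
    symm
    apply Set.eq_of_subset_of_ncard_le h3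
    rw [hDim, Set.ncard_image_of_injective _ hinj]
  intro v hv
  rw [← h4]
  exact ⟨v, hv, by rw [add_nsmul, one_nsmul]⟩

end finite

end Pool.Agent.R14.TII.Z
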