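import Pool.Agent.R14.TII.Z1

namespace Pool.Agent.R14.TII.Z

open scoped Classical

set_option linter.unusedSectionVars false

variable {G : Type*} [AddCommGroup G] [Fintype G] [IsAddCyclic G] {W : Subgroup (Equiv.Perm G)}

theorem tors {l : ℕ} (hl : l.Prime) {e : G} (he : addOrderOf e = l) {y : G} (hy : l • y = 0) :
    ∃ k : ℕ, k < l ∧ y = k • e := by
  have h1 := IsAddCyclic.card_nsmul_eq_zero_le (α := G) hl.pos
  have hI : (Finset.range l).image (fun k => k • e) ⊆ Finset.univ.filter (fun a : G => l • a = 0) := by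
    intro a ha
    obtain ⟨k, _, rfl⟩ := Finset.mem_image.mp ha
    rw [Finset.mem_filter]
    refine ⟨Finset.mem_univ _, ?_⟩
    rw [← mul_nsmul, mul_nsmul', ← he, addOrderOf_nsmul_eq_zero, nsmul_zero]
  have hc : ((Finset.range l).image (fun k => k • e)).card = l := by
    rw [Finset.card_image_of_injOn, Finset.card_range]
    intro a ha b hb hab
    have := nsmul_injOn_Iio_addOrderOf (x := e)
    apply this
    · rw [he]; exact Finset.mem_range.mp ha
    · rw [he]; exact Finset.mem_range.mp hb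
    · exact hab
  have heq := Finset.eq_of_subset_of_card_le hI (by rw [hc]; exact h1)
  have hyF : y ∈ Finset.univ.filter (fun a : G => l • a = 0) := by
    rw [Finset.mem_filter]; exact ⟨Finset.mem_univ _, hy⟩
  rw [← heq] at hyF
  obtain ⟨k, hk, hk2⟩ := Finset.mem_image.mp hyF
  exact ⟨k, Finset.mem_range.mp hk, hk2.symm⟩

theorem tors_mem {l : ℕ} (hl : l.Prime) {A : AddSubgroup G} {e : G} (he : addOrderOf e = l)
    (heA : e ∈ A) {y : G} (hy : l • y = 0) : y ∈ A := by
  obtain ⟨k, _, rfl⟩ := tors hl he hy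
  exact A.nsmul_mem heA k

theorem card_fib {l : ℕ} (hl : l.Prime) (x : G) :
    (Finset.univ.filter (fun y => l • y = l • x)).card ≤ l := by
  have h5 := IsAddCyclic.card_nsmul_eq_zero_le (α := G) hl.pos
  refine le_trans (le_of_eq ?_) h5
  apply Finset.card_bij (fun y _ => y - x)
  · intro y hy
    rw [Finset.mem_filter] at hy
    rw [Finset.mem_filter]
    refine ⟨Finset.mem_univ _, ?_⟩
    rw [nsmul_sub, hy.2, sub_self]
  · intro y _ z _ hyz
    exact sub_left_injective hyz
  · intro z hz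
    rw [Finset.mem_filter] at hz
    refine ⟨z + x, ?_, by abel⟩
    rw [Finset.mem_filter]
    refine ⟨Finset.mem_univ _, ?_⟩
    rw [nsmul_add, hz.2, zero_add]

theorem eq_of_card {A B : AddSubgroup G} (h : Nat.card A = Nat.card B) : A = B := by
  have key : ∀ A B : AddSubgroup G, Nat.card A = Nat.card B → A ≤ B := by
    intro A B h
    have h1 := IsAddCyclic.card_nsmul_eq_zero_le (α := G) (n := Nat.card B) Nat.card_pos
    have hB : (Finset.univ.filter (fun a : G => a ∈ B))
        ⊆ Finset.univ.filter (fun a : G => Nat.card B • a = 0) := by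
      intro a ha
      rw [Finset.mem_filter] at ha ⊢
      refine ⟨Finset.mem_univ _, ?_⟩
      have := card_nsmul_eq_zero' (x := (⟨a, ha.2⟩ : B))
      exact congrArg Subtype.val this
    have hcB : (Finset.univ.filter (fun a : G => a ∈ B)).card = Nat.card B := by
      rw [Nat.card_eq_fintype_card, Fintype.card_subtype]
    have heq := Finset.eq_of_subset_of_card_le hB (by rw [hcB]; exact h1)
    intro a ha
    have : a ∈ Finset.univ.filter (fun a : G => a ∈ B) := by
      rw [heq, Finset.mem_filter]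
      refine ⟨Finset.mem_univ _, ?_⟩
      have := card_nsmul_eq_zero' (x := (⟨a, ha⟩ : A))
      rw [h] at this
      exact congrArg Subtype.val this
    exact (Finset.mem_filter.mp this).2
  exact le_antisymm (key A B h) (key B A h.symm)

theorem bez {A : AddSubgroup G} {l k : ℕ} (h : l.Coprime k) {a : G} (h1 : l • a ∈ A)
    (h2 : k • a ∈ A) : a ∈ A := by
  obtain ⟨u, v, huv⟩ := Nat.isCoprime_iff_coprime.mpr h
  have e : a = u • (l • a) + v • (k • a) := by
    rw [← natCast_zsmul a l, ← natCast_zsmul a k, smul_smul, smul_smul, ← add_smul, huv,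
      one_smul]
  rw [e]
  exact A.add_mem (A.zsmul_mem h1 u) (A.zsmul_mem h2 v)

theorem orb_w {x y : G} {w : Equiv.Perm G} (hw : w ∈ W) (h0 : w 0 = 0) (hy : y ∈ orb W x) :
    w y ∈ orb W x := by
  obtain ⟨w', hw', h0', rfl⟩ := hy
  exact ⟨w * w', W.mul_mem hw hw', by rw [Equiv.Perm.mul_apply, h0', h0], rfl⟩

/-- a family of subgroups permuted by `W` is constant -/
theorem fam (hW : HasTr W) {x : G} (Φ : G → AddSubgroup G)
    (h : ∀ w ∈ W, w 0 = 0 → ∀ y ∈ orb W x, ∀ c ∈ Φ y, w c ∈ Φ (w y)) :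
    (∀ y ∈ orb W x, Φ y = Φ x) ∧ InvS W (Φ x : Set G) := by
  have hle : ∀ w ∈ W, w 0 = 0 → ∀ y ∈ orb W x, Nat.card (Φ y) ≤ Nat.card (Φ (w y)) := by
    intro w hw h0 y hy
    apply Nat.card_le_card_of_injective (fun c : Φ y => (⟨w c, h w hw h0 y hy c c.2⟩ : Φ (w y)))
    intro a b hab
    have := congrArg Subtype.val hab
    exact Subtype.ext (w.injective this)
  have h1 : ∀ y ∈ orb W x, Φ y = Φ x := by
    rintro y ⟨w, hw, h0, rfl⟩
    apply eq_of_card
    apply le_antisymm
    · have h0' : w⁻¹ 0 = 0 := by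
        have := iapp w 0
        rwa [h0] at this
      have := hle w⁻¹ (W.inv_mem hw) h0' (w x) (orb_w hw h0 (orb_self x))
      rwa [iapp] at this
    · exact hle w hw h0 x (orb_self x)
  refine ⟨h1, ?_⟩
  apply InvS.of_imp
  intro w hw u v hv
  obtain ⟨w', hw', h0, hl⟩ := loc_mem hW hw u
  have h2 := h w' hw' h0 x (orb_self x) (v - u) hv
  rw [h1 _ (orb_w hw' h0 (orb_self x)), hl] at h2
  have e : u + (v - u) = v := by abel
  rwa [e] at h2

/-- the common hypotheses on a covering pair `B ⋖ C` -/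
structure Cov (W : Subgroup (Equiv.Perm G)) (B C : AddSubgroup G) (l : ℕ) : Prop where
  hB : InvS W (B : Set G)
  hC : InvS W (C : Set G)
  hBC : B ≤ C
  hcov : ∀ A : AddSubgroup G, InvS W (A : Set G) → B ≤ A → A ≤ C → A = B ∨ A = C
  hl : l.Prime
  hc : ∃ c ∈ C, c ∉ B ∧ l • c ∈ B

theorem Cov.le {B C : AddSubgroup G} {l : ℕ} (h : Cov W B C l) {A : AddSubgroup G}
    (hA : InvS W (A : Set G)) (hlA : ∃ k : ℕ, l.Coprime k ∧ ∀ a ∈ A, k • a = 0) : C ⊓ A ≤ B := by
  obtain ⟨k, hk, hkA⟩ := hlA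
  rcases h.hcov ((C ⊓ A) ⊔ B) ((h.hC.inf hA).sup h.hB) le_sup_right
    (sup_le inf_le_left h.hBC) with h1 | h1
  · rw [← h1]; exact le_sup_left
  · exfalso
    obtain ⟨c, hcC, hcB, hlc⟩ := h.hc
    rw [← h1] at hcC
    obtain ⟨a, ha, b, hb, hab⟩ := AddSubgroup.mem_sup.mp hcC
    apply hcB
    rw [← hab]
    apply B.add_mem _ hb
    apply bez hk
    · have e : l • a = l • c - l • b := by rw [← hab, nsmul_add]; abel
      rw [e]
      exact B.sub_mem hlc (B.nsmul_mem hb l)
    · rw [hkA a ha.2]; exact B.zero_mem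

/-- Type B -/
theorem lemB (hW : HasTr W) {B C : AddSubgroup G} {l : ℕ} (h : Cov W B C l) {e : G}
    (he : addOrderOf e = l) (heC : e ∈ C) {R : Type*} {f : G → R} (hf : InvFn W f) {x : G}
    (hx : f (x + e) ≠ f x) (hord : ¬ l ^ 2 ∣ addOrderOf x) : x ∈ Lk W C B ⊔ C := by
  have hl := h.hl
  have : Fact l.Prime := ⟨hl⟩
  have hle : l • e = 0 := by rw [← he]; exact addOrderOf_nsmul_eq_zero e
  obtain ⟨o, ho1, ho2⟩ : ∃ o : ℕ, (l * o) • x = 0 ∧ ¬ l ∣ o := by
    by_cases hd : l ∣ addOrderOf x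
    · obtain ⟨o, ho⟩ := hd
      refine ⟨o, by rw [← ho]; exact addOrderOf_nsmul_eq_zero x, ?_⟩
      intro hlo
      apply hord
      rw [ho, sq]
      exact mul_dvd_mul_left l hlo
    · exact ⟨addOrderOf x, by rw [mul_comm, mul_nsmul, addOrderOf_nsmul_eq_zero, nsmul_zero], hd⟩
  have hcop : l.Coprime o := (Nat.Prime.coprime_iff_not_dvd hl).mpr ho2
  obtain ⟨a, b, hab⟩ := Nat.isCoprime_iff_coprime.mpr hcop
  have ho1' : ((l : ℤ) * o) • x = 0 := by
    have := ho1
    rw [← natCast_zsmul] at this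
    push_cast at this
    exact this
  set z : G := (a * l) • x with hz
  have hxz : x - z = (b * o) • x := by
    have h1 : b * (o : ℤ) = 1 - a * l := by linarith
    rw [h1, sub_smul, one_smul, hz]
  have hlxz : l • (x - z) = 0 := by
    rw [hxz, ← natCast_zsmul, smul_smul]
    have : (l : ℤ) * (b * o) = b * (l * o) := by ring
    rw [this, ← smul_smul, ho1', smul_zero]
  have hoz : o • z = 0 := by
    rw [hz, ← natCast_zsmul, smul_smul]
    have : (o : ℤ) * (a * l) = a * (l * o) := by ring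
    rw [this, ← smul_smul, ho1', smul_zero]
  have hlx : l • x = l • z := by
    rw [nsmul_sub] at hlxz
    exact sub_eq_zero.mp hlxz
  -- not the whole fibre is in the orbit
  obtain ⟨y0, hy0, hy0'⟩ : ∃ y, l • y = l • z ∧ y ∉ orb W z := by
    by_contra hcon
    push Not at hcon
    apply hx
    rw [hf.orb (hcon (x + e) (by rw [nsmul_add, hle, add_zero, hlx])), hf.orb (hcon x hlx)]
  have hmem : l • z ∈ FS l (orb W z) := by
    rw [mem_FS]
    intro hd
    have hpos : 0 < (Finset.univ.filter (fun y => l • y = l • z ∧ y ∈ orb W z)).card :=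
      Finset.card_pos.mpr ⟨z, Finset.mem_filter.mpr ⟨Finset.mem_univ _, rfl, orb_self z⟩⟩
    have h1 := Nat.le_of_dvd hpos hd
    have h2 : (Finset.univ.filter (fun y => l • y = l • z ∧ y ∈ orb W z)).card
        < (Finset.univ.filter (fun y => l • y = l • z)).card := by
      apply Finset.card_lt_card
      rw [Finset.ssubset_iff_of_subset]
      · exact ⟨y0, Finset.mem_filter.mpr ⟨Finset.mem_univ _, hy0⟩, fun hh =>
          hy0' (Finset.mem_filter.mp hh).2.2⟩
      · intro y hy
        rw [Finset.mem_filter] at hy ⊢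
        exact ⟨Finset.mem_univ _, hy.2.1⟩
    have h3 := card_fib hl z
    omega
  set A : AddSubgroup G := AddSubgroup.closure (orb W z) with hA
  have hAi : InvS W (A : Set G) := (orb_inv hW z).closure
  set A' : AddSubgroup G := AddSubgroup.closure (FS l (orb W z)) with hA'
  have hA'i : InvS W (A' : Set G) := (FS_inv (orb_inv hW z) l).closure
  have hzA' : z ∈ A' := bez hcop (AddSubgroup.subset_closure hmem) (by rw [hoz]; exact A'.zero_mem)
  have hAA' : A ≤ A' := (AddSubgroup.closure_le _).mpr (orb_min hA'i hzA')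
  have hA'l : ∀ y ∈ A', ∃ y' ∈ A, l • y' = y := by
    intro y hy
    have : A' ≤ A.map (nsmulAddMonoidHom (α := G) l) := by
      rw [hA', AddSubgroup.closure_le]
      intro y hy
      obtain ⟨y', hy', hl'⟩ := FS_sub hy
      exact ⟨y', AddSubgroup.subset_closure hy', hl'⟩
    obtain ⟨y', hy', hl'⟩ := this hy
    exact ⟨y', hy', hl'⟩
  have hlA : ¬ l ∣ Nat.card A := by
    intro hd
    obtain ⟨e', he'⟩ := exists_prime_addOrderOf_dvd_card' (G := A) l hd
    let F : A → A := fun y => l • y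
    have hsurj : Function.Surjective F := by
      intro y
      obtain ⟨y', hy', hl'⟩ := hA'l y (hAA' y.2)
      exact ⟨⟨y', hy'⟩, Subtype.ext hl'⟩
    have hinj := Finite.injective_iff_surjective.mpr hsurj
    have h0 : F e' = F 0 := by
      show l • e' = l • (0 : A)
      rw [nsmul_zero, ← he', addOrderOf_nsmul_eq_zero]
    have := hinj h0
    rw [this, addOrderOf_zero] at he'
    exact hl.one_lt.ne he'
  have hCA : C ⊓ A ≤ B := h.le hAi ⟨Nat.card A, (Nat.Prime.coprime_iff_not_dvd hl).mpr hlA, by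
    intro a ha
    have := card_nsmul_eq_zero' (x := (⟨a, ha⟩ : A))
    exact congrArg Subtype.val this⟩
  have hALk := le_Lk h.hC hAi hCA
  have e1 : x = z + (x - z) := by abel
  rw [e1]
  exact AddSubgroup.add_mem_sup (hALk (AddSubgroup.subset_closure (orb_self z)))
    (tors_mem hl he heC hlxz)

end Pool.Agent.R14.TII.Z
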