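import Pool.Agent.R14.TII.Z2

namespace Pool.Agent.R14.TII.Z

open scoped Classical

set_option linter.unusedSectionVars false

variable {G : Type*} [AddCommGroup G] [Fintype G] [IsAddCyclic G] {W : Subgroup (Equiv.Perm G)}

/-- the radical of a set -/
def rad (D : Set G) : AddSubgroup G where
  carrier := {c | ∀ v, v ∈ D ↔ v + c ∈ D}
  zero_mem' := by intro v; rw [add_zero]
  add_mem' := by
    intro a b ha hb v
    rw [ha v, hb (v + a), add_assoc]
  neg_mem' := by
    intro a ha v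
    rw [ha (v + -a), neg_add_cancel_right]

theorem rad_inv {D : Set G} (hD : InvS W D) : InvS W (rad D : Set G) := by
  apply InvS.of_imp
  intro w hw u0 v0 hc v
  set z : G := w⁻¹ (v + w v0) with hz
  have hwz : w z = v + w v0 := by rw [hz, appi]
  have e1 : v = w z - w v0 := by rw [hwz]; abel
  have e2 : v + (w v0 - w u0) = w z - w u0 := by rw [hwz]; abel
  rw [e2]
  conv_lhs => rw [e1]
  rw [← hD w hw v0 z, ← hD w hw u0 z]
  have h1 := hc (z - v0)
  have e3 : z - v0 + (v0 - u0) = z - u0 := by abel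
  rwa [e3] at h1

/-- type A data -/
structure TA (W : Subgroup (Equiv.Perm G)) (l n' s j : ℕ) (x : G) : Prop where
  hW : HasTr W
  hl : l.Prime
  hcard : Nat.card G = l ^ s * n'
  hcop : l.Coprime n'
  hj : 2 ≤ j
  hx1 : (l ^ j * n') • x = 0
  hx2 : (l ^ (j - 1) * n') • x ≠ 0
  hiso : ∀ e : G, l • e = 0 → e ≠ 0 → x + e ∉ orb W x

variable {l n' s j : ℕ} {x : G}

theorem TA.hκ (h : TA W l n' s j x) : ∀ p : ℕ, p.Prime → p ∣ Nat.card G →
    p ∣ l ^ (j - 1) * n' := by
  intro p hp hd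
  rw [h.hcard] at hd
  rcases (Nat.Prime.dvd_mul hp).mp hd with h1 | h1
  · have h2 := (Nat.prime_dvd_prime_iff_eq hp h.hl).mp (hp.dvd_of_dvd_pow h1)
    rw [h2]
    have h3 := h.hj
    exact Dvd.dvd.mul_right (dvd_pow_self l (by omega)) n'
  · exact Dvd.dvd.mul_left h1 _

theorem TA.hlκ (h : TA W l n' s j x) : ∃ κ₁, l ^ (j - 1) * n' = l * κ₁ := by
  have h3 := h.hj
  refine ⟨l ^ (j - 2) * n', ?_⟩
  have : j - 1 = (j - 2) + 1 := by omega
  rw [this, pow_succ]; ring

theorem TA.hx1' (h : TA W l n' s j x) : l • ((l ^ (j - 1) * n') • x) = 0 := by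
  rw [← mul_nsmul', ← h.hx1]
  congr 1
  have h3 := h.hj
  have : j = (j - 1) + 1 := by omega
  conv_rhs => rw [this, pow_succ]
  ring

/-- Lemma R at any point of the orbit -/
theorem TA.R (h : TA W l n' s j x) {κ : ℕ} (hκ : ∀ p : ℕ, p.Prime → p ∣ Nat.card G → p ∣ κ)
    {y : G} (hy : y ∈ orb W x) (hy2 : y + κ • y ∈ orb W x) :
    ∀ v ∈ orb W x, v + κ • v ∈ orb W x := by
  have e := orb_eq h.hW hy
  have := lemR h.hW hκ (x := y) (by rw [e]; exact hy2)
  rwa [e] at this

theorem TA.A2 (h : TA W l n' s j x) {y : G} (hy : y ∈ orb W x) :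
    (l ^ (j - 1) * n') • y ≠ 0 := by
  intro h0
  have h1 := h.R h.hκ hy (by rw [h0, add_zero]; exact hy) x (orb_self x)
  exact h.hiso _ h.hx1' h.hx2 h1

theorem prime_order {l : ℕ} (hl : l.Prime) {e : G} (h1 : l • e = 0) (h2 : e ≠ 0) :
    addOrderOf e = l := by
  have : Fact l.Prime := ⟨hl⟩
  exact addOrderOf_eq_prime h1 h2

/-- some multiple of a nonzero `l`-element has order `l` -/
theorem exists_mult {l : ℕ} {a : G} {s : ℕ} (hs : (l ^ s) • a = 0) (ha : a ≠ 0) :
    ∃ b : ℕ, (l ^ b) • a ≠ 0 ∧ l • ((l ^ b) • a) = 0 := by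
  have hex : ∃ b : ℕ, (l ^ b) • a = 0 := ⟨s, hs⟩
  have hf := Nat.find_spec hex
  have hpos : Nat.find hex ≠ 0 := by
    intro h0
    rw [h0, pow_zero, one_nsmul] at hf
    exact ha hf
  refine ⟨Nat.find hex - 1, Nat.find_min hex (by omega), ?_⟩
  rw [← mul_nsmul', ← pow_succ', Nat.sub_add_cancel (by omega)]
  exact hf

theorem TA.A3 (h : TA W l n' s j x) {y : G} (hy : y ∈ orb W x)
    (hy2 : l • ((l ^ (j - 1) * n') • y) ≠ 0) {e : G} (he : l • e = 0) : y + e ∈ orb W x := by
  have hls : (l ^ s) • (l • ((l ^ (j - 1) * n') • y)) = 0 := by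
    rw [← mul_nsmul', ← mul_nsmul']
    have : l ^ s * l * (l ^ (j - 1) * n') = (l * l ^ (j - 1)) * (l ^ s * n') := by ring
    rw [this, ← h.hcard, mul_nsmul', card_nsmul_eq_zero', nsmul_zero]
  obtain ⟨b, hb1, hb2⟩ := exists_mult hls hy2
  set κ' : ℕ := l ^ b * (l * (l ^ (j - 1) * n')) with hκ'
  have hκy : κ' • y = (l ^ b) • (l • ((l ^ (j - 1) * n') • y)) := by
    rw [hκ', mul_nsmul', mul_nsmul']
  have hκ'p : ∀ p : ℕ, p.Prime → p ∣ Nat.card G → p ∣ κ' := by
    intro p hp hd
    exact Dvd.dvd.mul_left (Dvd.dvd.mul_left (h.hκ p hp hd) _) _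
  have hκx : κ' • x = 0 := by
    rw [hκ', mul_nsmul', mul_nsmul', h.hx1', nsmul_zero]
  have hR := h.R hκ'p (orb_self x) (by rw [hκx, add_zero]; exact orb_self x)
  have hy3 : κ' • y ≠ 0 := by rw [hκy]; exact hb1
  have hy4 : l • (κ' • y) = 0 := by rw [hκy]; exact hb2
  have hκκ : κ' • (κ' • y) = 0 := by
    calc κ' • (κ' • y) = (l ^ b * (l ^ (j - 1) * n')) • (l • (κ' • y)) := by
          rw [← mul_nsmul' (κ' • y) (l ^ b * (l ^ (j - 1) * n')) l]
          congr 1
          rw [hκ']; ring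
      _ = 0 := by rw [hy4, nsmul_zero]
  have hit : ∀ i : ℕ, y + i • (κ' • y) ∈ orb W x := by
    intro i
    induction i with
    | zero => rw [zero_nsmul, add_zero]; exact hy
    | succ i ih =>
      have := hR _ ih
      have e0 : κ' • (i • (κ' • y)) = 0 := by
        rw [nsmul_left_comm (κ' • y) i κ', hκκ, nsmul_zero]
      rw [nsmul_add, e0, add_zero] at this
      rw [succ_nsmul, ← add_assoc]
      exact this
  obtain ⟨k, _, hk⟩ := tors h.hl (prime_order h.hl hy4 hy3) he
  rw [hk]; exact hit k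

theorem card_fib_eq {l : ℕ} (hl : l.Prime) {e : G} (he : addOrderOf e = l) (x : G) :
    (Finset.univ.filter (fun y => l • y = l • x)).card = l := by
  apply le_antisymm (card_fib hl x)
  have hI : (Finset.range l).image (fun k => x + k • e)
      ⊆ Finset.univ.filter (fun y => l • y = l • x) := by
    intro a ha
    obtain ⟨k, _, rfl⟩ := Finset.mem_image.mp ha
    rw [Finset.mem_filter]
    refine ⟨Finset.mem_univ _, ?_⟩
    rw [nsmul_add, nsmul_left_comm, ← he, addOrderOf_nsmul_eq_zero, nsmul_zero, add_zero]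
  have hc : ((Finset.range l).image (fun k => x + k • e)).card = l := by
    rw [Finset.card_image_of_injOn, Finset.card_range]
    intro a ha b hb hab
    have := nsmul_injOn_Iio_addOrderOf (x := e)
    apply this
    · rw [he]; exact Finset.mem_range.mp ha
    · rw [he]; exact Finset.mem_range.mp hb
    · exact add_left_cancel hab
  rw [← hc]
  have := Finset.card_le_card hI
  rwa [hc] at this ⊢

theorem TA.A4 (h : TA W l n' s j x) {z : G} (hz : z ∈ FS l (orb W x)) :
    (l ^ (j - 1) * n') • z = 0 := by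
  obtain ⟨v, hv, rfl⟩ := FS_sub hz
  by_contra hne
  have hne' : l • ((l ^ (j - 1) * n') • v) ≠ 0 := by rwa [nsmul_left_comm]
  rw [mem_FS] at hz
  apply hz
  have e : (Finset.univ.filter (fun y => l • y = l • v ∧ y ∈ orb W x))
      = Finset.univ.filter (fun y => l • y = l • v) := by
    ext y
    simp only [Finset.mem_filter, Finset.mem_univ, true_and, and_iff_left_iff_imp]
    intro hy
    have h1 : l • (y - v) = 0 := by rw [nsmul_sub]; exact sub_eq_zero.mpr hy
    have := h.A3 hv hne' h1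
    rwa [add_sub_cancel] at this
  rw [e, card_fib_eq h.hl (prime_order h.hl h.hx1' h.hx2)]

theorem TA.A4' (h : TA W l n' s j x) : l • x ∈ FS l (orb W x) := by
  rw [mem_FS]
  have e : (Finset.univ.filter (fun y => l • y = l • x ∧ y ∈ orb W x)) = {x} := by
    ext y
    simp only [Finset.mem_filter, Finset.mem_univ, true_and, Finset.mem_singleton]
    constructor
    · rintro ⟨h1, h2⟩
      by_contra hne
      have h3 : l • (y - x) = 0 := by rw [nsmul_sub]; exact sub_eq_zero.mpr h1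
      apply h.hiso _ h3 (sub_ne_zero.mpr hne)
      rwa [add_sub_cancel]
    · rintro rfl
      exact ⟨rfl, orb_self _⟩
  rw [e, Finset.card_singleton]
  exact h.hl.one_lt.ne' ∘ Nat.dvd_one.mp

/-- the subgroup `B₁` -/
theorem TA.A5 (h : TA W l n' s j x) : ∃ B₁ : AddSubgroup G, InvS W (B₁ : Set G) ∧
    (l ^ (j - 1) * n') • x ∈ B₁ ∧ ∀ b ∈ B₁, (l ^ (j - 1) * n') • b = 0 := by
  have : Fact l.Prime := ⟨h.hl⟩
  refine ⟨AddSubgroup.closure (FS l (orb W x)), (FS_inv (orb_inv h.hW x) l).closure, ?_, ?_⟩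
  · obtain ⟨κ₁, hκ₁⟩ := h.hlκ
    rw [hκ₁, mul_comm, mul_nsmul']
    exact AddSubgroup.nsmul_mem _ (AddSubgroup.subset_closure h.A4') _
  · intro b hb
    induction hb using AddSubgroup.closure_induction with
    | mem z hz => exact h.A4 hz
    | zero => exact nsmul_zero _
    | add a b _ _ ha hb => rw [nsmul_add, ha, hb, add_zero]
    | neg a _ ha => rw [smul_neg, ha, neg_zero]

theorem TA.A6 (h : TA W l n' s j x) {y : G} (hy : y ∈ orb W x) :
    l • ((l ^ (j - 1) * n') • y) = 0 := by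
  by_contra hne
  obtain ⟨B₁, hB1, hx, hkill⟩ := h.A5
  set κ := l ^ (j - 1) * n' with hκdef
  let Φ : G → AddSubgroup G := fun y => {
    carrier := {c | c ∈ B₁ ∧ ∀ v, v - y ∈ B₁ → (v ∈ orb W x ↔ v + c ∈ orb W x)}
    zero_mem' := ⟨B₁.zero_mem, fun v _ => by rw [add_zero]⟩
    add_mem' := by
      rintro a b ⟨ha, ha'⟩ ⟨hb, hb'⟩
      refine ⟨B₁.add_mem ha hb, ?_⟩
      intro v hv
      rw [ha' v hv, hb' (v + a) (by
        have e : v + a - y = (v - y) + a := by abel
        rw [e]; exact B₁.add_mem hv ha), add_assoc]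
    neg_mem' := by
      rintro a ⟨ha, ha'⟩
      refine ⟨B₁.neg_mem ha, ?_⟩
      intro v hv
      rw [ha' (v + -a) (by
        have e : v + -a - y = (v - y) - a := by abel
        rw [e]; exact B₁.sub_mem hv ha), neg_add_cancel_right] }
  have hfam := fam h.hW (x := x) Φ (by
    rintro w hw h0 y hy c ⟨hc, hc'⟩
    have hwc : w c ∈ B₁ := by
      have := (hB1 w hw 0 c).mp (by rw [sub_zero]; exact hc)
      rwa [h0, sub_zero] at this
    refine ⟨hwc, ?_⟩
    -- first the version with subtraction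
    have key : ∀ v', v' - w y ∈ B₁ → (v' ∈ orb W x ↔ v' - w c ∈ orb W x) := by
      intro v' hv'
      set v := w⁻¹ v' with hv
      have hwv : w v = v' := by rw [hv, appi]
      have hvy : v - y ∈ B₁ := (hB1 w hw y v).mpr (by rw [hwv]; exact hv')
      have h1 := hc' (v - c) (by
        have e : v - c - y = (v - y) - c := by abel
        rw [e]; exact B₁.sub_mem hvy hc)
      rw [sub_add_cancel] at h1
      have h2 := orb_inv h.hW x w hw c v
      have h3 := orb_inv h.hW x w hw 0 v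
      rw [h0, sub_zero, sub_zero, hwv] at h3
      rw [hwv] at h2
      rw [← h3, ← h2, ← h1]
    intro v' hv'
    have := key (v' + w c) (by
      have e : v' + w c - w y = (v' - w y) + w c := by abel
      rw [e]; exact B₁.add_mem hv' hwc)
    rw [add_sub_cancel_right] at this
    exact this.symm)
  have hmem : κ • x ∈ Φ y := by
    refine ⟨hx, ?_⟩
    intro v hv
    have hκv : κ • v = κ • y := by
      have := hkill _ hv
      rw [nsmul_sub] at this
      exact sub_eq_zero.mp this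
    constructor
    · intro hvX
      exact h.A3 hvX (by rw [← hκdef, hκv]; exact hne) h.hx1'
    · intro hvX
      have h1 : κ • (v + κ • x) = κ • y := by
        rw [nsmul_add, hkill _ hx, add_zero, hκv]
      have := h.A3 hvX (e := -(κ • x)) (by rw [← hκdef, h1]; exact hne) (by
        rw [smul_neg, h.hx1', neg_zero])
      rwa [add_neg_cancel_right] at this
  rw [hfam.1 y hy] at hmem
  have h1 := (hmem.2 x (by rw [sub_self]; exact B₁.zero_mem)).mp (orb_self x)
  exact h.hiso _ h.hx1' h.hx2 h1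

theorem TA.A7 (h : TA W l n' s j x) {y : G} (hy : y ∈ orb W x) {e : G} (he : l • e = 0)
    (he0 : e ≠ 0) : y + e ∉ orb W x := by
  intro hye
  obtain ⟨k, hkl, hk⟩ := tors h.hl (prime_order h.hl (h.A6 hy) (h.A2 hy)) he
  have hR := h.R (κ := k * (l ^ (j - 1) * n')) (fun p hp hd => Dvd.dvd.mul_left (h.hκ p hp hd) _) hy
    (by rw [mul_nsmul', ← hk]; exact hye) x (orb_self x)
  rw [mul_nsmul'] at hR
  apply h.hiso _ _ _ hR
  · rw [nsmul_left_comm, h.hx1', nsmul_zero]
  · intro h0
    have h1 := addOrderOf_dvd_of_nsmul_eq_zero h0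
    rw [prime_order h.hl h.hx1' h.hx2] at h1
    have h2 : k = 0 := Nat.eq_zero_of_dvd_of_lt h1 hkl
    apply he0
    rw [hk, h2, zero_nsmul]

end Pool.Agent.R14.TII.Z
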