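import Pool.Agent.R14.TII.Z3

namespace Pool.Agent.R14.TII.Z

open scoped Classical

set_option linter.unusedSectionVars false

variable {G : Type*} [AddCommGroup G] [Fintype G] [IsAddCyclic G] {W : Subgroup (Equiv.Perm G)}

variable {l n' s j : ℕ} {x : G}

/-- the subgroup `A₁` -/
def A₁ (W : Subgroup (Equiv.Perm G)) (l n' j : ℕ) (x : G) : AddSubgroup G :=
  AddSubgroup.closure (orb W ((l ^ (j - 1) * n') • x))

theorem TA.A1inv (h : TA W l n' s j x) : InvS W (A₁ W l n' j x : Set G) :=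
  (orb_inv h.hW _).closure

theorem TA.A1mem (_h : TA W l n' s j x) : (l ^ (j - 1) * n') • x ∈ A₁ W l n' j x :=
  AddSubgroup.subset_closure (orb_self _)

theorem TA.A1min (_h : TA W l n' s j x) {A : AddSubgroup G} (hA : InvS W (A : Set G))
    (hx : (l ^ (j - 1) * n') • x ∈ A) : A₁ W l n' j x ≤ A :=
  (AddSubgroup.closure_le _).mpr (orb_min hA hx)

theorem TA.A1kill (h : TA W l n' s j x) {a : G} (ha : a ∈ A₁ W l n' j x) :
    (l ^ (j - 1) * n') • a = 0 := by
  obtain ⟨B₁, hB1, hx, hkill⟩ := h.A5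
  exact hkill a (h.A1min hB1 hx ha)

theorem TA.A1tors (h : TA W l n' s j x) {a : G} (ha : l • a = 0) : a ∈ A₁ W l n' j x :=
  tors_mem h.hl (prime_order h.hl h.hx1' h.hx2) h.A1mem ha

/-- the colours -/
def col (W : Subgroup (Equiv.Perm G)) (l n' j : ℕ) (x : G) (k : ℕ) : Set G :=
  {v | ∃ y ∈ orb W x, (1 + k * (l ^ (j - 1) * n')) • y = v}

theorem col_eq {k : ℕ} {y : G} :
    (1 + k * (l ^ (j - 1) * n')) • y = y + k • ((l ^ (j - 1) * n') • y) := by
  rw [add_nsmul, one_nsmul, mul_nsmul']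

theorem TA.col_inv (h : TA W l n' s j x) (k : ℕ) : InvS W (col W l n' j x k) := by
  apply schur _ _ _ (orb_inv h.hW x)
  apply coprime_succ
  intro p hp hd
  exact Dvd.dvd.mul_left (h.hκ p hp hd) _

theorem TA.col_zero (_h : TA W l n' s j x) {y : G} : y ∈ col W l n' j x 0 ↔ y ∈ orb W x := by
  unfold col
  simp

/-- the difference of multipliers of `κ y` -/
theorem TA.modEq_iff (h : TA W l n' s j x) {y : G} (hy : y ∈ orb W x) {k k' : ℕ} :
    k • ((l ^ (j - 1) * n') • y) = k' • ((l ^ (j - 1) * n') • y) ↔ k ≡ k' [MOD l] := by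
  rw [nsmul_eq_nsmul_iff_modEq, prime_order h.hl (h.A6 hy) (h.A2 hy)]

theorem TA.A12 (h : TA W l n' s j x) {k k' : ℕ} {v : G} (h1 : v ∈ col W l n' j x k)
    (h2 : v ∈ col W l n' j x k') : k ≡ k' [MOD l] := by
  obtain ⟨y, hy, hyv⟩ := h1
  obtain ⟨y', hy', hyv'⟩ := h2
  rw [col_eq] at hyv hyv'
  have hyy : y = y' := by
    by_contra hne
    have h3 : l • (y - y') = 0 := by
      have e : y - y' = k' • ((l ^ (j - 1) * n') • y') - k • ((l ^ (j - 1) * n') • y) := by
        have : y = v - k • ((l ^ (j - 1) * n') • y) := by rw [← hyv]; abel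
        have h' : y' = v - k' • ((l ^ (j - 1) * n') • y') := by rw [← hyv']; abel
        calc y - y' = (v - k • ((l ^ (j - 1) * n') • y)) - (v - k' • ((l ^ (j - 1) * n') • y')) := by
              rw [← this, ← h']
          _ = _ := by abel
      rw [e, nsmul_sub, nsmul_left_comm _ k' l, nsmul_left_comm _ k l, h.A6 hy, h.A6 hy',
        nsmul_zero, nsmul_zero, sub_zero]
    apply h.A7 hy' h3 (sub_ne_zero.mpr hne)
    rwa [add_sub_cancel]
  subst hyy
  rw [← h.modEq_iff hy]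
  exact add_left_cancel (hyv.trans hyv'.symm)

theorem TA.A13 (h : TA W l n' s j x) {k k' : ℕ} {v : G} (h1 : v ∈ col W l n' j x k)
    (h2 : k ≡ k' [MOD l]) : v ∈ col W l n' j x k' := by
  obtain ⟨y, hy, hyv⟩ := h1
  refine ⟨y, hy, ?_⟩
  rw [col_eq] at hyv ⊢
  rw [← hyv, (h.modEq_iff hy).mpr h2.symm]

theorem TA.A11 (h : TA W l n' s j x) {y v : G} (hy : y ∈ orb W x)
    (hv : v - y ∈ A₁ W l n' j x) : ∃ k, v ∈ col W l n' j x k := by
  set Z : Set G := {v | ∃ k, v ∈ col W l n' j x k} with hZ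
  have hZi : InvS W Z := by
    intro w hw u v
    constructor
    · rintro ⟨k, hk⟩
      exact ⟨k, (h.col_inv k w hw u v).mp hk⟩
    · rintro ⟨k, hk⟩
      exact ⟨k, (h.col_inv k w hw u v).mpr hk⟩
  have hstep : ∀ e : G, l • e = 0 → ∀ v ∈ Z, v + e ∈ Z := by
    rintro e he v ⟨k, y, hy, rfl⟩
    obtain ⟨i, _, hi⟩ := tors h.hl (prime_order h.hl (h.A6 hy) (h.A2 hy)) he
    refine ⟨k + i, y, hy, ?_⟩
    rw [col_eq, col_eq, hi, add_nsmul, add_assoc]
  have hrad : A₁ W l n' j x ≤ rad Z := by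
    apply h.A1min (rad_inv hZi)
    intro v
    constructor
    · exact hstep _ h.hx1' v
    · intro hv
      have := hstep (-((l ^ (j - 1) * n') • x)) (by rw [smul_neg, h.hx1', neg_zero]) _ hv
      rwa [add_neg_cancel_right] at this
  have hyZ : y ∈ Z := ⟨0, h.col_zero.mpr hy⟩
  have := (hrad hv y).mp hyZ
  rwa [add_sub_cancel] at this

/-- translation by `a` changes the colours near `y` by `t` -/
def Trr (W : Subgroup (Equiv.Perm G)) (l n' j : ℕ) (x y a : G) (t : ℕ) : Prop :=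
  ∀ v, v - y ∈ A₁ W l n' j x → ∀ k, v ∈ col W l n' j x k → v + a ∈ col W l n' j x (k + t)

theorem Trr.zero {y : G} : Trr W l n' j x y 0 0 := by
  intro v _ k hk
  rw [add_zero, add_zero]; exact hk

theorem Trr.add {y a b : G} {t t' : ℕ} (ha : a ∈ A₁ W l n' j x) (h1 : Trr W l n' j x y a t)
    (h2 : Trr W l n' j x y b t') : Trr W l n' j x y (a + b) (t + t') := by
  intro v hv k hk
  have := h2 (v + a) (by
    have e : v + a - y = (v - y) + a := by abel
    rw [e]; exact AddSubgroup.add_mem _ hv ha) _ (h1 v hv k hk)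
  rwa [add_assoc, add_assoc] at this

theorem Trr.nsmul {y a : G} {t : ℕ} (ha : a ∈ A₁ W l n' j x) (h1 : Trr W l n' j x y a t) (i : ℕ) :
    Trr W l n' j x y (i • a) (i * t) := by
  induction i with
  | zero => rw [zero_nsmul, zero_mul]; exact Trr.zero
  | succ i ih =>
    rw [succ_nsmul, Nat.succ_mul]
    exact Trr.add (AddSubgroup.nsmul_mem _ ha i) ih h1

theorem TA.Trr_mod (h : TA W l n' s j x) {y a : G} (hy : y ∈ orb W x) {t t' : ℕ}
    (h1 : Trr W l n' j x y a t) (h2 : Trr W l n' j x y a t') : t ≡ t' [MOD l] := by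
  have k1 := h1 y (by rw [sub_self]; exact AddSubgroup.zero_mem _) 0 (h.col_zero.mpr hy)
  have k2 := h2 y (by rw [sub_self]; exact AddSubgroup.zero_mem _) 0 (h.col_zero.mpr hy)
  rw [zero_add] at k1 k2
  exact h.A12 k1 k2

theorem TA.Trr_one (h : TA W l n' s j x) {y : G} :
    Trr W l n' j x y ((l ^ (j - 1) * n') • y) 1 := by
  rintro v hv k ⟨z, hz, hzv⟩
  refine ⟨z, hz, ?_⟩
  have hκκ : (l ^ (j - 1) * n') • ((l ^ (j - 1) * n') • z) = 0 := by
    obtain ⟨κ₁, hκ₁⟩ := h.hlκ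
    calc (l ^ (j - 1) * n') • ((l ^ (j - 1) * n') • z)
        = κ₁ • (l • ((l ^ (j - 1) * n') • z)) := by
          rw [← mul_nsmul' _ κ₁ l, mul_comm κ₁ l, ← hκ₁]
      _ = 0 := by rw [h.A6 hz, nsmul_zero]
  have h1 : (l ^ (j - 1) * n') • y = (l ^ (j - 1) * n') • z := by
    have h2 := h.A1kill hv
    rw [nsmul_sub, sub_eq_zero] at h2
    rw [← h2, ← hzv, col_eq, nsmul_add, nsmul_left_comm _ k, hκκ, nsmul_zero, add_zero]
  rw [h1, ← hzv, col_eq, col_eq, add_nsmul, one_nsmul, add_assoc]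

theorem TA.A14 (h : TA W l n' s j x) {y a : G} (hy : y ∈ orb W x) (ha : a ∈ A₁ W l n' j x) :
    ∃ t, Trr W l n' j x y a t := by
  have hl1 : 1 ≤ l := h.hl.one_lt.le
  let Φ : G → AddSubgroup G := fun y => {
    carrier := {c | c ∈ A₁ W l n' j x ∧ (y ∈ orb W x → ∃ t, Trr W l n' j x y c t)}
    zero_mem' := ⟨AddSubgroup.zero_mem _, fun _ => ⟨0, Trr.zero⟩⟩
    add_mem' := by
      rintro a b ⟨ha, ha'⟩ ⟨hb, hb'⟩
      refine ⟨AddSubgroup.add_mem _ ha hb, ?_⟩
      intro hy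
      obtain ⟨t, ht⟩ := ha' hy
      obtain ⟨t', ht'⟩ := hb' hy
      exact ⟨t + t', Trr.add ha ht ht'⟩
    neg_mem' := by
      rintro a ⟨ha, ha'⟩
      refine ⟨AddSubgroup.neg_mem _ ha, ?_⟩
      intro hy
      obtain ⟨t, ht⟩ := ha' hy
      refine ⟨(l - 1) * t, ?_⟩
      intro v hv k hk
      have hva : v + -a - y ∈ A₁ W l n' j x := by
        have e : v + -a - y = (v - y) - a := by abel
        rw [e]; exact AddSubgroup.sub_mem _ hv ha
      obtain ⟨k'', hk''⟩ := h.A11 hy hva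
      have h1 := ht _ hva _ hk''
      rw [neg_add_cancel_right] at h1
      have h2 := h.A12 h1 hk
      apply h.A13 hk''
      -- k'' ≡ k + (l-1) t
      have h3 : k'' + t + (l - 1) * t ≡ k + (l - 1) * t [MOD l] := Nat.ModEq.add_right _ h2
      have h4 : k'' + t + (l - 1) * t = k'' + l * t := by
        obtain ⟨m, hm⟩ : ∃ m, l = m + 1 := ⟨l - 1, by omega⟩
        rw [hm, Nat.add_sub_cancel]; ring
      rw [h4] at h3
      refine Nat.ModEq.trans ?_ h3
      have : k'' + 0 ≡ k'' + l * t [MOD l] :=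
        Nat.ModEq.add_left _ ((Nat.modEq_zero_iff_dvd.mpr (dvd_mul_right l t)).symm)
      rwa [add_zero] at this }
  have hfam := fam h.hW (x := x) Φ (by
    rintro w hw h0 y hy c ⟨hc, hc'⟩
    have hA1 := h.A1inv
    have hwc : w c ∈ A₁ W l n' j x := by
      have := (hA1 w hw 0 c).mp (by rw [sub_zero]; exact hc)
      rwa [h0, sub_zero] at this
    refine ⟨hwc, ?_⟩
    intro _
    obtain ⟨t, ht⟩ := hc' hy
    refine ⟨t, ?_⟩
    have key : ∀ v', v' - w y ∈ A₁ W l n' j x → ∀ k, v' - w c ∈ col W l n' j x k →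
        v' ∈ col W l n' j x (k + t) := by
      intro v' hv' k hk
      set v := w⁻¹ v' with hv
      have hwv : w v = v' := by rw [hv, appi]
      have hvy : v - y ∈ A₁ W l n' j x := (hA1 w hw y v).mpr (by rw [hwv]; exact hv')
      have h2 := h.col_inv k w hw c v
      rw [hwv] at h2
      have h1 := ht (v - c) (by
        have e : v - c - y = (v - y) - c := by abel
        rw [e]; exact AddSubgroup.sub_mem _ hvy hc) k (h2.mpr hk)
      rw [sub_add_cancel] at h1
      have h3 := h.col_inv (k + t) w hw 0 v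
      rw [h0, sub_zero, sub_zero, hwv] at h3
      exact h3.mp h1
    intro v' hv' k hk
    exact key (v' + w c) (by
      have e : v' + w c - w y = (v' - w y) + w c := by abel
      rw [e]; exact AddSubgroup.add_mem _ hv' hwc) k (by rwa [add_sub_cancel_right]))
  have h1 : A₁ W l n' j x ≤ Φ x := h.A1min hfam.2 ⟨h.A1mem, fun _ => ⟨1, h.Trr_one⟩⟩
  have h2 := h1 ha
  rw [← hfam.1 y hy] at h2
  exact h2.2 hy

theorem TA.A15' (h : TA W l n' s j x) {a : G} (ha : a ∈ A₁ W l n' j x) : l • (n' • a) = 0 := by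
  by_contra hne
  have hls : (l ^ s) • (l • (n' • a)) = 0 := by
    rw [← mul_nsmul', ← mul_nsmul']
    have : l ^ s * l * n' = l * (l ^ s * n') := by ring
    rw [this, ← h.hcard, mul_nsmul', card_nsmul_eq_zero', nsmul_zero]
  obtain ⟨b, hb1, hb2⟩ := exists_mult hls hne
  obtain ⟨t, ht⟩ := h.A14 (orb_self x) ha
  have h1 := Trr.nsmul ha ht ((l ^ b) * (l * n'))
  have e1 : ((l ^ b) * (l * n')) • a = (l ^ b) • (l • (n' • a)) := by
    rw [mul_nsmul', mul_nsmul']
  rw [e1] at h1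
  obtain ⟨i, hi, hi2⟩ := tors h.hl (prime_order h.hl h.hx1' h.hx2) hb2
  have h2 := Trr.nsmul h.A1mem (h.Trr_one (y := x)) i
  rw [← hi2] at h2
  have h3 := h.Trr_mod (orb_self x) h1 h2
  have h4 : l ∣ i := by
    have h5 : l ∣ l ^ b * (l * n') * t :=
      Dvd.dvd.mul_right (Dvd.dvd.mul_left (dvd_mul_right l n') _) _
    have h6 := (Nat.ModEq.dvd_iff h3 (dvd_refl l)).mp h5
    rwa [mul_one] at h6
  have h7 : i = 0 := Nat.eq_zero_of_dvd_of_lt h4 hi
  rw [h7, zero_nsmul] at hi2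
  exact hb1 hi2

theorem TA.A15 (h : TA W l n' s j x) {y a : G} (hy : y ∈ orb W x) (ha : a ∈ A₁ W l n' j x) :
    y + a ∈ orb W x ↔ n' • a = 0 := by
  obtain ⟨t, ht⟩ := h.A14 hy ha
  have h0 := ht y (by rw [sub_self]; exact AddSubgroup.zero_mem _) 0 (h.col_zero.mpr hy)
  rw [zero_add] at h0
  have hn := Trr.nsmul ha ht n'
  constructor
  · intro hya
    have h1 := h.A12 h0 (h.col_zero.mpr hya)
    obtain ⟨i, hi, hi2⟩ := tors h.hl (prime_order h.hl (h.A6 hy) (h.A2 hy)) (h.A15' ha)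
    have h2 := Trr.nsmul (h.A1tors (h.A6 hy)) (h.Trr_one (y := y)) i
    rw [← hi2] at h2
    have h3 := h.Trr_mod hy hn h2
    have h4 : l ∣ i := by
      have h5 : l ∣ n' * t := Dvd.dvd.mul_left (Nat.modEq_zero_iff_dvd.mp h1) _
      have h6 := (Nat.ModEq.dvd_iff h3 (dvd_refl l)).mp h5
      rwa [mul_one] at h6
    have h7 : i = 0 := Nat.eq_zero_of_dvd_of_lt h4 hi
    rw [hi2, h7, zero_nsmul]
  · intro hna
    rw [hna] at hn
    have h1 := h.Trr_mod hy hn Trr.zero
    have h2 : l ∣ n' * t := Nat.modEq_zero_iff_dvd.mp h1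
    have h3 : l ∣ t := (Nat.Coprime.dvd_mul_left h.hcop).mp h2
    exact h.col_zero.mp (h.A13 h0 (Nat.modEq_zero_iff_dvd.mpr h3))

/-- the `l'`-part of `A₁` -/
def R' (W : Subgroup (Equiv.Perm G)) (l n' j : ℕ) (x : G) : AddSubgroup G where
  carrier := {a | a ∈ A₁ W l n' j x ∧ n' • a = 0}
  zero_mem' := ⟨AddSubgroup.zero_mem _, nsmul_zero _⟩
  add_mem' := by
    rintro a b ⟨ha, ha'⟩ ⟨hb, hb'⟩
    exact ⟨AddSubgroup.add_mem _ ha hb, by rw [nsmul_add, ha', hb', add_zero]⟩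
  neg_mem' := by
    rintro a ⟨ha, ha'⟩
    exact ⟨AddSubgroup.neg_mem _ ha, by rw [smul_neg, ha', neg_zero]⟩

theorem TA.A16 (h : TA W l n' s j x) : InvS W (R' W l n' j x : Set G) := by
  apply InvS.of_imp
  intro w hw u v hv
  obtain ⟨w', hw', h0, hl'⟩ := loc_mem h.hW hw u
  have e : w v - w u = w' (v - u) := by rw [hl', add_sub_cancel]
  rw [e]
  set c := v - u with hc
  obtain ⟨hc1, hc2⟩ := hv
  have hwc : w' c ∈ A₁ W l n' j x := by
    have := (h.A1inv w' hw' 0 c).mp (by rw [sub_zero]; exact hc1)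
    rwa [h0, sub_zero] at this
  refine ⟨hwc, ?_⟩
  have hx := orb_self (W := W) x
  have h1 : x - c ∈ orb W x := by
    rw [sub_eq_add_neg, h.A15 hx (AddSubgroup.neg_mem _ hc1), smul_neg, hc2, neg_zero]
  have h2 := (orb_inv h.hW x w' hw' c x).mp h1
  rw [sub_eq_add_neg, h.A15 (orb_w hw' h0 hx) (AddSubgroup.neg_mem _ hwc), smul_neg,
    neg_eq_zero] at h2
  exact h2

theorem TA.A17 (h : TA W l n' s j x) : x ∈ Lk W (A₁ W l n' j x) (R' W l n' j x) := by
  intro w hw u a ha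
  obtain ⟨w', hw', h0, hl'⟩ := loc_mem h.hW hw u
  have e : w (u + x + a) - w (u + x) - (w (u + a) - w u) = w' (x + a) - w' x - w' a := by
    rw [hl', hl', hl', ← add_assoc]; abel
  rw [e]
  have hwa : w' a ∈ A₁ W l n' j x := by
    have := h.A1inv.add hw' 0 ha
    rwa [zero_add, h0, sub_zero] at this
  have hd : w' (x + a) - w' x - w' a ∈ A₁ W l n' j x :=
    AddSubgroup.sub_mem _ (h.A1inv.add hw' x ha) hwa
  refine ⟨hd, ?_⟩
  have hx := orb_self (W := W) x
  rw [← h.A15 (orb_w hw' h0 hx) hd]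
  have h1 := (orb_inv h.hW x w' hw' a (x + a)).mp (by rw [add_sub_cancel_right]; exact hx)
  have e2 : w' x + (w' (x + a) - w' x - w' a) = w' (x + a) - w' a := by abel
  rw [e2]; exact h1

theorem TA.not_lift (h : TA W l n' s j x) (hodd : l ≠ 2) :
    ∃ c, l • c ∈ A₁ W l n' j x ∧ ∀ y ∈ orb W x, y - (x + c) ∉ A₁ W l n' j x := by
  by_contra hcon
  push Not at hcon
  have hj := h.hj
  have hl := h.hl
  have hx := orb_self (W := W) x
  rcases Nat.lt_or_ge 2 j with hj3 | hj2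
  · -- j ≥ 3
    set κ₁ := l ^ (j - 2) * n' with hκ₁
    have hκκ₁ : l * κ₁ = l ^ (j - 1) * n' := by
      rw [hκ₁, ← mul_assoc, ← pow_succ']
      congr 2; omega
    obtain ⟨y, hy, hyA⟩ := hcon (κ₁ • x) (by
      rw [← mul_nsmul', hκκ₁]; exact h.A1mem)
    set a := y - (x + κ₁ • x) with ha
    obtain ⟨p, q, hpq⟩ := Nat.isCoprime_iff_coprime.mpr h.hcop
    -- the l'-part
    set a2 : G := p • (l • a) with ha2
    have ha2m : a2 ∈ A₁ W l n' j x := AddSubgroup.zsmul_mem _ (AddSubgroup.nsmul_mem _ hyA l) p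
    have ha2n : n' • a2 = 0 := by
      rw [ha2, ← natCast_zsmul, smul_comm, natCast_zsmul, nsmul_left_comm, h.A15' hyA, smul_zero]
    set a1 : G := q • (n' • a) with ha1
    have ha1l : l • a1 = 0 := by
      rw [ha1, ← natCast_zsmul, smul_comm, natCast_zsmul, h.A15' hyA, smul_zero]
    have ha12 : a = a2 + a1 := by
      rw [ha1, ha2, ← natCast_zsmul a l, ← natCast_zsmul a n', smul_smul, smul_smul, ← add_smul,
        hpq, one_smul]
    obtain ⟨m, _, hm⟩ := tors hl (prime_order hl h.hx1' h.hx2) ha1l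
    -- the new point
    have hy' : y + -a2 ∈ orb W x := by
      rw [h.A15 hy (AddSubgroup.neg_mem _ ha2m), smul_neg, ha2n, neg_zero]
    set κ' := κ₁ * (1 + m * l) with hκ'
    have hy'' : x + κ' • x ∈ orb W x := by
      have e : x + κ' • x = y + -a2 := by
        have e1 : κ' • x = κ₁ • x + a1 := by
          rw [hm, hκ', ← hκκ₁, ← mul_nsmul', ← add_nsmul]
          congr 1; ring
        have e2 : y = x + κ₁ • x + a := by rw [ha]; abel
        rw [e1, e2, ha12]; abel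
      rw [e]; exact hy'
    have hp : ∀ p : ℕ, p.Prime → p ∣ Nat.card G → p ∣ κ' := by
      intro p hp hd
      apply Dvd.dvd.mul_right
      rw [h.hcard] at hd
      rcases (Nat.Prime.dvd_mul hp).mp hd with h1 | h1
      · have h2 := (Nat.prime_dvd_prime_iff_eq hp h.hl).mp (hp.dvd_of_dvd_pow h1)
        rw [h2]
        exact Dvd.dvd.mul_right (dvd_pow_self l (by omega)) n'
      · exact Dvd.dvd.mul_left h1 _
    have hR := h.R hp hx hy''
    -- κ'^2 x is killed by l and by κ'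
    have hlκ' : l ∣ κ' := by
      rw [hκ', hκ₁]
      exact Dvd.dvd.mul_right (Dvd.dvd.mul_right (dvd_pow_self l (by omega)) _) _
    obtain ⟨κ₂, hκ₂⟩ := hlκ'
    have hlκx : l • (κ' • x) = (l ^ (j - 1) * n') • x := by
      rw [← mul_nsmul']
      have : l * κ' = (l ^ (j - 1) * n') + (m * l) * (l ^ (j - 1) * n') := by
        rw [hκ', ← hκκ₁]; ring
      rw [this, add_nsmul, mul_nsmul' x (m * l), mul_nsmul' _ m l, h.hx1', nsmul_zero, add_zero]
    have hκ2 : l • (κ' • (κ' • x)) = 0 := by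
      rw [nsmul_left_comm, hlκx]
      rw [hκ₂, mul_comm l κ₂, mul_nsmul', h.hx1', nsmul_zero]
    have hκ3 : κ' • (κ' • (κ' • x)) = 0 := by
      calc κ' • (κ' • (κ' • x)) = κ₂ • (l • (κ' • (κ' • x))) := by
            rw [← mul_nsmul' _ κ₂ l, mul_comm κ₂ l, ← hκ₂]
        _ = 0 := by rw [hκ2, nsmul_zero]
    have hit : ∀ i : ℕ, x + i • (κ' • x) + (i.choose 2) • (κ' • (κ' • x)) ∈ orb W x := by
      intro i
      induction i with
      | zero => simpa using hx
      | succ i ih =>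
        have h1 := hR _ ih
        have e : x + i • (κ' • x) + (i.choose 2) • (κ' • (κ' • x))
            + κ' • (x + i • (κ' • x) + (i.choose 2) • (κ' • (κ' • x)))
            = x + (i + 1) • (κ' • x) + ((i + 1).choose 2) • (κ' • (κ' • x)) := by
          have h3 : (i + 1).choose 2 = i + i.choose 2 := by
            rw [Nat.choose_succ_succ' i 1, Nat.choose_one_right]
          rw [h3, nsmul_add, nsmul_add, nsmul_left_comm _ i κ', nsmul_left_comm _ (i.choose 2) κ',
            hκ3, nsmul_zero, add_nsmul, add_nsmul, one_nsmul]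
          abel
        rw [e] at h1
        exact h1
    have hfin := hit l
    have hl2 : 2 < l := lt_of_le_of_ne hl.two_le (Ne.symm hodd)
    obtain ⟨m', hm'⟩ := hl.dvd_choose_self (k := 2) (by norm_num) hl2
    rw [hm', mul_comm l m', mul_nsmul' (κ' • (κ' • x)) m' l, hκ2, nsmul_zero, add_zero,
      hlκx] at hfin
    exact h.hiso _ h.hx1' h.hx2 hfin
  · -- j = 2
    have hj' : j = 2 := by omega
    subst hj'
    -- i with l ∣ 1 + i n'
    obtain ⟨i, hi⟩ : ∃ i : ℕ, l ∣ 1 + i * n' := by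
      obtain ⟨i, hi⟩ := (Nat.exists_mul_mod_eq_of_coprime (l - 1) h.hcop.symm hl.ne_zero)
      refine ⟨i, ?_⟩
      have h2 := hl.two_le
      have : 1 + i * n' ≡ 0 [MOD l] := by
        have h3 : n' * i ≡ l - 1 [MOD l] := hi.2
        have h4 : 1 + i * n' ≡ 1 + (l - 1) [MOD l] := by
          rw [mul_comm]; exact Nat.ModEq.add_left 1 h3
        have h5 : 1 + (l - 1) = l := by omega
        rw [h5] at h4
        exact h4.trans (Nat.modEq_zero_iff_dvd.mpr dvd_rfl)
      exact Nat.modEq_zero_iff_dvd.mp this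
    obtain ⟨y, hy, hyA⟩ := hcon ((i * n') • x) (by
      have e : l • ((i * n') • x) = i • ((l ^ (2 - 1) * n') • x) := by
        rw [← mul_nsmul', ← mul_nsmul']
        congr 1; ring
      rw [e]
      exact AddSubgroup.nsmul_mem _ h.A1mem _)
    have h1 := h.A1kill hyA
    rw [nsmul_sub, sub_eq_zero] at h1
    apply h.A2 hy
    rw [h1]
    have e : x + (i * n') • x = (1 + i * n') • x := by rw [add_nsmul, one_nsmul]
    obtain ⟨m, hm⟩ := hi
    rw [e, hm, nsmul_left_comm, mul_comm l m, mul_nsmul', h.hx1', nsmul_zero]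

theorem TA.lemA (h : TA W l n' s j x) (hodd : l ≠ 2) {B C : AddSubgroup G} (hcov : Cov W B C l)
    {e : G} (he : addOrderOf e = l) (heC : e ∈ C) :
    x ∈ Lk W C B ∨ (A₁ W l n' j x ≤ B ∧ ∃ c, l • c ∈ A₁ W l n' j x ∧
      ∀ y ∈ orb W x, y - (x + c) ∉ A₁ W l n' j x) := by
  have hAC : A₁ W l n' j x ≤ C := h.A1min hcov.hC (tors_mem h.hl he heC h.hx1')
  rcases hcov.hcov (A₁ W l n' j x ⊔ B) (h.A1inv.sup hcov.hB) le_sup_right
    (sup_le hAC hcov.hBC) with h1 | h1
  · right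
    refine ⟨?_, h.not_lift hodd⟩
    rw [← h1]; exact le_sup_left
  · left
    have hRB : R' W l n' j x ≤ B := by
      have h2 := hcov.le h.A16 ⟨n', h.hcop, fun a ha => ha.2⟩
      intro a ha
      exact h2 ⟨hAC ha.1, ha⟩
    intro w hw u v hv
    rw [← h1] at hv
    obtain ⟨a, ha, b, hb, rfl⟩ := AddSubgroup.mem_sup.mp hv
    have k1 := hRB (h.A17 w hw u a ha)
    have k2 := hcov.hB.add hw (u + x + a) hb
    have k3 := hcov.hB.add hw (u + a) hb
    have e1 : w (u + x + (a + b)) - w (u + x) - (w (u + (a + b)) - w u)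
        = (w (u + x + a) - w (u + x) - (w (u + a) - w u))
          + ((w (u + x + a + b) - w (u + x + a)) - (w (u + a + b) - w (u + a))) := by
      rw [← add_assoc, ← add_assoc]; abel
    rw [e1]
    exact B.add_mem k1 (B.sub_mem k2 k3)

end Pool.Agent.R14.TII.Z
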