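import Pool.Agent.R14.TII.Z4

namespace Pool.Agent.R14.TII.Z

open scoped Classical

set_option linter.unusedSectionVars false

universe u

section quo

variable {G : Type*} {G' : Type*} [AddCommGroup G] [AddCommGroup G']

/-- the image of `W` in the permutations of a quotient -/
def quoW (W : Subgroup (Equiv.Perm G)) (π : G →+ G') : Subgroup (Equiv.Perm G') where
  carrier := {σ | ∃ w ∈ W, ∀ x, σ (π x) = π (w x)}
  one_mem' := ⟨1, W.one_mem, fun x => rfl⟩
  mul_mem' := by
    rintro σ τ ⟨w, hw, h⟩ ⟨z, hz, h'⟩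
    refine ⟨w * z, W.mul_mem hw hz, ?_⟩
    intro x
    rw [Equiv.Perm.mul_apply, h', h, Equiv.Perm.mul_apply]
  inv_mem' := by
    rintro σ ⟨w, hw, h⟩
    refine ⟨w⁻¹, W.inv_mem hw, ?_⟩
    intro x
    have h1 := h (w⁻¹ x)
    rw [appi] at h1
    rw [← h1, iapp]

variable {W : Subgroup (Equiv.Perm G)} {π : G →+ G'}

theorem ker_iff {a b : G} : π a = π b ↔ b - a ∈ π.ker := by
  rw [AddMonoidHom.mem_ker, map_sub, sub_eq_zero, eq_comm]

theorem quo_lift [Finite G'] (hπ : Function.Surjective π) (hker : InvS W (π.ker : Set G))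
    {w : Equiv.Perm G} (hw : w ∈ W) : ∃ σ ∈ quoW W π, ∀ x, σ (π x) = π (w x) := by
  have hs := Function.surjInv_eq hπ
  set F : G' → G' := fun y => π (w (Function.surjInv hπ y)) with hF
  have h1 : ∀ x, F (π x) = π (w x) := by
    intro x
    rw [hF]
    show π (w (Function.surjInv hπ (π x))) = π (w x)
    rw [ker_iff, ← SetLike.mem_coe, ← hker w hw, SetLike.mem_coe, ← ker_iff]
    exact hs _
  have hinj : Function.Injective F := by
    intro y z hyz
    obtain ⟨a, rfl⟩ := hπ y
    obtain ⟨b, rfl⟩ := hπ z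
    rw [h1, h1] at hyz
    rw [ker_iff, ← SetLike.mem_coe, ← hker w hw, SetLike.mem_coe, ← ker_iff] at hyz
    exact hyz
  refine ⟨Equiv.ofBijective F (Finite.injective_iff_bijective.mp hinj), ⟨w, hw, ?_⟩, ?_⟩
  · intro x; exact h1 x
  · intro x; exact h1 x

theorem quo_HasTr [Finite G'] (hπ : Function.Surjective π) (hW : HasTr W) :
    HasTr (quoW W π) := by
  intro c
  obtain ⟨c, rfl⟩ := hπ c
  exact ⟨Equiv.addRight c, hW c, fun x => by
    rw [Equiv.coe_addRight, Equiv.coe_addRight]; exact (map_add π x c).symm⟩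

theorem quo_image (hπ : Function.Surjective π) {D : Set G} (hD : InvS W D) :
    InvS (quoW W π) (π '' D) := by
  apply InvS.of_imp
  rintro σ ⟨w, hw, h⟩ u v hd
  obtain ⟨u, rfl⟩ := hπ u
  obtain ⟨v, rfl⟩ := hπ v
  obtain ⟨d, hdD, hd⟩ := hd
  have e : π v = π (u + d) := by rw [map_add, hd]; abel
  refine ⟨w (u + d) - w u, (hD w hw u (u + d)).mp (by rwa [add_sub_cancel_left]), ?_⟩
  rw [map_sub, ← h, ← h, e]

theorem quo_comap [Finite G'] (hπ : Function.Surjective π) (hker : InvS W (π.ker : Set G))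
    {D : Set G'} (hD : InvS (quoW W π) D) : InvS W (π ⁻¹' D) := by
  intro w hw u v
  obtain ⟨σ, hσ, h⟩ := quo_lift hπ hker hw
  rw [Set.mem_preimage, Set.mem_preimage, map_sub, map_sub, ← h, ← h]
  exact hD σ hσ _ _

theorem quo_map (hπ : Function.Surjective π) {A : AddSubgroup G} (hA : InvS W (A : Set G)) :
    InvS (quoW W π) (A.map π : Set G') := by
  rw [AddSubgroup.coe_map]
  exact quo_image hπ hA

theorem quo_Cov [Finite G'] (hπ : Function.Surjective π) (hker : InvS W (π.ker : Set G))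
    {B C : AddSubgroup G} {l : ℕ} (h : Cov W B C l) (hB : π.ker ≤ B) :
    Cov (quoW W π) (B.map π) (C.map π) l := by
  have hcm : ∀ A : AddSubgroup G, π.ker ≤ A → (A.map π).comap π = A := by
    intro A hA
    rw [AddSubgroup.comap_map_eq, sup_eq_left.mpr hA]
  refine ⟨quo_map hπ h.hB, quo_map hπ h.hC, AddSubgroup.map_mono h.hBC, ?_, h.hl, ?_⟩
  · intro A' hA' hBA' hAC'
    have h1 : InvS W (A'.comap π : Set G) := by
      rw [AddSubgroup.coe_comap]
      exact quo_comap hπ hker hA'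
    have h2 : B ≤ A'.comap π := by
      rw [← AddSubgroup.map_le_iff_le_comap]; exact hBA'
    have h3 : A'.comap π ≤ C := by
      rw [← hcm C (hB.trans h.hBC)]
      exact AddSubgroup.comap_mono hAC'
    have h4 : (A'.comap π).map π = A' := AddSubgroup.map_comap_eq_self_of_surjective hπ A'
    rcases h.hcov _ h1 h2 h3 with h5 | h5
    · left; rw [← h4, h5]
    · right; rw [← h4, h5]
  · obtain ⟨c, hcC, hcB, hlc⟩ := h.hc
    refine ⟨π c, AddSubgroup.mem_map_of_mem _ hcC, ?_, ?_⟩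
    · intro hc
      have : c ∈ (B.map π).comap π := hc
      rw [hcm B hB] at this
      exact hcB this
    · rw [← map_nsmul]
      exact AddSubgroup.mem_map_of_mem _ hlc

theorem quo_Lk [Finite G'] (hπ : Function.Surjective π) (hker : InvS W (π.ker : Set G))
    {B C : AddSubgroup G} (hB : π.ker ≤ B) {d : G}
    (hd : π d ∈ Lk (quoW W π) (C.map π) (B.map π)) : d ∈ Lk W C B := by
  have hcm : ∀ A : AddSubgroup G, π.ker ≤ A → (A.map π).comap π = A := by
    intro A hA
    rw [AddSubgroup.comap_map_eq, sup_eq_left.mpr hA]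
  intro w hw u v hv
  obtain ⟨σ, hσ, h⟩ := quo_lift hπ hker hw
  have h1 := hd σ hσ (π u) (π v) (AddSubgroup.mem_map_of_mem _ hv)
  rw [← map_add π, ← map_add π, ← map_add π, h, h, h, h, ← map_sub π, ← map_sub π,
    ← map_sub π] at h1
  rw [← hcm B hB]
  exact h1

end quo

/-- a covering pair has an element of order `l` in `C` -/
theorem Cov.exists_order {G : Type*} [AddCommGroup G] [Fintype G] [IsAddCyclic G] {W : Subgroup (Equiv.Perm G)}
    {B C : AddSubgroup G} {l : ℕ} (h : Cov W B C l) : ∃ e ∈ C, addOrderOf e = l := by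
  have : Fact l.Prime := ⟨h.hl⟩
  have hd : l ∣ Nat.card C := by
    by_contra hnd
    obtain ⟨c, hcC, hcB, hlc⟩ := h.hc
    apply hcB
    apply bez ((Nat.Prime.coprime_iff_not_dvd h.hl).mpr hnd) hlc
    have := card_nsmul_eq_zero' (x := (⟨c, hcC⟩ : C))
    have h2 : Nat.card C • c = 0 := congrArg Subtype.val this
    rw [h2]; exact B.zero_mem
  obtain ⟨e, he⟩ := exists_prime_addOrderOf_dvd_card' (G := C) l hd
  refine ⟨e, e.2, ?_⟩
  rw [← he, AddSubgroup.addOrderOf_coe]

/-- Lemma Z -/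
theorem lemZ : ∀ N : ℕ, ∀ (G : Type u) [AddCommGroup G] [Fintype G] [IsAddCyclic G]
    (W : Subgroup (Equiv.Perm G)), Nat.card G = N → Odd N → HasTr W →
    ∀ (B C : AddSubgroup G) (l : ℕ), Cov W B C l → ∀ e : G, addOrderOf e = l → e ∈ C →
    ∀ f : G → Prop, InvFn W f → ∀ x : G, f (x + e) ≠ f x → x ∈ Lk W C B ⊔ C := by
  intro N
  induction N using Nat.strong_induction_on with
  | _ N ih =>
  intro G _ _ _ W hN hodd hW B C l hcov e he heC f hf x hx
  have hl := hcov.hl
  have : Fact l.Prime := ⟨hl⟩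
  have hle : l • e = 0 := by rw [← he]; exact addOrderOf_nsmul_eq_zero e
  by_cases hsq : l ^ 2 ∣ addOrderOf x
  swap
  · exact lemB hW hcov he heC hf hx hsq
  -- type A
  have hl2 : l ≠ 2 := by
    rintro rfl
    have h1 : 2 ∣ Nat.card G := by rw [← he]; exact addOrderOf_dvd_natCard e
    rw [hN] at h1
    exact (Nat.not_even_iff_odd.mpr hodd) (even_iff_two_dvd.mpr h1)
  obtain ⟨s, n', hn', hcard⟩ := Nat.exists_eq_pow_mul_and_not_dvd (n := Nat.card G)
    Nat.card_pos.ne' l hl.ne_one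
  obtain ⟨j, o, ho, hord⟩ := Nat.exists_eq_pow_mul_and_not_dvd (n := addOrderOf x)
    (addOrderOf_pos x).ne' l hl.ne_one
  have hlo : l.Coprime o := (Nat.Prime.coprime_iff_not_dvd hl).mpr ho
  have hln : l.Coprime n' := (Nat.Prime.coprime_iff_not_dvd hl).mpr hn'
  have hj : 2 ≤ j := by
    rw [hord] at hsq
    have h1 : l ^ 2 ∣ l ^ j := (Nat.Coprime.dvd_of_dvd_mul_right (Nat.Coprime.pow_left 2 hlo) hsq)
    exact (Nat.pow_dvd_pow_iff_le_right hl.one_lt).mp h1
  have hon : o ∣ n' := by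
    have h1 : addOrderOf x ∣ Nat.card G := addOrderOf_dvd_natCard x
    rw [hord, hcard] at h1
    have h2 : o ∣ l ^ s * n' := (dvd_mul_left o _).trans h1
    exact (Nat.Coprime.dvd_of_dvd_mul_left (Nat.Coprime.pow_right s hlo.symm) h2)
  have hx1 : (l ^ j * n') • x = 0 := by
    rw [← addOrderOf_dvd_iff_nsmul_eq_zero, hord]
    exact mul_dvd_mul_left _ hon
  have hx2 : (l ^ (j - 1) * n') • x ≠ 0 := by
    intro h0
    rw [← addOrderOf_dvd_iff_nsmul_eq_zero, hord] at h0
    have h1 : l ^ j ∣ l ^ (j - 1) :=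
      (Nat.Coprime.dvd_of_dvd_mul_right (Nat.Coprime.pow_left j hln) ((dvd_mul_right _ _).trans h0))
    have := (Nat.pow_dvd_pow_iff_le_right hl.one_lt).mp h1
    omega
  have hiso : ∀ e' : G, l • e' = 0 → e' ≠ 0 → x + e' ∉ orb W x := by
    intro e' hle' he'0 hmem
    -- κ x
    set κ := l ^ (j - 1) * n' with hκ
    have hlκ : l • (κ • x) = 0 := by
      rw [← mul_nsmul', ← hx1]
      congr 1
      have : j = (j - 1) + 1 := by omega
      conv_rhs => rw [this, pow_succ]
      rw [hκ]; ring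
    obtain ⟨k, _, hk⟩ := tors hl (prime_order hl hlκ hx2) hle'
    have hp : ∀ p : ℕ, p.Prime → p ∣ Nat.card G → p ∣ k * κ := by
      intro p hp hd
      apply Dvd.dvd.mul_left
      rw [hcard] at hd
      rcases (Nat.Prime.dvd_mul hp).mp hd with h1 | h1
      · have h2 := (Nat.prime_dvd_prime_iff_eq hp hl).mp (hp.dvd_of_dvd_pow h1)
        rw [h2]
        exact Dvd.dvd.mul_right (dvd_pow_self l (by omega)) n'
      · exact Dvd.dvd.mul_left h1 _
    have hR := lemR hW hp (x := x) (by rw [mul_nsmul', ← hk]; exact hmem)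
    have hκe : (k * κ) • e' = 0 := by
      have h1 : k * κ = (k * (l ^ (j - 2) * n')) * l := by
        have : j - 1 = (j - 2) + 1 := by omega
        rw [hκ, this, pow_succ]; ring
      rw [h1, mul_nsmul', hle', nsmul_zero]
    have hit : ∀ i : ℕ, x + i • e' ∈ orb W x := by
      intro i
      induction i with
      | zero => rw [zero_nsmul, add_zero]; exact orb_self x
      | succ i ih =>
        have h1 := hR _ ih
        rw [nsmul_add, mul_nsmul' x k κ, ← hk, nsmul_left_comm e' i (k * κ), hκe, nsmul_zero,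
          add_zero] at h1
        rw [succ_nsmul, ← add_assoc]; exact h1
    obtain ⟨i, _, hi⟩ := tors hl (prime_order hl hle' he'0) hle
    apply hx
    rw [hi]
    exact hf.orb (hit i)
  have hTA : TA W l n' s j x := ⟨hW, hl, hcard, hln, hj, hx1, hx2, hiso⟩
  rcases hTA.lemA hl2 hcov he heC with h1 | ⟨hAB, c, hlc, hc⟩
  · exact (le_sup_left : Lk W C B ≤ Lk W C B ⊔ C) h1
  -- the quotient
  set A := A₁ W l n' j x with hA
  let π : G →+ G ⧸ A := QuotientAddGroup.mk' A
  have hπ : Function.Surjective π := QuotientAddGroup.mk'_surjective A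
  have hkerA : π.ker = A := QuotientAddGroup.ker_mk' A
  have hker : InvS W (π.ker : Set G) := by rw [hkerA]; exact hTA.A1inv
  have : Fintype (G ⧸ A) := Fintype.ofFinite _
  have : IsAddCyclic (G ⧸ A) := isAddCyclic_of_surjective π hπ
  have hcardA : Nat.card G = Nat.card (G ⧸ A) * Nat.card A :=
    AddSubgroup.card_eq_card_quotient_mul_card_addSubgroup A
  have hA1 : 1 < Nat.card A := by
    rw [Finite.one_lt_card_iff_nontrivial]
    refine ⟨⟨⟨_, hTA.A1mem⟩, 0, ?_⟩⟩
    intro h0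
    exact hx2 (congrArg Subtype.val h0)
  have hlt : Nat.card (G ⧸ A) < N := by
    rw [← hN, hcardA]
    have := Nat.card_pos (α := G ⧸ A)
    nlinarith
  have hoddq : Odd (Nat.card (G ⧸ A)) := by
    have : Nat.card (G ⧸ A) ∣ N := by rw [← hN, hcardA]; exact dvd_mul_right _ _
    exact Odd.of_dvd_nat hodd this
  have hcov' := quo_Cov hπ hker hcov (by rw [hkerA]; exact hAB)
  obtain ⟨e₀, he₀, he₀'⟩ := hcov'.exists_order
  have hπc : l • π c = 0 := by
    rw [← map_nsmul]
    have : l • c ∈ π.ker := by rw [hkerA]; exact hlc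
    exact this
  have hmemA : ∀ a b : G, π a = π b → b - a ∈ A := by
    intro a b hab
    rw [← hkerA]; exact ker_iff.mp hab
  have hπc0 : π c ≠ 0 := by
    intro h0
    apply hc x (orb_self x)
    have h1 : c ∈ A := by rw [← hkerA]; exact h0
    have e1 : x - (x + c) = -c := by abel
    rw [e1]; exact A.neg_mem h1
  have hordc := prime_order hl hπc hπc0
  have hmemC : π c ∈ C.map π := tors_mem hl he₀' he₀ hπc
  have hf' : InvFn (quoW W π) (fun y : G ⧸ A => y ∈ π '' (orb W x)) := by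
    intro σ hσ u v
    exact propext (quo_image hπ (orb_inv hW x) σ hσ u v).symm
  have key := ih (Nat.card (G ⧸ A)) hlt (G ⧸ A) (quoW W π) rfl hoddq (quo_HasTr hπ hW)
    (B.map π) (C.map π) l hcov' (π c) hordc hmemC _ hf' (π x) (by
      intro heq
      have h1 : π x ∈ π '' (orb W x) := ⟨x, orb_self x, rfl⟩
      have h2 : π x + π c ∈ π '' (orb W x) := by
        have := heq
        exact this.symm ▸ h1
      obtain ⟨y, hy, hyx⟩ := h2
      rw [← map_add] at hyx
      have h3 := hmemA _ _ hyx.symm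
      exact hc y hy h3)
  obtain ⟨d', hd', c', hc', hdc⟩ := AddSubgroup.mem_sup.mp key
  obtain ⟨d, rfl⟩ := hπ d'
  obtain ⟨c₁, hc₁, rfl⟩ := hc'
  have hdL := quo_Lk hπ hker (by rw [hkerA]; exact hAB) hd'
  have hsum : x - (d + c₁) ∈ A := hmemA _ _ (by rw [map_add]; exact hdc)
  have e1 : x = d + (c₁ + (x - (d + c₁))) := by abel
  rw [e1]
  exact AddSubgroup.add_mem_sup hdL (C.add_mem hc₁ (hcov.hBC (hAB hsum)))

end Pool.Agent.R14.TII.Z
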