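import Pool.Agent.R14.TII.Z5
import Pool.Agent.R14.TII.SF2

namespace Pool.Agent.R14.TII

open scoped Classical

set_option linter.unusedSectionVars false

universe u

variable {G : Type u} [AddCommGroup G] {t : G} {E : AddSubgroup G} {S : Set G}

/-- first components of TF-morphisms -/
def WW (S : Set G) : Subgroup (Equiv.Perm G) where
  carrier := {α | ∃ β, TF S α β}
  one_mem' := ⟨1, fun _ _ => Iff.rfl⟩
  mul_mem' := by
    rintro α α' ⟨β, h⟩ ⟨β', h'⟩
    exact ⟨β * β', h.mul h'⟩
  inv_mem' := by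
    rintro α ⟨β, h⟩
    exact ⟨β⁻¹, h.inv⟩

theorem WW_tr (S : Set G) : Z.HasTr (WW S) := fun c => ⟨_, TF.tr S c⟩

variable [Fintype G] {h : Hyp t E S}

theorem invS_of {D : Set G} (hD : Inv S D) : Z.InvS (WW S) D := by
  rintro w ⟨β, hβ⟩ u v
  exact hD w β hβ u v

theorem of_invS {D : Set G} (hD : Z.InvS (WW S) D) : Inv S D :=
  fun α β h1 u v => hD α ⟨β, h1⟩ u v

/-- `α` is trivial on the pair `(A, B)` -/
def Triv (α : Equiv.Perm G) (A B : AddSubgroup G) : Prop :=
  ∀ u, ∀ v ∈ A, α (u + v) - α u - v ∈ B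

theorem Triv.mul {α γ : Equiv.Perm G} {A B : AddSubgroup G} (hB : Z.InvS (WW S) (B : Set G))
    (hα : α ∈ WW S) (h1 : Triv α A B) (h2 : Triv γ A B) : Triv (α * γ) A B := by
  intro u v hv
  rw [Equiv.Perm.mul_apply, Equiv.Perm.mul_apply]
  have k2 := h2 u v hv
  set b := γ (u + v) - γ u - v with hb
  have e1 : γ (u + v) = γ u + v + b := by rw [hb]; abel
  rw [e1]
  have k3 := hB.add hα (γ u + v) k2
  have k1 := h1 (γ u) v hv
  have e2 : α (γ u + v + b) - α (γ u) - v
      = (α (γ u + v + b) - α (γ u + v)) + (α (γ u + v) - α (γ u) - v) := by abel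
  rw [e2]; exact B.add_mem k3 k1

theorem Triv.inv {α : Equiv.Perm G} {A B : AddSubgroup G} (hB : Z.InvS (WW S) (B : Set G))
    (hα : α ∈ WW S) (h1 : Triv α A B) : Triv α⁻¹ A B := by
  intro u v hv
  set p := α⁻¹ u with hp
  have hup : α p = u := by rw [hp, app_inv]
  have k1 := h1 p v hv
  rw [hup] at k1
  set b := α (p + v) - u - v with hb
  have e1 : α (p + v) = u + v + b := by rw [hb]; abel
  have e2 : α⁻¹ (u + v + b) = p + v := by rw [← e1, inv_app]
  have k2 := hB.add ((WW S).inv_mem hα) (u + v) k1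
  rw [e2] at k2
  have e3 : α⁻¹ (u + v) - p - v = -(p + v - α⁻¹ (u + v)) := by abel
  rw [e3]; exact B.neg_mem k2

theorem Triv.one (A B : AddSubgroup G) : Triv (1 : Equiv.Perm G) A B := by
  intro u v _
  have : (1 : Equiv.Perm G) (u + v) - (1 : Equiv.Perm G) u - v = 0 := by
    rw [Equiv.Perm.one_apply, Equiv.Perm.one_apply]; abel
  rw [this]; exact B.zero_mem

theorem Triv.pow {α : Equiv.Perm G} {A B : AddSubgroup G} (hB : Z.InvS (WW S) (B : Set G))
    (hα : α ∈ WW S) (h1 : Triv α A B) (i : ℕ) : Triv (α ^ i) A B := by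
  induction i with
  | zero => rw [pow_zero]; exact Triv.one A B
  | succ i ih => rw [pow_succ']; exact Triv.mul hB hα h1 ih

theorem Triv.loc {α : Equiv.Perm G} {A B : AddSubgroup G} (h1 : Triv α A B) (a : G) :
    Triv (loc α a) A B := by
  intro u v hv
  rw [loc_apply, loc_apply]
  have := h1 (a + u) v hv
  have e : α (a + (u + v)) - α a - (α (a + u) - α a) - v = α (a + u + v) - α (a + u) - v := by
    rw [← add_assoc]; abel
  rw [e]; exact this

/-- pairs on which `α` is not trivial -/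
def Nt (S : Set G) (α : Equiv.Perm G) : Set (AddSubgroup G × AddSubgroup G) :=
  {p | Z.InvS (WW S) (p.1 : Set G) ∧ Z.InvS (WW S) (p.2 : Set G) ∧ ¬ Triv α p.1 p.2}

/-- admissible TF-morphisms -/
def Ad (t : G) (S : Set G) (α β : Equiv.Perm G) : Prop :=
  TF S α β ∧ α 0 = 0 ∧ eps t α β 0 = -1

theorem Ad.pow (g : h.Good) {α β : Equiv.Perm G} (ha : Ad t S α β) (i : ℕ) :
    TF S (α ^ i) (β ^ i) ∧ (α ^ i) 0 = 0 ∧ eps t (α ^ i) (β ^ i) 0 = (-1) ^ i := by
  induction i with
  | zero =>
    rw [pow_zero, pow_zero, pow_zero]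
    exact ⟨fun _ _ => Iff.rfl, rfl, eps_one h 0⟩
  | succ i ih =>
    obtain ⟨h1, h2, h3⟩ := ih
    rw [pow_succ, pow_succ, pow_succ]
    refine ⟨h1.mul ha.1, ?_, ?_⟩
    · rw [Equiv.Perm.mul_apply, ha.2.1, h2]
    · rw [eps_mul g h1 ha.1, ha.2.1, h3, ha.2.2]

theorem exists_min (g : h.Good) : ∃ α β : Equiv.Perm G, Ad t S α β ∧ (∃ k : ℕ, α ^ (2 ^ k) = 1) ∧
    ∀ α' β', Ad t S α' β' → ¬ (Nt S α' ⊂ Nt S α) := by
  have : Finite (AddSubgroup G) := inferInstance
  have hex : ∃ n, ∃ α β : Equiv.Perm G, Ad t S α β ∧ (Nt S α).ncard = n := by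
    obtain ⟨_, α, β, h1, h2, h3, _⟩ := adm_top g
    exact ⟨_, α, β, ⟨h1, h2, h3⟩, rfl⟩
  obtain ⟨α, β, ha, hc⟩ := Nat.find_spec hex
  obtain ⟨k, o, ho, hord⟩ := Nat.exists_eq_pow_mul_and_not_dvd (n := orderOf α)
    (orderOf_pos α).ne' 2 (by norm_num)
  have hodd : Odd o := Nat.not_even_iff_odd.mp (fun he => ho (even_iff_two_dvd.mp he))
  obtain ⟨h1, h2, h3⟩ := Ad.pow g ha o
  rw [hodd.neg_one_pow] at h3
  refine ⟨α ^ o, β ^ o, ⟨h1, h2, h3⟩, ⟨k, ?_⟩, ?_⟩
  · rw [← pow_mul, mul_comm, ← hord, pow_orderOf_eq_one]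
  · intro α' β' ha' hlt
    have hsub : Nt S (α ^ o) ⊆ Nt S α := by
      rintro p ⟨p1, p2, p3⟩
      exact ⟨p1, p2, fun hT => p3 (Triv.pow p2 ⟨β, ha.1⟩ hT o)⟩
    have hlt' : (Nt S α').ncard < (Nt S α).ncard :=
      Set.ncard_lt_ncard (hlt.trans_subset hsub) (Set.toFinite _)
    rw [hc] at hlt'
    exact Nat.find_min hex hlt' ⟨α', β', ha', rfl⟩

/-- the key property of a minimal admissible pair -/
theorem key_const (g : h.Good) {α β : Equiv.Perm G} (ha : Ad t S α β)
    (hmin : ∀ α' β', Ad t S α' β' → ¬ (Nt S α' ⊂ Nt S α))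
    {A B : AddSubgroup G} (hAB : (A, B) ∈ Nt S α) {c : G} (hc : c ∈ Z.Lk (WW S) A B) (a : G) :
    eps t α β (a + c) = eps t α β a := by
  obtain ⟨hA, hB, hnt⟩ := hAB
  simp only at hA hB hnt
  by_contra hne
  have h1 := ha.1
  have hαW : α ∈ WW S := ⟨β, h1⟩
  have h2 := ((h1.loc a).inv).mul (h1.loc (a + c))
  have hlW : ∀ b, loc α b ∈ WW S := fun b => ⟨_, h1.loc b⟩
  have hl0 : ∀ b, loc α b 0 = 0 := by intro b; rw [loc_apply]; simp
  have h0 : ((loc α a)⁻¹ * loc α (a + c)) 0 = 0 := by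
    rw [Equiv.Perm.mul_apply, Equiv.Perm.inv_eq_iff_eq, hl0, hl0]
  have heps : eps t ((loc α a)⁻¹ * loc α (a + c)) ((loc' α β a)⁻¹ * loc' α β (a + c)) 0 = -1 := by
    rw [eps_mul g (h1.loc a).inv (h1.loc (a + c)), hl0]
    have k := eps_inv g (h1.loc a) 0
    rw [hl0] at k
    rw [k, eps_loc, eps_loc, add_zero, add_zero]
    rcases eps_pm t α β a with k1 | k1 <;> rcases eps_pm t α β (a + c) with k2 | k2
    · exact absurd (k2.trans k1.symm) hne
    · rw [k1, k2]; norm_num
    · rw [k1, k2]; norm_num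
    · exact absurd (k2.trans k1.symm) hne
  have hD := Z.Lk_inv (WW_tr S) hA hB
  have hcD : ∀ w ∈ WW S, ∀ u, w (u + c) - w u ∈ Z.Lk (WW S) A B := by
    intro w hw u
    exact hD.add hw u hc
  apply hmin _ _ ⟨h2, h0, heps⟩
  rw [Set.ssubset_def]
  constructor
  · rintro p ⟨p1, p2, p3⟩
    refine ⟨p1, p2, fun hT => p3 ?_⟩
    exact Triv.mul p2 ((WW S).inv_mem (hlW a)) (Triv.inv p2 (hlW a) (hT.loc a)) (hT.loc (a + c))
  · intro hsub
    have hmem : (A, B) ∈ Nt S α := ⟨hA, hB, hnt⟩
    obtain ⟨_, _, hnt'⟩ := hsub hmem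
    apply hnt'
    show Triv ((loc α a)⁻¹ * loc α (a + c)) A B
    intro u v hv
    rw [Equiv.Perm.mul_apply, Equiv.Perm.mul_apply]
    set lam := loc α a with hlam
    set mu := loc α (a + c) with hmu
    set p := lam⁻¹ (mu u) with hp
    have hlp : lam p = mu u := by rw [hp, app_inv]
    -- p - u ∈ D
    have hpu : p - u ∈ Z.Lk (WW S) A B := by
      have k : lam p - lam u ∈ (Z.Lk (WW S) A B : Set G) := by
        rw [hlp, hmu, hlam, loc_apply, loc_apply]
        have e : α (a + c + u) - α (a + c) - (α (a + u) - α a)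
            = (α (a + u + c) - α (a + u)) - (α (a + c) - α a) := by
          have : a + c + u = a + u + c := by abel
          rw [this]; abel
        rw [e]
        exact (Z.Lk (WW S) A B).sub_mem (hcD α hαW _) (hcD α hαW _)
      exact (hD lam (hlW a) u p).mpr k
    have k1 := hc α hαW (a + u) v hv
    have k2 := hpu lam (hlW a) u v hv
    have e0 : u + (p - u) = p := by abel
    rw [e0] at k2
    -- lam (p + v) ≡ mu (u + v)
    have k3 : mu (u + v) - lam (p + v) ∈ B := by
      have e1 : mu (u + v) - mu u = α (a + u + c + v) - α (a + u + c) := by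
        rw [hmu, loc_apply, loc_apply]
        have e2 : a + c + (u + v) = a + u + c + v := by abel
        have e3 : a + c + u = a + u + c := by abel
        rw [e2, e3]; abel
      have e4 : lam (u + v) - lam u = α (a + u + v) - α (a + u) := by
        rw [hlam, loc_apply, loc_apply, ← add_assoc]; abel
      have e5 : mu (u + v) - lam (p + v)
          = (α (a + u + c + v) - α (a + u + c) - (α (a + u + v) - α (a + u)))
            - (lam (p + v) - lam p - (lam (u + v) - lam u)) := by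
        rw [← e1, ← e4, hlp]; abel
      rw [e5]; exact B.sub_mem k1 k2
    have k4 := (hB lam⁻¹ ((WW S).inv_mem (hlW a)) (lam (p + v)) (mu (u + v))).mp k3
    rw [inv_app] at k4
    have e6 : lam⁻¹ (mu (u + v)) - p - v = lam⁻¹ (mu (u + v)) - (p + v) := by abel
    rw [e6]; exact k4

theorem main_all [IsAddCyclic G] (g : h.Good) :
    ∃ γ : Equiv.Perm G, ∀ u v, (γ v - γ u ∈ S ↔ v - u + t ∈ S) := by
  obtain ⟨α, β, ha, ⟨k2, hk2⟩, hmin⟩ := exists_min g
  obtain ⟨h1, h0, he0⟩ := ha
  have hαW : α ∈ WW S := ⟨β, h1⟩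
  set DDs : Set G := {x | x ∈ h.H ∨ ∃ A B, (A, B) ∈ Nt S α ∧ x ∈ Z.Lk (WW S) A B} with hDDs
  set M : AddSubgroup G := AddSubgroup.closure DDs with hMdef
  have hDDi : Z.InvS (WW S) DDs := by
    apply Z.InvS.of_imp
    rintro w hw u v (hx | ⟨A, B, hAB, hx⟩)
    · exact Or.inl ((invS_of (Inv_H g) w hw u v).mp hx)
    · exact Or.inr ⟨A, B, hAB, (Z.Lk_inv (WW_tr S) hAB.1 hAB.2.1 w hw u v).mp hx⟩
  have hM : Z.InvS (WW S) (M : Set G) := hDDi.closure
  have hHM : h.H ≤ M := fun x hx => AddSubgroup.subset_closure (Or.inl hx)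
  have hLkM : ∀ A B, (A, B) ∈ Nt S α → Z.Lk (WW S) A B ≤ M :=
    fun A B hAB x hx => AddSubgroup.subset_closure (Or.inr ⟨A, B, hAB, hx⟩)
  -- eps is constant on cosets of M
  have hconst : ∀ c ∈ M, ∀ x, eps t α β (x + c) = eps t α β x := by
    intro c hc
    rw [hMdef] at hc
    induction hc using AddSubgroup.closure_induction with
    | mem c hc =>
      intro x
      rcases hc with hc | ⟨A, B, hAB, hc⟩
      · exact g.epsH h1 x hc
      · exact key_const g ⟨h1, h0, he0⟩ hmin hAB hc x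
    | zero => intro x; rw [add_zero]
    | add x y _ _ hx hy => intro a; rw [← add_assoc, hy, hx]
    | neg x _ hx =>
      intro a
      have := hx (a + -x)
      rw [neg_add_cancel_right] at this
      exact this.symm
  have heps : ∀ x ∈ M, eps t α β x = -1 := by
    intro x hx
    have := hconst x hx 0
    rw [zero_add, he0] at this
    exact this
  -- the radical
  set D : Set G := {x | x ∈ S ∧ x ∉ M} with hD
  have hDi : Z.InvS (WW S) D := by
    apply Z.InvS.of_imp
    rintro w ⟨β', hw⟩ u v ⟨hx1, hx2⟩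
    have k1 : v - u ∉ h.H := fun hh => hx2 (hHM hh)
    exact ⟨(g.outtrans hw k1).mpr hx1, fun hh => hx2 ((hM w ⟨β', hw⟩ u v).mpr hh)⟩
  set r : AddSubgroup G := M ⊓ Z.rad D with hr
  have hri : Z.InvS (WW S) (r : Set G) := hM.inf (Z.rad_inv hDi)
  have hrM : r ≤ M := inf_le_left
  have htr : t ∈ r := by
    refine ⟨hHM h.tH, ?_⟩
    intro v
    have htM : t ∈ M := hHM h.tH
    by_cases hv : v ∈ M
    · have : v + t ∈ M := M.add_mem hv htM
      exact ⟨fun hh => absurd hv hh.2, fun hh => absurd this hh.2⟩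
    · have hv' : v + t ∉ M := by
        intro hh
        apply hv
        have := M.sub_mem hh htM
        simpa using this
      have k := h.outH (x := v) (fun hh => hv (hHM hh))
      exact ⟨fun hh => ⟨k.mp hh.1, hv'⟩, fun hh => ⟨k.mpr hh.1, hv⟩⟩
  -- odd multiples
  obtain ⟨k, hk⟩ := h.hodd
  have hodd : ∀ x : G, (2 * k + 1) • x ∈ r := by
    intro x
    rcases h.hE x with hx | hx
    · rw [hk x hx]; exact r.zero_mem
    · have := hk _ hx
      rw [nsmul_add] at this
      have e : (2 * k + 1) • x = -((2 * k + 1) • t) := eq_neg_of_add_eq_zero_left this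
      rw [e]; exact r.neg_mem (r.nsmul_mem htr _)
  -- the main claim
  have hclaim : ∀ v ∈ M, α v - v ∈ r := by
    let P : AddSubgroup G → Prop := fun C => Z.InvS (WW S) (C : Set G) ∧ r ≤ C ∧ C ≤ M ∧
      ∀ v ∈ M, α v - v ∈ C
    have hPM : P M := by
      refine ⟨hM, hrM, le_rfl, ?_⟩
      intro v hv
      have := (hM α hαW 0 v).mp (by rw [sub_zero]; exact hv)
      rw [h0, sub_zero] at this
      exact M.sub_mem this hv
    have hexC : ∃ n, ∃ C, P C ∧ Nat.card C = n := ⟨_, M, hPM, rfl⟩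
    obtain ⟨C, ⟨hCi, hrC, hCM, hCα⟩, hCn⟩ := Nat.find_spec hexC
    have hCmin : ∀ C', P C' → Nat.card C ≤ Nat.card C' := by
      intro C' hC'
      rw [hCn]
      exact Nat.find_min' hexC ⟨C', hC', rfl⟩
    by_cases hCr : C = r
    · rw [← hCr]; exact hCα
    exfalso
    let Q : AddSubgroup G → Prop := fun B => Z.InvS (WW S) (B : Set G) ∧ r ≤ B ∧ B ≤ C ∧ B ≠ C
    have hexB : ∃ n, ∃ B, Q B ∧ Nat.card G - Nat.card B = n :=
      ⟨_, r, ⟨hri, le_rfl, hrC, fun hh => hCr hh.symm⟩, rfl⟩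
    obtain ⟨B, ⟨hBi, hrB, hBC, hBne⟩, hBn⟩ := Nat.find_spec hexB
    have hcov : ∀ A : AddSubgroup G, Z.InvS (WW S) (A : Set G) → B ≤ A → A ≤ C →
        A = B ∨ A = C := by
      intro A hA hBA hAC
      by_cases hA1 : A = C
      · exact Or.inr hA1
      left
      have h3 := Nat.find_min' hexB ⟨A, ⟨hA, hrB.trans hBA, hAC, hA1⟩, rfl⟩
      rw [← hBn] at h3
      have h4 : Nat.card A ≤ Nat.card G := AddSubgroup.card_le_card_addGroup A
      have h5 : Nat.card B ≤ Nat.card G := AddSubgroup.card_le_card_addGroup B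
      symm
      apply AddSubgroup.eq_of_le_of_card_ge hBA
      omega
    -- α is not trivial on (C, B)
    have hnt : ¬ Triv α C B := by
      intro hT
      have hit : ∀ v ∈ M, ∀ i : ℕ, (α ^ i) v - v - i • (α v - v) ∈ B := by
        intro v hv i
        induction i with
        | zero =>
          have : (α ^ 0) v - v - 0 • (α v - v) = 0 := by
            rw [pow_zero, Equiv.Perm.one_apply, zero_nsmul]; abel
          rw [this]; exact B.zero_mem
        | succ i ih =>
          set d := α v - v with hd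
          set b := (α ^ i) v - v - i • d with hb
          have e1 : (α ^ i) v = v + i • d + b := by rw [hb]; abel
          rw [pow_succ', Equiv.Perm.mul_apply, e1]
          have k1 := hBi.add hαW (v + i • d) ih
          have k2 := hT v (i • d) (C.nsmul_mem (hCα v hv) i)
          have e2 : α (v + i • d + b) - v - (i + 1) • d
              = (α (v + i • d + b) - α (v + i • d)) + (α (v + i • d) - α v - i • d) := by
            rw [add_nsmul, one_nsmul]
            have : α v = d + v := by rw [hd]; abel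
            rw [this]; abel
          rw [e2]; exact B.add_mem k1 k2
      have hPB : P B := by
        refine ⟨hBi, hrB, hBC.trans hCM, ?_⟩
        intro v hv
        have k1 := hit v hv (2 ^ k2)
        rw [hk2, Equiv.Perm.one_apply] at k1
        have k3 : (2 ^ k2) • (α v - v) ∈ B := by
          have e : v - v - 2 ^ k2 • (α v - v) = -(2 ^ k2 • (α v - v)) := by abel
          rw [e] at k1
          have := B.neg_mem k1
          rwa [neg_neg] at this
        refine Z.bez (l := 2 ^ k2) (k := 2 * k + 1) ?_ k3 (hrB (hodd _))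
        apply Nat.Coprime.pow_left
        rw [Nat.coprime_two_left]
        exact ⟨k, rfl⟩
      have h3 := hCmin B hPB
      exact hBne (AddSubgroup.eq_of_le_of_card_ge hBC h3)
    have hNt : (C, B) ∈ Nt S α := ⟨hCi, hBi, hnt⟩
    have hLk := hLkM C B hNt
    -- a prime
    obtain ⟨c, hcC, hcB⟩ : ∃ c ∈ C, c ∉ B := by
      by_contra hcon
      push Not at hcon
      exact hBne (le_antisymm hBC hcon)
    have hexn : ∃ n : ℕ, 0 < n ∧ n • c ∈ B := ⟨2 * k + 1, by omega, hrB (hodd c)⟩
    obtain ⟨hn0, hnB⟩ := Nat.find_spec hexn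
    set n := Nat.find hexn with hn
    have hn1 : n ≠ 1 := by
      intro hh
      rw [hh, one_nsmul] at hnB
      exact hcB hnB
    set l := n.minFac with hl
    have hlp : l.Prime := Nat.minFac_prime hn1
    obtain ⟨q, hq⟩ := Nat.minFac_dvd n
    rw [← hl] at hq
    have hq0 : 0 < q := by
      rcases Nat.eq_zero_or_pos q with h6 | h6
      · rw [h6, mul_zero] at hq; omega
      · exact h6
    have hqn : q < n := by
      rw [hq]
      have := hlp.two_le
      nlinarith
    have hCov : Z.Cov (WW S) B C l := by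
      refine ⟨hBi, hCi, hBC, hcov, hlp, q • c, C.nsmul_mem hcC q, ?_, ?_⟩
      · intro hh
        exact Nat.find_min hexn hqn ⟨hq0, hh⟩
      · rw [← mul_nsmul', ← hq]; exact hnB
    -- the quotient
    let π : G →+ G ⧸ r := QuotientAddGroup.mk' r
    have hπ : Function.Surjective π := QuotientAddGroup.mk'_surjective r
    have hkerr : π.ker = r := QuotientAddGroup.ker_mk' r
    have hker : Z.InvS (WW S) (π.ker : Set G) := by rw [hkerr]; exact hri
    have : Fintype (G ⧸ r) := Fintype.ofFinite _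
    have : IsAddCyclic (G ⧸ r) := isAddCyclic_of_surjective π hπ
    have hcardodd : Odd (Nat.card (G ⧸ r)) := by
      by_contra hev
      rw [Nat.not_odd_iff_even, even_iff_two_dvd] at hev
      have : Fact (Nat.Prime 2) := ⟨Nat.prime_two⟩
      obtain ⟨y, hy⟩ := exists_prime_addOrderOf_dvd_card' (G := G ⧸ r) 2 hev
      obtain ⟨x, rfl⟩ := hπ y
      have h7 : (2 * k + 1) • π x = 0 := by
        rw [← map_nsmul]
        have : (2 * k + 1) • x ∈ π.ker := by rw [hkerr]; exact hodd x
        exact this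
      have h8 := addOrderOf_dvd_of_nsmul_eq_zero h7
      rw [hy] at h8
      omega
    have hcov' := Z.quo_Cov hπ hker hCov (by rw [hkerr]; exact hrB)
    obtain ⟨e', he'C, he'⟩ := hcov'.exists_order
    obtain ⟨e, heC, rfl⟩ := he'C
    have her : e ∉ r := by
      intro hh
      rw [← hkerr] at hh
      have h9 : π e = 0 := hh
      rw [h9, addOrderOf_zero] at he'
      exact hlp.one_lt.ne he'
    have heM : e ∈ M := hCM heC
    have herad : ¬ (e ∈ Z.rad D) := fun hh => her ⟨heM, hh⟩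
    have hexv : ∃ v, ¬ (v ∈ D ↔ v + e ∈ D) := by
      by_contra hcon
      push Not at hcon
      exact herad hcon
    obtain ⟨v, hv⟩ := hexv
    have hvM : v ∉ M := by
      intro hvM
      apply hv
      have : v + e ∈ M := M.add_mem hvM heM
      exact ⟨fun hh => absurd hvM hh.2, fun hh => absurd this hh.2⟩
    have hsat : ∀ x : G, π x ∈ π '' D ↔ x ∈ D := by
      intro x
      constructor
      · rintro ⟨y, hy, hyx⟩
        have h10 : x - y ∈ r := by rw [← hkerr]; exact Z.ker_iff.mp hyx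
        have := (h10.2 y).mp hy
        rwa [add_sub_cancel] at this
      · intro hx
        exact ⟨x, hx, rfl⟩
    have hf' : Z.InvFn (Z.quoW (WW S) π) (fun y : G ⧸ r => y ∈ π '' D) := by
      intro σ hσ u v
      exact propext (Z.quo_image hπ hDi σ hσ u v).symm
    have key := Z.lemZ (Nat.card (G ⧸ r)) (G ⧸ r) (Z.quoW (WW S) π) rfl hcardodd
      (Z.quo_HasTr hπ (WW_tr S)) (B.map π) (C.map π) l hcov' (π e) he'
      (AddSubgroup.mem_map_of_mem _ heC) _ hf' (π v) (by
        intro heq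
        apply hv
        have h11 : (π v + π e ∈ π '' D) = (π v ∈ π '' D) := heq
        rw [← hsat v, ← hsat (v + e), map_add, h11])
    obtain ⟨d', hd', c', hc', hdc⟩ := AddSubgroup.mem_sup.mp key
    obtain ⟨d, rfl⟩ := hπ d'
    obtain ⟨c₁, hc₁, rfl⟩ := hc'
    have hdL := Z.quo_Lk hπ hker (by rw [hkerr]; exact hrB) hd'
    have hsum : v - (d + c₁) ∈ r := by
      rw [← hkerr]
      exact Z.ker_iff.mp (by rw [map_add]; exact hdc)
    apply hvM
    have e1 : v = d + (c₁ + (v - (d + c₁))) := by abel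
    rw [e1]
    exact M.add_mem (hLk hdL) (M.add_mem (hCM hc₁) (hrM hsum))
  apply g.glue h1 h0 (of_invS hM) heps hclaim (hHM h.tH)
  · intro x hx n hn
    have hnM : n ∈ M := hn.2
    have hxn : x + n ∉ M := by
      intro hh
      apply hx
      have := M.sub_mem hh hnM
      simpa using this
    have k := hn.1.2 x
    constructor
    · intro hxS
      exact (k.mp ⟨hxS, hx⟩).1
    · intro hxS
      exact (k.mpr ⟨hxS, hxn⟩).1
  · intro x hx
    exact h.outH (fun hh => hx (hHM hh))

end Pool.Agent.R14.TII
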